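import Pool.Agent.H3MT.Defs

/-!
# Coherence of the displacements along a path of patterns (module Coh of MP_02726b_an)
-/

open Finset

namespace Pool.Agent.H3MT.Coh

theorem pat_mono {Λ n : ℕ} {τ : ℕ → ℕ} (h : IsPat Λ n τ) {s t : ℕ} (hst : s ≤ t)
    (ht : t < 8 * Λ) : τ s ≤ τ t := by
  rcases Nat.eq_or_lt_of_le hst with h1 | h1
  · rw [h1]
  · exact (h.1 s t h1 ht).le

theorem ps_dform (Λ i : ℕ) (τ : ℕ → ℕ) (s : ℕ) :
    ∑ t ∈ range s, dform Λ i τ t = ∑ j ∈ range (Λ - 1),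
      ((if τ (pa i j) < s then (1 : ℤ) else 0) - (if τ (pb i j) < s then 1 else 0)) := by
  unfold dform
  rw [Finset.sum_comm]
  refine Finset.sum_congr rfl fun j _ => ?_
  rw [Finset.sum_sub_distrib, Finset.sum_ite_eq', Finset.sum_ite_eq']
  simp only [Finset.mem_range]

theorem ps_one {Λ n i : ℕ} {τ : ℕ → ℕ} (h : IsPat Λ n τ) (hi : i < 4) {j s : ℕ}
    (hj : j + 1 < Λ) (h1 : τ (pa i j) < s) (h2 : s ≤ τ (pb i j)) :
    ∑ t ∈ range s, dform Λ i τ t = 1 := by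
  rw [ps_dform]
  have hmem : j ∈ range (Λ - 1) := Finset.mem_range.mpr (by omega)
  rw [Finset.sum_eq_single j]
  · rw [if_pos h1, if_neg (not_lt.mpr h2)]; rfl
  · intro j' hj' hne
    have hj'' := Finset.mem_range.mp hj'
    rcases lt_or_gt_of_ne hne with hlt | hgt
    · have e1 : τ (pa i j') < s := lt_of_le_of_lt
        (pat_mono h (by unfold pa; omega) (by unfold pa; omega)) h1
      have e2 : τ (pb i j') < s := lt_of_le_of_lt
        (pat_mono h (by unfold pa pb; omega) (by unfold pa; omega)) h1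
      rw [if_pos e1, if_pos e2]; rfl
    · have e1 : s ≤ τ (pa i j') := h2.trans
        (pat_mono h (by unfold pa pb; omega) (by unfold pa; omega))
      have e2 : s ≤ τ (pb i j') := h2.trans
        (pat_mono h (by unfold pb; omega) (by unfold pb; omega))
      rw [if_neg (not_lt.mpr e1), if_neg (not_lt.mpr e2)]; rfl
  · intro hn; exact absurd hmem hn

theorem ps_zero {Λ n i : ℕ} {τ : ℕ → ℕ} (h : IsPat Λ n τ) (hi : i < 4) {j s : ℕ}
    (hj : j + 1 < Λ) (h1 : τ (pb i j) < s) (h2 : s ≤ τ (pa i (j + 1))) :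
    ∑ t ∈ range s, dform Λ i τ t = 0 := by
  rw [ps_dform]
  refine Finset.sum_eq_zero fun j' hj' => ?_
  have hj'' := Finset.mem_range.mp hj'
  rcases Nat.lt_or_ge j j' with hlt | hge
  · have e1 : s ≤ τ (pa i j') := h2.trans
      (pat_mono h (by unfold pa; omega) (by unfold pa; omega))
    have e2 : s ≤ τ (pb i j') := h2.trans
      (pat_mono h (by unfold pa pb; omega) (by unfold pb; omega))
    rw [if_neg (not_lt.mpr e1), if_neg (not_lt.mpr e2)]; rfl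
  · have e1 : τ (pa i j') < s := lt_of_le_of_lt
      (pat_mono h (by unfold pa pb; omega) (by unfold pb; omega)) h1
    have e2 : τ (pb i j') < s := lt_of_le_of_lt
      (pat_mono h (by unfold pb; omega) (by unfold pb; omega)) h1
    rw [if_pos e1, if_pos e2]; rfl

/-- the invariant: after `k` steps, arrival direction `c` -/
def Inv (Λ k : ℕ) (m : ℤ) (τ : ℕ → ℕ) (S : ℕ → ℤ) (c : ℕ) : Prop :=
  (∀ j s, 2 * k ≤ j → j + 2 * k + 2 ≤ Λ → τ (pb c j) < s → s ≤ τ (pa c (j + 1)) →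
    S s = (k : ℤ) - m) ∧
  (∀ j, 2 * k ≤ j → j + 2 * k + 2 ≤ Λ → ∃ s, τ (pa c j) < s ∧ s ≤ τ (pb c j) ∧ S s = -m)

/-- inside the excursions in direction `d ≠ c` -/
theorem inv_in {Λ n k : ℕ} {m : ℤ} {τ : ℕ → ℕ} {S : ℕ → ℤ} {c d : ℕ} (h : IsPat Λ n τ)
    (hI : Inv Λ k m τ S c) (hc : c < 4) (hd : d < 4) (hcd : c ≠ d) {j s : ℕ}
    (hj1 : 2 * k + 1 ≤ j) (hj2 : j + 2 * k + 2 ≤ Λ) (h1 : τ (pa d j) < s)
    (h2 : s ≤ τ (pb d j)) : S s = (k : ℤ) - m := by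
  rcases lt_or_gt_of_ne hcd with hlt | hgt
  · refine hI.1 j s (by omega) hj2 ?_ ?_
    · exact lt_of_le_of_lt (pat_mono h (by unfold pa pb; omega) (by unfold pa; omega)) h1
    · exact h2.trans (pat_mono h (by unfold pa pb; omega) (by unfold pa; omega))
  · obtain ⟨j', rfl⟩ : ∃ j', j = j' + 1 := ⟨j - 1, by omega⟩
    refine hI.1 j' s (by omega) (by omega) ?_ ?_
    · exact lt_of_le_of_lt (pat_mono h (by unfold pa pb; omega) (by unfold pa; omega)) h1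
    · exact h2.trans (pat_mono h (by unfold pa pb; omega) (by unfold pa; omega))

/-- between the excursions in direction `d ≠ c` -/
theorem inv_out {Λ n k : ℕ} {m : ℤ} {τ : ℕ → ℕ} {S : ℕ → ℤ} {c d : ℕ} (h : IsPat Λ n τ)
    (hI : Inv Λ k m τ S c) (hc : c < 4) (hd : d < 4) (hcd : c ≠ d) {j : ℕ}
    (hj1 : 2 * k ≤ j) (hj2 : j + 1 + 2 * k + 2 ≤ Λ) :
    ∃ s, τ (pb d j) < s ∧ s ≤ τ (pa d (j + 1)) ∧ S s = -m := by
  rcases lt_or_gt_of_ne hcd with hlt | hgt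
  · obtain ⟨s, h1, h2, h3⟩ := hI.2 (j + 1) (by omega) (by omega)
    refine ⟨s, ?_, ?_, h3⟩
    · exact lt_of_le_of_lt (pat_mono h (by unfold pa pb; omega) (by unfold pa; omega)) h1
    · exact h2.trans (pat_mono h (by unfold pa pb; omega) (by unfold pa; omega))
  · obtain ⟨s, h1, h2, h3⟩ := hI.2 j (by omega) (by omega)
    refine ⟨s, ?_, ?_, h3⟩
    · exact lt_of_le_of_lt (pat_mono h (by unfold pa pb; omega) (by unfold pa; omega)) h1
    · exact h2.trans (pat_mono h (by unfold pa pb; omega) (by unfold pa; omega))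

theorem step_true {Λ n k i : ℕ} {m : ℤ} {τ τ' : ℕ → ℕ} {S S' : ℕ → ℤ} {c : ℕ}
    (h : IsPat Λ n τ) (hI : Inv Λ k m τ S c) (hc : c < 4) (hi : i < 2) (hcd : c ≠ i)
    (hC : Cons Λ i τ τ') (hS : ∀ s, S' s = S s + ∑ t ∈ range s, dform Λ i τ t) :
    Inv Λ (k + 1) m τ' S' (2 + i) := by
  constructor
  · intro j s hj1 hj2 h1 h2
    rw [← hC.1 j (by omega)] at h1
    rw [← hC.2 j (by omega)] at h2
    rw [hS, ps_one h (by omega) (by omega) h1 h2,
      inv_in h hI hc (by omega) hcd (by omega) (by omega) h1 h2]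
    push_cast; ring
  · intro j hj1 hj2
    obtain ⟨j', rfl⟩ : ∃ j', j = j' + 1 := ⟨j - 1, by omega⟩
    obtain ⟨s, h1, h2, h3⟩ := inv_out h hI hc (by omega : i < 4) hcd
      (by omega : 2 * k ≤ j') (by omega)
    refine ⟨s, ?_, ?_, ?_⟩
    · rw [← hC.2 j' (by omega)]; exact h1
    · rw [← hC.1 (j' + 1) (by omega)]; exact h2
    · rw [hS, ps_zero h (by omega) (by omega) h1 h2, h3, add_zero]

theorem step_false {Λ n k i : ℕ} {m : ℤ} {τ τ' : ℕ → ℕ} {S S' : ℕ → ℤ} {c : ℕ}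
    (h : IsPat Λ n τ) (h' : IsPat Λ n τ') (hI : Inv Λ k m τ S c) (hc : c < 4) (hi : i < 2)
    (hcd : c ≠ 2 + i)
    (hC : Cons Λ i τ' τ) (hS : ∀ s, S' s = S s - ∑ t ∈ range s, dform Λ i τ' t) :
    Inv Λ (k + 1) (m + 1) τ' S' i := by
  constructor
  · intro j s hj1 hj2 h1 h2
    rw [hS, ps_zero h' (by omega) (by omega) h1 h2]
    rw [hC.2 j (by omega)] at h1
    rw [hC.1 (j + 1) (by omega)] at h2
    rw [inv_in h hI hc (by omega) hcd (by omega) (by omega) h1 h2]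
    push_cast; ring
  · intro j hj1 hj2
    obtain ⟨s, h1, h2, h3⟩ := inv_out h hI hc (by omega : 2 + i < 4) hcd
      (by omega : 2 * k ≤ j) (by omega)
    rw [← hC.1 j (by omega)] at h1
    rw [← hC.2 j (by omega)] at h2
    refine ⟨s, h1, h2, ?_⟩
    rw [hS, ps_one h' (by omega) (by omega) h1 h2, h3]
    ring

/-- departure direction of a letter -/
def dep (g : Fin 2 × Bool) : ℕ := if g.2 then g.1 else 2 + g.1

/-- arrival direction of a letter -/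
def arr (g : Fin 2 × Bool) : ℕ := if g.2 then 2 + g.1 else g.1

theorem arr_lt (g : Fin 2 × Bool) : arr g < 4 := by
  unfold arr; have := g.1.2; split <;> omega

theorem arr_ne_dep {g g' : Fin 2 × Bool} (h : ¬ (g'.1 = g.1 ∧ g'.2 = !g.2)) :
    arr g ≠ dep g' := by
  intro he
  apply h
  obtain ⟨i, b⟩ := g
  obtain ⟨i', b'⟩ := g'
  have hi := i.2
  have hi' := i'.2
  cases b <;> cases b' <;> simp [arr, dep] at he ⊢ <;> omega

theorem step {Λ n k : ℕ} {m : ℤ} {τ τ' : ℕ → ℕ} {S S' : ℕ → ℤ} {c : ℕ} (g : Fin 2 × Bool)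
    (h : IsPat Λ n τ) (h' : IsPat Λ n τ') (hI : Inv Λ k m τ S c) (hc : c < 4)
    (hcd : c ≠ dep g) (hC : StepOK Λ g τ τ')
    (hS : ∀ s, S' s = S s + ∑ t ∈ range s, stepD Λ g τ τ' t) :
    ∃ m', Inv Λ (k + 1) m' τ' S' (arr g) := by
  obtain ⟨i, b⟩ := g
  cases b with
  | true =>
    refine ⟨m, ?_⟩
    simp only [arr, if_true]
    refine step_true h hI hc i.2 ?_ ?_ ?_
    · simpa [dep] using hcd
    · simpa [StepOK] using hC
    · intro s; rw [hS]; simp [stepD]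
  | false =>
    refine ⟨m + 1, ?_⟩
    simp only [arr, Bool.false_eq_true, if_false]
    refine step_false h h' hI hc i.2 ?_ ?_ ?_
    · simpa [dep] using hcd
    · simpa [StepOK] using hC
    · intro s; rw [hS]; simp [stepD, Finset.sum_neg_distrib, sub_eq_add_neg]

theorem inv_zero {Λ n : ℕ} {τ : ℕ → ℕ} (h : IsPat Λ n τ) {c : ℕ} (hc : c < 4) :
    Inv Λ 0 0 τ (fun _ => 0) c := by
  constructor
  · intro j s _ _ _ _; simp
  · intro j _ hj
    exact ⟨τ (pb c j), h.1 _ _ (by unfold pa pb; omega) (by unfold pb; omega), le_refl _,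
      by simp⟩

theorem invariant (Λ n l : ℕ) (τ : ℕ → ℕ → ℕ) (hτ : ∀ k, k ≤ l → IsPat Λ n (τ k))
    (g : ℕ → Fin 2 × Bool) (hg : ∀ k, k < l → StepOK Λ (g k) (τ k) (τ (k + 1)))
    (hred : ∀ k, k + 1 < l → ¬ ((g (k + 1)).1 = (g k).1 ∧ (g (k + 1)).2 = !(g k).2)) :
    ∀ k, k < l → ∃ m, Inv Λ (k + 1) m (τ (k + 1))
      (fun s => ∑ t ∈ range s, ∑ k' ∈ range (k + 1), stepD Λ (g k') (τ k') (τ (k' + 1)) t)
      (arr (g k)) := by
  intro k
  induction k with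
  | zero =>
    intro hk
    obtain ⟨c, hc, hcd⟩ : ∃ c, c < 4 ∧ c ≠ dep (g 0) := by
      by_cases h0 : dep (g 0) = 0
      · exact ⟨1, by omega, by omega⟩
      · exact ⟨0, by omega, fun h => h0 h.symm⟩
    refine step (g 0) (hτ 0 (by omega)) (hτ 1 (by omega)) (inv_zero (hτ 0 (by omega)) hc) hc hcd
      (hg 0 hk) ?_
    intro s
    simp
  | succ k ih =>
    intro hk
    obtain ⟨m, hm⟩ := ih (by omega)
    refine step (g (k + 1)) (hτ (k + 1) (by omega)) (hτ (k + 2) (by omega)) hm (arr_lt _)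
      (arr_ne_dep (hred k hk)) (hg (k + 1) hk) ?_
    intro s
    rw [← Finset.sum_add_distrib]
    refine Finset.sum_congr rfl fun t _ => ?_
    rw [Finset.sum_range_succ _ (k + 1)]

theorem osc_of_inv {Λ n l : ℕ} {m : ℤ} {τ : ℕ → ℕ} (h : IsPat Λ n τ) {c : ℕ} (hc : c < 4)
    (u : ℕ → ℤ) (hI : Inv Λ l m τ (fun s => ∑ t ∈ range s, u t) c) :
    ∀ Q j x, 2 * l ≤ j → j + Q + 2 * l + 2 ≤ Λ → τ (pa c j) < x → x ≤ τ (pb c j) →
      ∑ t ∈ range x, u t = -m → OscOn (fun t => (u t : ℝ)) l x Q n := by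
  intro Q
  induction Q with
  | zero =>
    intro j x hj1 hj2 h1 h2 _
    refine OscOn.nil (h2.trans (h.2 _ ?_).le)
    unfold pb; omega
  | succ Q ih =>
    intro j x hj1 hj2 h1 h2 hx
    obtain ⟨s, hs1, hs2, hs3⟩ := hI.2 (j + 1) (by omega) (by omega)
    have hlt : τ (pb c j) < τ (pa c (j + 1)) :=
      h.1 _ _ (by unfold pa pb; omega) (by unfold pa; omega)
    have hb : ∑ t ∈ range (τ (pa c (j + 1))), u t = (l : ℤ) - m :=
      hI.1 j _ hj1 (by omega) hlt (le_refl _)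
    have hab : x < τ (pa c (j + 1)) := lt_of_le_of_lt h2 hlt
    refine OscOn.cons (a := x) (b := τ (pa c (j + 1))) (c := s) (le_refl _) hab hs1 ?_ ?_
      (ih (j + 1) s (by omega) (by omega) hs1 hs2 hs3)
    · rw [← Int.cast_sum, Finset.sum_Ico_eq_sub _ hab.le, hb, hx]
      push_cast; ring
    · have hs3' : ∑ t ∈ range s, u t = -m := hs3
      rw [← Int.cast_sum, Finset.sum_Ico_eq_sub _ hs1.le, hb, hs3']
      push_cast; ring

theorem osc_mono {u : ℕ → ℝ} {N : ℝ} {x Q y : ℕ} (h : OscOn u N x Q y) {x' : ℕ}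
    (hx : x' ≤ x) : OscOn u N x' Q y := by
  cases h with
  | nil h1 => exact OscOn.nil (hx.trans h1)
  | cons h1 h2 h3 h4 h5 h6 => exact OscOn.cons (hx.trans h1) h2 h3 h4 h5 h6

theorem coherent (Λ n l : ℕ) (hl : 1 ≤ l) (τ : ℕ → ℕ → ℕ) (hτ : ∀ k, k ≤ l → IsPat Λ n (τ k))
    (g : ℕ → Fin 2 × Bool) (hg : ∀ k, k < l → StepOK Λ (g k) (τ k) (τ (k + 1)))
    (hred : ∀ k, k + 1 < l → ¬ ((g (k + 1)).1 = (g k).1 ∧ (g (k + 1)).2 = !(g k).2)) :
    OscOn (fun t => ((∑ k ∈ Finset.range l, stepD Λ (g k) (τ k) (τ (k + 1)) t : ℤ) : ℝ)) l 0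
      (Λ - 4 * l - 4) n := by
  rcases Nat.lt_or_ge (4 * l + 4) Λ with hΛ | hΛ
  · obtain ⟨l', rfl⟩ : ∃ l', l = l' + 1 := ⟨l - 1, by omega⟩
    obtain ⟨m, hm⟩ := invariant Λ n (l' + 1) τ hτ g hg hred l' (by omega)
    obtain ⟨s, hs1, hs2, hs3⟩ := hm.2 (2 * (l' + 1)) (le_refl _) (by omega)
    have := osc_of_inv (hτ (l' + 1) (le_refl _)) (arr_lt _) _ hm (Λ - 4 * (l' + 1) - 4)
      (2 * (l' + 1)) s (le_refl _) (by omega) hs1 hs2 hs3
    exact osc_mono this (Nat.zero_le _)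
  · have : Λ - 4 * l - 4 = 0 := by omega
    rw [this]
    exact OscOn.nil (Nat.zero_le _)

end Pool.Agent.H3MT.Coh
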