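import Pool.Agent.H3MT.ILim

/-!
# MODULE Spread: approximately spreadable families of increasing sequences
-/

open Filter Topology

namespace Pool.Agent.H3MT.Spread

open Pool.Agent.H3MT

/-- a permutation with as many matches as possible -/
theorem exists_matching {q : ℕ} {γ : Type*} [DecidableEq γ] (a b : Fin q → γ) :
    ∃ φ : Equiv.Perm (Fin q), ∀ p,
      (Finset.univ.filter fun ω => a ω = p ∧ b (φ ω) ≠ p).card ≤
        (Finset.univ.filter fun ω => a ω = p).card -
          (Finset.univ.filter fun ω => b ω = p).card := by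
  obtain ⟨φ, hφ⟩ := Finite.exists_max
    (fun φ : Equiv.Perm (Fin q) => (Finset.univ.filter fun ω => a ω = b (φ ω)).card)
  refine ⟨φ, fun p => ?_⟩
  by_cases h0 : ∃ ω₀, a ω₀ = p ∧ b (φ ω₀) ≠ p
  · obtain ⟨ω₀, ha0, hb0⟩ := h0
    have key : ∀ ω', b (φ ω') = p → a ω' = p := by
      intro ω' hb'
      by_contra ha'
      have hlt : (Finset.univ.filter fun ω => a ω = b (φ ω)).card <
          (Finset.univ.filter fun ω => a ω = b (((Equiv.swap ω₀ ω').trans φ) ω)).card := by
        apply Finset.card_lt_card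
        rw [Finset.ssubset_iff_of_subset]
        · refine ⟨ω₀, ?_, ?_⟩
          · simp only [Finset.mem_filter, Finset.mem_univ, true_and, Equiv.trans_apply,
              Equiv.swap_apply_left]
            rw [ha0, hb']
          · simp only [Finset.mem_filter, Finset.mem_univ, true_and]
            rw [ha0]
            exact fun h => hb0 h.symm
        · intro ω hω
          simp only [Finset.mem_filter, Finset.mem_univ, true_and, Equiv.trans_apply] at hω ⊢
          have h1 : ω ≠ ω₀ := by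
            rintro rfl
            exact hb0 (by rw [← hω, ha0])
          have h2 : ω ≠ ω' := by
            rintro rfl
            exact ha' (by rw [hω, hb'])
          rw [Equiv.swap_apply_of_ne_of_ne h1 h2]
          exact hω
      exact absurd (hφ ((Equiv.swap ω₀ ω').trans φ)) (not_le.mpr hlt)
    have h1 : (Finset.univ.filter fun ω => b ω = p).card =
        (Finset.univ.filter fun ω => a ω = p ∧ b (φ ω) = p).card := by
      symm
      apply Finset.card_bij (fun ω _ => φ ω)
      · intro ω hω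
        simp only [Finset.mem_filter, Finset.mem_univ, true_and] at hω ⊢
        exact hω.2
      · intro x _ y _ h
        exact φ.injective h
      · intro y hy
        simp only [Finset.mem_filter, Finset.mem_univ, true_and] at hy
        refine ⟨φ.symm y, ?_, φ.apply_symm_apply y⟩
        simp only [Finset.mem_filter, Finset.mem_univ, true_and, Equiv.apply_symm_apply]
        exact ⟨key _ (by rw [Equiv.apply_symm_apply]; exact hy), hy⟩
    have h2 : (Finset.univ.filter fun ω => a ω = p).card =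
        (Finset.univ.filter fun ω => a ω = p ∧ b (φ ω) = p).card +
        (Finset.univ.filter fun ω => a ω = p ∧ b (φ ω) ≠ p).card := by
      rw [← Finset.filter_filter, ← Finset.filter_filter,
        Finset.card_filter_add_card_filter_not]
    omega
  · push Not at h0
    have : (Finset.univ.filter fun ω => a ω = p ∧ b (φ ω) ≠ p) = ∅ := by
      rw [Finset.filter_eq_empty_iff]
      rintro ω - ⟨h1, h2⟩
      exact h2 (h0 ω h1)
    rw [this, Finset.card_empty]
    exact Nat.zero_le _

/-- the difference of two basis vectors in every coordinate -/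
noncomputable def cvec (L m r : ℕ) (α β : Fin r → Fin m → Fin L) (τ : Fin L → ℕ) :
    Fin r → lp (fun _ : Fin m → ℕ => ℝ) 1 :=
  fun i => lp.single 1 (τ ∘ α i) (1 : ℝ) - lp.single 1 (τ ∘ β i) (1 : ℝ)

theorem exists_small (L m r : ℕ) (α β : Fin r → Fin m → Fin L) (hα : ∀ i, StrictMono (α i))
    (hβ : ∀ i, StrictMono (β i)) (ε : ℝ) (hε : 0 < ε) :
    ∃ (ι : Type) (t : Finset ι) (w : ι → ℝ) (τ : ι → Fin L → ℕ), (∀ j ∈ t, 0 ≤ w j) ∧
      ∑ j ∈ t, w j = 1 ∧ (∀ j ∈ t, StrictMono (τ j)) ∧
      ∀ (i : Fin r) (S : Finset (Fin m → ℕ)),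
        ∑ p ∈ S, |∑ j ∈ t, w j * ((if τ j ∘ α i = p then 1 else 0) -
          (if τ j ∘ β i = p then 1 else 0))| ≤ ε := by
  have hex : ¬ Disjoint (Metric.ball (0 : Fin r → lp (fun _ : Fin m → ℕ => ℝ) 1) ε)
      (convexHull ℝ (cvec L m r α β '' {τ | StrictMono τ})) := by
    intro hdisj
    obtain ⟨f, u, hf1, hf2⟩ := geometric_hahn_banach_open (convex_ball _ _) Metric.isOpen_ball
      (convex_convexHull ℝ _) hdisj
    have hu : 0 < u := by
      have := hf1 0 (Metric.mem_ball_self hε)
      rwa [map_zero] at this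
    let g : Fin r → (Fin m → ℕ) → ℝ := fun i p => f (Pi.single i (lp.single 1 p (1 : ℝ)))
    have hg : ∀ i p, |g i p| ≤ ‖f‖ := by
      intro i p
      have h1 := f.le_opNorm (Pi.single i (lp.single 1 p (1 : ℝ)))
      rw [Pi.norm_single, lp.norm_single one_pos, norm_one, mul_one] at h1
      exact h1
    have hc : ∀ τ, f (cvec L m r α β τ) = ∑ i, (g i (τ ∘ α i) - g i (τ ∘ β i)) := by
      intro τ
      have h1 : cvec L m r α β τ = ∑ i, Pi.single i (cvec L m r α β τ i) :=
        (Finset.univ_sum_single _).symm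
      rw [h1, map_sum]
      refine Finset.sum_congr rfl fun i _ => ?_
      simp only [cvec, g]
      rw [Pi.single_sub, map_sub]
    let G : Fin r × Bool → (Fin L → ℕ) → ℝ := fun k p =>
      if k.2 then g k.1 (p ∘ α k.1) else g k.1 (p ∘ β k.1)
    have hG : ∀ k p, |G k p| ≤ ‖f‖ := by
      intro k p
      simp only [G]
      split_ifs
      · exact hg _ _
      · exact hg _ _
    have hδ : 0 < u / (2 * (r + 1)) := by positivity
    obtain ⟨τ, hτ, -, hk⟩ := ILim.ilim_approx G hG hδ 0
    have e1 : ∀ i, |g i (τ ∘ α i) - g i (τ ∘ β i)| ≤ u / (r + 1) := by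
      intro i
      have a1 := hk (i, true)
      have a2 := hk (i, false)
      have b1 : ilim L (G (i, true)) = ilim m (g i) := by
        simp only [G, if_true]
        exact ILim.ilim_comp (α i) (hα i) (g i) (hg i)
      have b2 : ilim L (G (i, false)) = ilim m (g i) := by
        simp only [G]
        exact ILim.ilim_comp (β i) (hβ i) (g i) (hg i)
      rw [b1] at a1
      rw [b2] at a2
      simp only [G, if_true] at a1
      have a2' : |g i (τ ∘ β i) - ilim m (g i)| < u / (2 * (r + 1)) := by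
        simpa [G] using a2
      have e : g i (τ ∘ α i) - g i (τ ∘ β i) =
        (g i (τ ∘ α i) - ilim m (g i)) - (g i (τ ∘ β i) - ilim m (g i)) := by ring
      rw [e]
      calc _ ≤ |g i (τ ∘ α i) - ilim m (g i)| + |g i (τ ∘ β i) - ilim m (g i)| := abs_sub _ _
        _ ≤ u / (2 * (r + 1)) + u / (2 * (r + 1)) := (add_lt_add a1 a2').le
        _ = u / (r + 1) := by field_simp; ring
    have e2 := hf2 _ (subset_convexHull ℝ _ (Set.mem_image_of_mem _ hτ))
    rw [hc] at e2
    have e3 : ∑ i, (g i (τ ∘ α i) - g i (τ ∘ β i)) ≤ ∑ _i : Fin r, u / (r + 1) :=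
      Finset.sum_le_sum fun i _ => (le_abs_self _).trans (e1 i)
    rw [Finset.sum_const, Finset.card_univ, Fintype.card_fin, nsmul_eq_mul] at e3
    have e4 : (r : ℝ) * (u / (r + 1)) < u := by
      rw [mul_div_assoc', div_lt_iff₀ (by positivity)]
      nlinarith
    linarith
  rw [Set.not_disjoint_iff] at hex
  obtain ⟨v, hv1, hv2⟩ := hex
  rw [convexHull_eq] at hv2
  obtain ⟨ι, t, w, z, hw0, hw1, hz, hv⟩ := hv2
  have hz' : ∀ j : ι, ∃ τ : Fin L → ℕ, j ∈ t → (StrictMono τ ∧ cvec L m r α β τ = z j) := by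
    intro j
    by_cases hj : j ∈ t
    · obtain ⟨τ, hτ1, hτ2⟩ := hz j hj
      exact ⟨τ, fun _ => ⟨hτ1, hτ2⟩⟩
    · exact ⟨fun _ => 0, fun h => absurd h hj⟩
  choose τ hτ using hz'
  refine ⟨ι, t, w, τ, hw0, hw1, fun j hj => (hτ j hj).1, fun i S => ?_⟩
  have hv' : v = ∑ j ∈ t, w j • cvec L m r α β (τ j) := by
    rw [← hv, Finset.centerMass_eq_of_sum_1 _ _ hw1]
    exact Finset.sum_congr rfl fun j hj => by rw [(hτ j hj).2]
  have hvi : ∀ p, (v i : (Fin m → ℕ) → ℝ) p = ∑ j ∈ t, w j * ((if τ j ∘ α i = p then 1 else 0) -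
          (if τ j ∘ β i = p then 1 else 0)) := by
    intro p
    rw [hv']
    rw [Finset.sum_apply, lp.coeFn_sum, Finset.sum_apply]
    refine Finset.sum_congr rfl fun j _ => ?_
    simp only [cvec, Pi.smul_apply, lp.coeFn_smul, lp.coeFn_sub, Pi.sub_apply, lp.coeFn_single,
      smul_eq_mul, Pi.single_apply]
    simp only [eq_comm]
  have h1 : ‖v i‖ ≤ ε := by
    have := mem_ball_zero_iff.mp hv1
    exact (norm_le_pi_norm v i).trans this.le
  have h2 := lp.sum_rpow_le_norm_rpow (p := 1) (by norm_num) (v i) S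
  simp only [ENNReal.toReal_one, Real.rpow_one, Real.norm_eq_abs, hvi] at h2
  exact h2.trans h1

theorem card_fiber {q : ℕ} {J : Type} [Fintype J] (k : J → ℕ) (e : Fin q ≃ Σ j, Fin (k j))
    (P : J → Prop) [DecidablePred P] :
    ((Finset.univ.filter fun ω : Fin q => P (e ω).1).card : ℝ) =
      ∑ j, (k j : ℝ) * (if P j then 1 else 0) := by
  rw [Finset.card_filter]
  push_cast
  rw [Equiv.sum_comp e (fun x => if P x.1 then (1 : ℝ) else 0), Fintype.sum_sigma]
  refine Finset.sum_congr rfl fun j _ => ?_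
  change ∑ _y : Fin (k j), (if P j then (1 : ℝ) else 0) = _
  rw [Finset.sum_const, Finset.card_univ, Fintype.card_fin, nsmul_eq_mul]

theorem exists_spread (L m r : ℕ) (α β : Fin r → Fin m → Fin L) (hα : ∀ i, StrictMono (α i))
    (hβ : ∀ i, StrictMono (β i)) (ε : ℝ) (hε : 0 < ε) :
    ∃ (q n : ℕ) (τ : Fin q → Fin L → ℕ) (φ : Fin r → Equiv.Perm (Fin q)), 0 < q ∧
      (∀ ω, StrictMono (τ ω)) ∧ (∀ ω s, τ ω s < n) ∧
      ∀ i, ((Finset.univ.filter fun ω => τ (φ i ω) ∘ β i ≠ τ ω ∘ α i).card : ℝ) ≤ ε * q := by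
  obtain ⟨ι, t, w, τ, hw0, hw1, hτ, hS⟩ := exists_small L m r α β hα hβ (ε / 2) (half_pos hε)
  set T : ℝ := (t.card : ℝ) with hT
  have hT0 : 0 ≤ T := by positivity
  obtain ⟨Q, hQ⟩ := exists_nat_gt (2 * T * (2 + ε) / ε + T)
  have hQT : T < Q := lt_of_le_of_lt (le_add_of_nonneg_left (by positivity)) hQ
  have hQε : 2 * T * (2 + ε) ≤ ε * Q := by
    have h1 : 2 * T * (2 + ε) / ε < Q := lt_of_le_of_lt (le_add_of_nonneg_right hT0) hQ
    rw [div_lt_iff₀ hε] at h1
    linarith
  let k : t → ℕ := fun j => ⌊w j * Q⌋₊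
  have hk1 : ∀ j : t, (k j : ℝ) ≤ w j * Q := fun j =>
    Nat.floor_le (mul_nonneg (hw0 j j.2) (Nat.cast_nonneg _))
  have hk2 : ∀ j : t, w j * Q - 1 ≤ k j := fun j => (Nat.sub_one_lt_floor _).le
  let q : ℕ := Fintype.card (Σ j : t, Fin (k j))
  let e : Fin q ≃ Σ j : t, Fin (k j) := (Fintype.equivFin _).symm
  have hq : (q : ℝ) = ∑ j, (k j : ℝ) := by
    simp only [q, Fintype.card_sigma, Fintype.card_fin]
    push_cast
    rfl
  have hq1 : (Q : ℝ) - T ≤ q := by
    rw [hq]
    calc (Q : ℝ) - T = ∑ j : t, (w j * Q - 1) := by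
          rw [Finset.sum_sub_distrib, ← Finset.sum_mul, Finset.sum_coe_sort t w, hw1, one_mul,
            Finset.sum_const, Finset.card_univ, Fintype.card_coe, nsmul_eq_mul, mul_one]
      _ ≤ _ := Finset.sum_le_sum fun j _ => hk2 j
  have hq0 : 0 < q := by
    have : (0 : ℝ) < q := by linarith
    exact_mod_cast this
  let τ' : Fin q → Fin L → ℕ := fun ω => τ (e ω).1
  choose φ hφ using fun i : Fin r => exists_matching (fun ω => τ' ω ∘ α i) (fun ω => τ' ω ∘ β i)
  refine ⟨q, (∑ j ∈ t, ∑ s, τ j s) + 1, τ', φ, hq0, fun ω => hτ _ (e ω).1.2, ?_, ?_⟩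
  · intro ω s
    have h1 : τ' ω s ≤ ∑ s, τ (e ω).1 s :=
      Finset.single_le_sum (f := fun s => τ (e ω).1 s) (fun _ _ => Nat.zero_le _)
        (Finset.mem_univ s)
    have h2 : ∑ s, τ (e ω).1 s ≤ ∑ j ∈ t, ∑ s, τ j s :=
      Finset.single_le_sum (f := fun j => ∑ s, τ j s) (fun _ _ => Nat.zero_le _) (e ω).1.2
    omega
  · intro i
    set S : Finset (Fin m → ℕ) := Finset.univ.image (fun ω => τ' ω ∘ α i) with hSdef
    have h1 : (Finset.univ.filter fun ω => τ' (φ i ω) ∘ β i ≠ τ' ω ∘ α i).card =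
        ∑ p ∈ S, (Finset.univ.filter fun ω => τ' ω ∘ α i = p ∧ τ' (φ i ω) ∘ β i ≠ p).card := by
      rw [Finset.card_eq_sum_card_fiberwise (f := fun ω => τ' ω ∘ α i) (t := S)]
      · refine Finset.sum_congr rfl fun p _ => ?_
        congr 1
        ext ω
        simp only [Finset.mem_filter, Finset.mem_univ, true_and]
        constructor
        · rintro ⟨a1, a2⟩
          exact ⟨a2, fun h => a1 (by rw [h, a2])⟩
        · rintro ⟨a1, a2⟩
          exact ⟨fun h => a2 (by rw [h, a1]), a1⟩
      · intro ω _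
        exact Finset.mem_coe.mpr (Finset.mem_image_of_mem _ (Finset.mem_univ ω))
    have h2 : ∀ p, ((Finset.univ.filter fun ω => τ' ω ∘ α i = p ∧
        τ' (φ i ω) ∘ β i ≠ p).card : ℝ) ≤
        |∑ j : t, (k j : ℝ) * ((if τ j ∘ α i = p then 1 else 0) -
          (if τ j ∘ β i = p then 1 else 0))| := by
      intro p
      have a1 := hφ i p
      have a2 := card_fiber k e (fun j => τ j ∘ α i = p)
      have a3 := card_fiber k e (fun j => τ j ∘ β i = p)
      have a4 : (((Finset.univ.filter fun ω => τ' ω ∘ α i = p).card -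
          (Finset.univ.filter fun ω => τ' ω ∘ β i = p).card : ℕ) : ℝ) ≤
          |((Finset.univ.filter fun ω => τ' ω ∘ α i = p).card : ℝ) -
          ((Finset.univ.filter fun ω => τ' ω ∘ β i = p).card : ℝ)| := by
        rcases le_total (Finset.univ.filter fun ω => τ' ω ∘ α i = p).card
          (Finset.univ.filter fun ω => τ' ω ∘ β i = p).card with h | h
        · rw [Nat.sub_eq_zero_of_le h, Nat.cast_zero]
          exact abs_nonneg _
        · rw [Nat.cast_sub h]
          exact le_abs_self _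
      refine (Nat.cast_le.mpr a1).trans (a4.trans (le_of_eq ?_))
      have a5 : ((Finset.univ.filter fun ω => τ' ω ∘ α i = p).card : ℝ) =
        ∑ j : t, (k j : ℝ) * (if τ j ∘ α i = p then 1 else 0) := a2
      have a6 : ((Finset.univ.filter fun ω => τ' ω ∘ β i = p).card : ℝ) =
        ∑ j : t, (k j : ℝ) * (if τ j ∘ β i = p then 1 else 0) := a3
      rw [a5, a6, ← Finset.sum_sub_distrib]
      congr 1
      exact Finset.sum_congr rfl fun j _ => by ring
    have h3 : ∀ p, |∑ j : t, (k j : ℝ) * ((if τ j ∘ α i = p then 1 else 0) -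
          (if τ j ∘ β i = p then 1 else 0))| ≤
        Q * |∑ j ∈ t, w j * ((if τ j ∘ α i = p then 1 else 0) -
          (if τ j ∘ β i = p then 1 else 0))| +
        ∑ j : t, ((if τ j ∘ α i = p then (1 : ℝ) else 0) + (if τ j ∘ β i = p then 1 else 0)) := by
      intro p
      have b1 : ∑ j : t, (k j : ℝ) * ((if τ j ∘ α i = p then 1 else 0) -
          (if τ j ∘ β i = p then 1 else 0)) =
          Q * (∑ j ∈ t, w j * ((if τ j ∘ α i = p then 1 else 0) -
          (if τ j ∘ β i = p then 1 else 0))) +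
          ∑ j : t, ((k j : ℝ) - w j * Q) * ((if τ j ∘ α i = p then 1 else 0) -
          (if τ j ∘ β i = p then 1 else 0)) := by
        rw [← Finset.sum_coe_sort t (fun j => w j * ((if τ j ∘ α i = p then (1 : ℝ) else 0) -
          (if τ j ∘ β i = p then 1 else 0))), Finset.mul_sum, ← Finset.sum_add_distrib]
        exact Finset.sum_congr rfl fun j _ => by ring
      rw [b1]
      refine (abs_add_le _ _).trans (add_le_add (le_of_eq ?_) ?_)
      · rw [abs_mul, abs_of_nonneg (Nat.cast_nonneg Q : (0 : ℝ) ≤ Q)]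
      · refine (Finset.abs_sum_le_sum_abs _ _).trans (Finset.sum_le_sum fun j _ => ?_)
        rw [abs_mul]
        have c1 : |(k j : ℝ) - w j * Q| ≤ 1 := by
          rw [abs_le]
          constructor
          · linarith [hk2 j]
          · linarith [hk1 j]
        have c2 : |(if τ j ∘ α i = p then (1 : ℝ) else 0) - (if τ j ∘ β i = p then 1 else 0)| ≤
            (if τ j ∘ α i = p then (1 : ℝ) else 0) + (if τ j ∘ β i = p then 1 else 0) := by
          split_ifs <;> norm_num
        calc _ ≤ 1 * |(if τ j ∘ α i = p then (1 : ℝ) else 0) -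
              (if τ j ∘ β i = p then 1 else 0)| :=
              mul_le_mul_of_nonneg_right c1 (abs_nonneg _)
          _ ≤ _ := by rw [one_mul]; exact c2
    have h4 : ∑ p ∈ S, ∑ j : t, ((if τ j ∘ α i = p then (1 : ℝ) else 0) +
        (if τ j ∘ β i = p then 1 else 0)) ≤ 2 * T := by
      rw [Finset.sum_comm]
      have d1 : ∀ j : t, ∑ p ∈ S, ((if τ j ∘ α i = p then (1 : ℝ) else 0) +
        (if τ j ∘ β i = p then 1 else 0)) ≤ 2 := by
        intro j
        rw [Finset.sum_add_distrib, Finset.sum_ite_eq, Finset.sum_ite_eq]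
        split_ifs <;> norm_num
      calc _ ≤ ∑ _j : t, (2 : ℝ) := Finset.sum_le_sum fun j _ => d1 j
        _ = 2 * T := by
          rw [Finset.sum_const, Finset.card_univ, Fintype.card_coe, nsmul_eq_mul, hT]
          ring
    rw [h1]
    push_cast
    calc ∑ p ∈ S, ((Finset.univ.filter fun ω => τ' ω ∘ α i = p ∧
          τ' (φ i ω) ∘ β i ≠ p).card : ℝ)
        ≤ ∑ p ∈ S, (Q * |∑ j ∈ t, w j * ((if τ j ∘ α i = p then 1 else 0) -
          (if τ j ∘ β i = p then 1 else 0))| +
        ∑ j : t, ((if τ j ∘ α i = p then (1 : ℝ) else 0) +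
          (if τ j ∘ β i = p then 1 else 0))) :=
          Finset.sum_le_sum fun p _ => (h2 p).trans (h3 p)
      _ = Q * (∑ p ∈ S, |∑ j ∈ t, w j * ((if τ j ∘ α i = p then 1 else 0) -
          (if τ j ∘ β i = p then 1 else 0))|) +
          ∑ p ∈ S, ∑ j : t, ((if τ j ∘ α i = p then (1 : ℝ) else 0) +
          (if τ j ∘ β i = p then 1 else 0)) := by
          rw [Finset.sum_add_distrib, Finset.mul_sum]
      _ ≤ Q * (ε / 2) + 2 * T :=
          add_le_add (mul_le_mul_of_nonneg_left (hS i S) (Nat.cast_nonneg _)) h4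
      _ ≤ ε * (Q - T) := by linarith
      _ ≤ ε * q := mul_le_mul_of_nonneg_left hq1 hε.le

end Pool.Agent.H3MT.Spread
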