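import Pool.Agent.H3MT.Defs
import Pool.Agent.H3MT.Spread
import Pool.Agent.H3MT.Coh

open Finset

namespace Pool.Agent.H3MT.Double

/-! ### The doubled permutation -/

section dbl

variable {E : Type*} (S : Finset E)

open Classical in
/-- one step in the doubled set -/
noncomputable def stepT (Φ : Equiv.Perm E) (x : {x // x ∈ S} × Bool) : {x // x ∈ S} × Bool :=
  if x.2 = true then
    (if h : Φ x.1.1 ∈ S then (⟨Φ x.1.1, h⟩, true) else (x.1, false))
  else
    (if h : Φ.symm x.1.1 ∈ S then (⟨Φ.symm x.1.1, h⟩, false) else (x.1, true))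

theorem stepT_symm (Φ : Equiv.Perm E) (x : {x // x ∈ S} × Bool) :
    stepT S Φ.symm (stepT S Φ x) = x := by
  classical
  obtain ⟨⟨p, hp⟩, b⟩ := x
  cases b
  · by_cases h : Φ.symm p ∈ S
    · simp [stepT, h, hp]
    · simp [stepT, h]
  · by_cases h : Φ p ∈ S
    · simp [stepT, h, hp]
    · simp [stepT, h]

/-- the doubled permutation -/
noncomputable def dbl (Φ : Equiv.Perm E) : Equiv.Perm ({x // x ∈ S} × Bool) where
  toFun := stepT S Φ
  invFun := stepT S Φ.symm
  left_inv := stepT_symm S Φ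
  right_inv := by
    intro x
    have := stepT_symm S Φ.symm x
    rwa [Equiv.symm_symm] at this

end dbl

/-! ### Facts on patterns -/

theorem stepOK_symm (Λ : ℕ) (i : Fin 2) (b : Bool) (τ τ' : ℕ → ℕ) :
    StepOK Λ (i, b) τ τ' ↔ StepOK Λ (i, !b) τ' τ := by
  cases b <;> simp [StepOK]

theorem stepD_symm (Λ : ℕ) (i : Fin 2) (b : Bool) (τ τ' : ℕ → ℕ) (t : ℕ) :
    stepD Λ (i, b) τ τ' t = - stepD Λ (i, !b) τ' τ t := by
  cases b <;> simp [stepD]

theorem isPat_inj {Λ n : ℕ} {τ : ℕ → ℕ} (h : IsPat Λ n τ) {s t : ℕ} (hs : s < 8 * Λ)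
    (ht : t < 8 * Λ) (e : τ s = τ t) : s = t := by
  rcases lt_trichotomy s t with h1 | h1 | h1
  · have := h.1 s t h1 ht; omega
  · exact h1
  · have := h.1 t s h1 hs; omega

theorem sum_ind_le {Λ n : ℕ} {τ : ℕ → ℕ} (h : IsPat Λ n τ) (κ : ℕ → ℕ)
    (hκ : ∀ j, j < Λ - 1 → κ j < 8 * Λ) (hinj : ∀ j j', κ j = κ j' → j = j') (t : ℕ) :
    0 ≤ ∑ j ∈ range (Λ - 1), (if t = τ (κ j) then (1 : ℤ) else 0) ∧
      ∑ j ∈ range (Λ - 1), (if t = τ (κ j) then (1 : ℤ) else 0) ≤ 1 := by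
  constructor
  · exact Finset.sum_nonneg fun j _ => by split_ifs <;> simp
  · rw [Finset.sum_boole]
    have : ((range (Λ - 1)).filter fun j => t = τ (κ j)).card ≤ 1 := by
      rw [Finset.card_le_one]
      intro a ha b hb
      rw [Finset.mem_filter, Finset.mem_range] at ha hb
      exact hinj _ _ (isPat_inj h (hκ _ ha.1) (hκ _ hb.1) (ha.2.symm.trans hb.2))
    exact_mod_cast this

theorem dform_bound {Λ n : ℕ} {τ : ℕ → ℕ} (h : IsPat Λ n τ) (i : Fin 2) (t : ℕ) :
    -1 ≤ dform Λ i τ t ∧ dform Λ i τ t ≤ 1 := by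
  have hi : (i : ℕ) < 2 := i.2
  have h1 := sum_ind_le h (fun j => pa i j) (fun j hj => by dsimp only [pa]; omega)
    (fun j j' e => by dsimp only [pa] at e; omega) t
  have h2 := sum_ind_le h (fun j => pb i j) (fun j hj => by dsimp only [pb]; omega)
    (fun j j' e => by dsimp only [pb] at e; omega) t
  have h3 : dform Λ i τ t = ∑ j ∈ range (Λ - 1), (if t = τ (pa i j) then (1 : ℤ) else 0) -
      ∑ j ∈ range (Λ - 1), (if t = τ (pb i j) then (1 : ℤ) else 0) := by
    rw [dform, Finset.sum_sub_distrib]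
  omega

theorem dform_eq_zero {Λ n : ℕ} {τ : ℕ → ℕ} (h : IsPat Λ n τ) (i : Fin 2) (t : ℕ) (ht : n ≤ t) :
    dform Λ i τ t = 0 := by
  have hi : (i : ℕ) < 2 := i.2
  rw [dform]
  refine Finset.sum_eq_zero fun j hj => ?_
  rw [Finset.mem_range] at hj
  have h1 := h.2 (pa i j) (by dsimp only [pa]; omega)
  have h2 := h.2 (pb i j) (by dsimp only [pb]; omega)
  rw [if_neg (by omega), if_neg (by omega), sub_zero]

/-- the strictly increasing enumeration of the departure and return times -/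
theorem exists_iota {Λ n : ℕ} {τ : ℕ → ℕ} (h : IsPat Λ n τ) (i : Fin 2) :
    ∃ ι : ℕ → ℕ, StrictMono ι ∧ ι (2 * (Λ - 1)) ≤ n ∧
      ∀ t, dform Λ i τ t = ∑ l ∈ range (Λ - 1),
        ((if t = ι (2 * l) then 1 else 0) - (if t = ι (2 * l + 1) then 1 else 0)) := by
  have hi : (i : ℕ) < 2 := i.2
  obtain ⟨ι, hι⟩ : ∃ ι : ℕ → ℕ, ∀ s, ι s = if s < 2 * (Λ - 1) then
      τ (8 * (s / 2) + 2 * i + s % 2) else n + (s - 2 * (Λ - 1)) := ⟨_, fun _ => rfl⟩
  refine ⟨ι, ?_, ?_, ?_⟩
  · intro s s' hs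
    rw [hι, hι]
    split_ifs with c1 c2 c2
    · exact h.1 _ _ (by omega) (by omega)
    · have := h.2 (8 * (s / 2) + 2 * i + s % 2) (by omega)
      omega
    · omega
    · omega
  · rw [hι]; simp
  · intro t
    rw [dform]
    refine Finset.sum_congr rfl fun l hl => ?_
    rw [Finset.mem_range] at hl
    have e1 : ι (2 * l) = τ (pa i l) := by
      rw [hι, if_pos (by omega)]
      congr 1
      dsimp only [pa]; omega
    have e2 : ι (2 * l + 1) = τ (pb i l) := by
      rw [hι, if_pos (by omega)]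
      congr 1
      dsimp only [pb]; omega
    rw [e1, e2]

/-! ### The system -/

section sys

variable (Λ n M : ℕ) {q₀ : ℕ} (τ : Fin q₀ → ℕ → ℕ) (φ : Fin 2 → Equiv.Perm (Fin q₀))

open Classical in
/-- the 1-form, set to zero on inconsistent edges -/
noncomputable def dd (i : Fin 2) (ω : Fin q₀) (t : ℕ) : ℤ :=
  if Cons Λ i (τ ω) (τ (φ i ω)) then dform Λ i (τ ω) t else 0

/-- skew product -/
noncomputable def Phi (i : Fin 2) : Equiv.Perm (Fin q₀ × (Fin n → ℤ)) where
  toFun p := (φ i p.1, fun t => p.2 t + dd Λ τ φ i p.1 t)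
  invFun p := ((φ i).symm p.1, fun t => p.2 t - dd Λ τ φ i ((φ i).symm p.1) t)
  left_inv := by
    intro p
    simp
  right_inv := by
    intro p
    simp

/-- the box -/
noncomputable def box (q₀ n M : ℕ) : Finset (Fin q₀ × (Fin n → ℤ)) :=
  Finset.univ ×ˢ Fintype.piFinset (fun _ : Fin n => Finset.Ico (0 : ℤ) M)

theorem mem_box {p : Fin q₀ × (Fin n → ℤ)} : p ∈ box q₀ n M ↔ ∀ t, 0 ≤ p.2 t ∧ p.2 t < M := by
  simp [box]

/-- the doubled space -/
abbrev TT (q₀ n M : ℕ) : Type := {x // x ∈ box q₀ n M} × Bool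

/-- the generators -/
noncomputable def sg (i : Fin 2) : Equiv.Perm (TT q₀ n M) := dbl (box q₀ n M) (Phi Λ n τ φ i)

/-- the vector valued function -/
noncomputable def ff (x : TT q₀ n M) (t : ℕ) : ℤ := if h : t < n then x.1.1.2 ⟨t, h⟩ else 0

/-- the action of a letter -/
noncomputable def act (a : Fin 2 × Bool) : Equiv.Perm (TT q₀ n M) :=
  cond a.2 (sg Λ n M τ φ a.1) (sg Λ n M τ φ a.1)⁻¹

/-- A good step. -/
def GoodStep (a : Fin 2 × Bool) (x : TT q₀ n M) : Prop :=
  (act Λ n M τ φ a x).2 = x.2 ∧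
  StepOK Λ (a.1, a.2 == x.2) (τ x.1.1.1) (τ (act Λ n M τ φ a x).1.1.1) ∧
  ∀ t, ff n M (act Λ n M τ φ a x) t - ff n M x t =
    stepD Λ (a.1, a.2 == x.2) (τ x.1.1.1) (τ (act Λ n M τ φ a x).1.1.1) t

theorem goodStep_inv (i : Fin 2) (x : TT q₀ n M) (h : GoodStep Λ n M τ φ (i, true) x) :
    GoodStep Λ n M τ φ (i, false) (sg Λ n M τ φ i x) := by
  obtain ⟨h1, h2, h3⟩ := h
  have e1 : act Λ n M τ φ (i, true) = sg Λ n M τ φ i := rfl
  have e2 : act Λ n M τ φ (i, false) = (sg Λ n M τ φ i)⁻¹ := rfl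
  rw [e1] at h1 h2 h3
  have e3 : (sg Λ n M τ φ i)⁻¹ (sg Λ n M τ φ i x) = x := by simp
  have e4 : (false == (sg Λ n M τ φ i x).2) = !(true == x.2) := by
    rw [h1]; cases x.2 <;> rfl
  refine ⟨?_, ?_, ?_⟩
  · rw [e2, e3, h1]
  · rw [e2, e3]
    dsimp only
    rw [e4]
    exact (stepOK_symm Λ i _ _ _).1 h2
  · intro t
    rw [e2, e3]
    dsimp only
    rw [e4]
    have h4 := h3 t
    dsimp only at h4
    rw [stepD_symm] at h4
    linarith

theorem sg_apply (i : Fin 2) (x : TT q₀ n M) :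
    sg Λ n M τ φ i x = stepT (box q₀ n M) (Phi Λ n τ φ i) x := rfl

theorem sg_true (i : Fin 2) (p : {x // x ∈ box q₀ n M}) (h : Phi Λ n τ φ i p.1 ∈ box q₀ n M) :
    sg Λ n M τ φ i (p, true) = (⟨Phi Λ n τ φ i p.1, h⟩, true) := by
  rw [sg_apply]
  simp [stepT, h]

theorem sg_true' (i : Fin 2) (p : {x // x ∈ box q₀ n M}) (h : Phi Λ n τ φ i p.1 ∉ box q₀ n M) :
    sg Λ n M τ φ i (p, true) = (p, false) := by
  rw [sg_apply]
  simp [stepT, h]

theorem sg_false (i : Fin 2) (p : {x // x ∈ box q₀ n M})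
    (h : (Phi Λ n τ φ i).symm p.1 ∈ box q₀ n M) :
    sg Λ n M τ φ i (p, false) = (⟨(Phi Λ n τ φ i).symm p.1, h⟩, false) := by
  rw [sg_apply]
  simp [stepT, h]

theorem sg_false' (i : Fin 2) (p : {x // x ∈ box q₀ n M})
    (h : (Phi Λ n τ φ i).symm p.1 ∉ box q₀ n M) :
    sg Λ n M τ φ i (p, false) = (p, true) := by
  rw [sg_apply]
  simp [stepT, h]

theorem ff_diff (hτ : ∀ ω, IsPat Λ n (τ ω)) (i : Fin 2) (p : Fin q₀ × (Fin n → ℤ)) (t : ℕ) :
    (if h : t < n then (Phi Λ n τ φ i p).2 ⟨t, h⟩ else 0) - (if h : t < n then p.2 ⟨t, h⟩ else 0) =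
      dd Λ τ φ i p.1 t := by
  by_cases ht : t < n
  · simp [Phi, ht]
  · rw [dif_neg ht, dif_neg ht, dd]
    split_ifs
    · rw [dform_eq_zero (hτ _) i t (by omega)]; rfl
    · rfl

theorem ff_diff' (hτ : ∀ ω, IsPat Λ n (τ ω)) (i : Fin 2) (p : Fin q₀ × (Fin n → ℤ)) (t : ℕ) :
    (if h : t < n then ((Phi Λ n τ φ i).symm p).2 ⟨t, h⟩ else 0) -
        (if h : t < n then p.2 ⟨t, h⟩ else 0) = - dd Λ τ φ i ((φ i).symm p.1) t := by
  have h1 := ff_diff Λ n τ φ hτ i ((Phi Λ n τ φ i).symm p) t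
  rw [Equiv.apply_symm_apply] at h1
  have h2 : ((Phi Λ n τ φ i).symm p).1 = (φ i).symm p.1 := rfl
  rw [h2] at h1
  linarith

theorem edge (hτ : ∀ ω, IsPat Λ n (τ ω)) (i : Fin 2) (x : TT q₀ n M) :
    (∀ t, ff n M (sg Λ n M τ φ i x) t = ff n M x t) ∨
        ∃ ι : ℕ → ℕ, StrictMono ι ∧ ι (2 * (Λ - 1)) ≤ n ∧
          ((∀ t, ff n M (sg Λ n M τ φ i x) t - ff n M x t = ∑ l ∈ Finset.range (Λ - 1),
              ((if t = ι (2 * l) then 1 else 0) - (if t = ι (2 * l + 1) then 1 else 0))) ∨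
           (∀ t, ff n M x t - ff n M (sg Λ n M τ φ i x) t = ∑ l ∈ Finset.range (Λ - 1),
              ((if t = ι (2 * l) then 1 else 0) - (if t = ι (2 * l + 1) then 1 else 0)))) := by
  obtain ⟨p, b⟩ := x
  cases b
  · by_cases h : (Phi Λ n τ φ i).symm p.1 ∈ box q₀ n M
    · rw [sg_false Λ n M τ φ i p h]
      have hd := ff_diff' Λ n τ φ hτ i p.1
      by_cases hc : Cons Λ i (τ ((φ i).symm p.1.1)) (τ (φ i ((φ i).symm p.1.1)))
      · obtain ⟨ι, h1, h2, h3⟩ := exists_iota (hτ ((φ i).symm p.1.1)) i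
        refine Or.inr ⟨ι, h1, h2, Or.inr fun t => ?_⟩
        rw [← h3]
        have := hd t
        rw [dd, if_pos hc] at this
        simp only [ff]
        linarith
      · left
        intro t
        have := hd t
        rw [dd, if_neg hc] at this
        simp only [ff]
        linarith
    · rw [sg_false' Λ n M τ φ i p h]
      exact Or.inl fun t => rfl
  · by_cases h : Phi Λ n τ φ i p.1 ∈ box q₀ n M
    · rw [sg_true Λ n M τ φ i p h]
      have hd := ff_diff Λ n τ φ hτ i p.1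
      by_cases hc : Cons Λ i (τ p.1.1) (τ (φ i p.1.1))
      · obtain ⟨ι, h1, h2, h3⟩ := exists_iota (hτ p.1.1) i
        refine Or.inr ⟨ι, h1, h2, Or.inl fun t => ?_⟩
        rw [← h3]
        have := hd t
        rw [dd, if_pos hc] at this
        simp only [ff]
        linarith
      · left
        intro t
        have := hd t
        rw [dd, if_neg hc] at this
        simp only [ff]
        linarith
    · rw [sg_true' Λ n M τ φ i p h]
      exact Or.inl fun t => rfl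

/-- Interior points over consistent edges make good steps. -/
theorem goodStep_of (hτ : ∀ ω, IsPat Λ n (τ ω)) (i : Fin 2) (x : TT q₀ n M)
    (hx : ∀ t, 1 ≤ x.1.1.2 t ∧ x.1.1.2 t < (M : ℤ) - 1)
    (hc : if x.2 = true then Cons Λ i (τ x.1.1.1) (τ (φ i x.1.1.1)) else
      Cons Λ i (τ ((φ i).symm x.1.1.1)) (τ (φ i ((φ i).symm x.1.1.1)))) :
    GoodStep Λ n M τ φ (i, true) x := by
  have e1 : act Λ n M τ φ (i, true) = sg Λ n M τ φ i := rfl
  obtain ⟨p, b⟩ := x
  dsimp only at hx hc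
  cases b
  · rw [if_neg (by simp)] at hc
    have h : (Phi Λ n τ φ i).symm p.1 ∈ box q₀ n M := by
      rw [mem_box]
      intro t
      have h1 := hx t
      have h2 : ((Phi Λ n τ φ i).symm p.1).2 t = p.1.2 t - dd Λ τ φ i ((φ i).symm p.1.1) t := rfl
      have h3 := dform_bound (hτ ((φ i).symm p.1.1)) i t
      rw [h2, dd, if_pos hc]
      omega
    rw [GoodStep, e1, sg_false Λ n M τ φ i p h]
    refine ⟨rfl, ?_, ?_⟩
    · simp only [StepOK]
      have h4 : ((Phi Λ n τ φ i).symm p.1).1 = (φ i).symm p.1.1 := rfl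
      rw [Equiv.apply_symm_apply] at hc
      simpa [h4] using hc
    · intro t
      have hd := ff_diff' Λ n τ φ hτ i p.1 t
      rw [dd, if_pos hc] at hd
      have h4 : ((Phi Λ n τ φ i).symm p.1).1 = (φ i).symm p.1.1 := rfl
      simp only [ff, stepD]
      rw [hd]
      simp [h4]
  · rw [if_pos rfl] at hc
    have h : Phi Λ n τ φ i p.1 ∈ box q₀ n M := by
      rw [mem_box]
      intro t
      have h1 := hx t
      have h2 : (Phi Λ n τ φ i p.1).2 t = p.1.2 t + dd Λ τ φ i p.1.1 t := rfl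
      have h3 := dform_bound (hτ p.1.1) i t
      rw [h2, dd, if_pos hc]
      omega
    rw [GoodStep, e1, sg_true Λ n M τ φ i p h]
    refine ⟨rfl, ?_, ?_⟩
    · simp only [StepOK]
      have h4 : (Phi Λ n τ φ i p.1).1 = φ i p.1.1 := rfl
      simpa [h4] using hc
    · intro t
      have hd := ff_diff Λ n τ φ hτ i p.1 t
      rw [dd, if_pos hc] at hd
      simp only [ff, stepD]
      rw [hd]
      simp

/-- product of letters -/
noncomputable def wd (L : List (Fin 2 × Bool)) : Equiv.Perm (TT q₀ n M) :=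
  (L.map (act Λ n M τ φ)).prod

/-- If all steps along the word are good, the displacement oscillates. -/
theorem path (hτ : ∀ ω, IsPat Λ n (τ ω)) (L : List (Fin 2 × Bool)) (hL : FreeGroup.IsReduced L)
    (hl : 1 ≤ L.length) (x : TT q₀ n M)
    (hg : ∀ k (hk : k < L.length), GoodStep Λ n M τ φ (L[L.length - 1 - k]'(by omega))
      (wd Λ n M τ φ (L.drop (L.length - k)) x)) :
    OscOn (fun t => ((ff n M (wd Λ n M τ φ L x) t - ff n M x t : ℤ) : ℝ)) L.length 0
      (Λ - 4 * L.length - 4) n := by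
  obtain ⟨l, hlen⟩ : ∃ l, l = L.length := ⟨_, rfl⟩
  rw [← hlen] at hl
  obtain ⟨pts, hpts⟩ : ∃ pts : ℕ → TT q₀ n M, ∀ k, pts k = wd Λ n M τ φ (L.drop (l - k)) x :=
    ⟨_, fun _ => rfl⟩
  obtain ⟨a, ha⟩ : ∃ a : ℕ → Fin 2 × Bool, ∀ k (hk : k < l), a k = L[l - 1 - k]'(by omega) :=
    ⟨fun k => if hk : k < l then L[l - 1 - k]'(by omega) else (0, true), fun k hk => dif_pos hk⟩
  have hstep : ∀ k, k < l → pts (k + 1) = act Λ n M τ φ (a k) (pts k) := by
    intro k hk
    rw [hpts, hpts, ha k hk]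
    have e1 : L.drop (l - (k + 1)) = L[l - 1 - k]'(by omega) :: L.drop (l - k) := by
      rw [List.drop_eq_getElem_cons (by omega)]
      congr 2 <;> omega
    rw [e1, wd, List.map_cons, List.prod_cons]
    rfl
  have hgood : ∀ k, k < l → GoodStep Λ n M τ φ (a k) (pts k) := by
    intro k hk
    rw [hpts, ha k hk]
    have := hg k (by omega)
    simpa only [hlen] using this
  have h0 : pts 0 = x := by
    rw [hpts, wd, Nat.sub_zero, hlen, List.drop_length]
    rfl
  have hlast : pts l = wd Λ n M τ φ L x := by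
    rw [hpts, Nat.sub_self, List.drop_zero]
  have hb : ∀ k, k ≤ l → (pts k).2 = x.2 := by
    intro k
    induction k with
    | zero => intro _; rw [h0]
    | succ k ih =>
      intro hk
      rw [hstep k (by omega), (hgood k (by omega)).1, ih (by omega)]
  have hcoh := Coh.coherent Λ n l hl (fun k => τ (pts k).1.1.1) (fun k _ => hτ _)
    (fun k => ((a k).1, (a k).2 == x.2))
    (by
      intro k hk
      have := (hgood k hk).2.1
      rw [hb k (by omega), ← hstep k hk] at this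
      exact this)
    (by
      rintro k hk ⟨h1, h2⟩
      dsimp only at h1 h2
      have hred := (List.isChain_iff_getElem.1 hL) (l - 2 - k) (by omega)
      have e1 : a (k + 1) = L[l - 2 - k]'(by omega) := by
        rw [ha (k + 1) hk]
        congr 1; omega
      have e2 : a k = L[l - 2 - k + 1]'(by omega) := by
        rw [ha k (by omega)]
        congr 1; omega
      rw [← e1, ← e2] at hred
      rw [hred h1] at h2
      simp at h2)
  have hsum : ∀ t, ∑ k ∈ range l, stepD Λ ((a k).1, (a k).2 == x.2) (τ (pts k).1.1.1)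
      (τ (pts (k + 1)).1.1.1) t = ff n M (wd Λ n M τ φ L x) t - ff n M x t := by
    intro t
    rw [← hlast, ← h0, ← Finset.sum_range_sub (fun k => ff n M (pts k) t)]
    refine Finset.sum_congr rfl fun k hk => ?_
    rw [Finset.mem_range] at hk
    have := (hgood k hk).2.2 t
    rw [hb k (by omega), ← hstep k hk] at this
    rw [this, h0]
  rw [← hlen]
  have e : (fun t => ((ff n M (wd Λ n M τ φ L x) t - ff n M x t : ℤ) : ℝ)) =
      (fun t => ((∑ k ∈ range l, stepD Λ ((a k).1, (a k).2 == x.2) (τ (pts k).1.1.1)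
      (τ (pts (k + 1)).1.1.1) t : ℤ) : ℝ)) := by
    funext t
    rw [hsum t]
  rw [e]
  exact hcoh

open Classical in
theorem count_good (hτ : ∀ ω, IsPat Λ n (τ ω)) (i : Fin 2) :
    2 * ((Finset.univ.filter fun ω => Cons Λ i (τ ω) (τ (φ i ω))).card * (M - 2) ^ n) ≤
      (Finset.univ.filter fun x : TT q₀ n M => GoodStep Λ n M τ φ (i, true) x).card := by
  obtain ⟨A, hA⟩ : ∃ A : Finset (Fin q₀), A = Finset.univ.filter fun ω => Cons Λ i (τ ω) (τ (φ i ω)) :=
    ⟨_, rfl⟩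
  obtain ⟨I, hI⟩ : ∃ I : Finset (Fin n → ℤ), I = Fintype.piFinset fun _ : Fin n =>
    Finset.Ico (1 : ℤ) ((M : ℤ) - 1) := ⟨_, rfl⟩
  have hIc : I.card = (M - 2) ^ n := by
    rw [hI, Fintype.card_piFinset_const, Int.card_Ico]
    congr 1
    omega
  obtain ⟨B, hB⟩ : ∃ B : Finset ((Fin q₀ × (Fin n → ℤ)) × Bool), B =
    ((A ×ˢ I) ×ˢ {true}) ∪ (((A.map (φ i).toEmbedding) ×ˢ I) ×ˢ {false}) := ⟨_, rfl⟩
  have hBc : B.card = 2 * (A.card * (M - 2) ^ n) := by
    rw [hB, Finset.card_union_of_disjoint]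
    · simp only [Finset.card_product, Finset.card_map, hIc, Finset.card_singleton]
      ring
    · rw [Finset.disjoint_left]
      intro y h1 h2
      rw [Finset.mem_product, Finset.mem_singleton] at h1 h2
      rw [h1.2] at h2
      exact absurd h2.2 (by simp)
  rw [← hA, ← hBc]
  refine Finset.card_le_card_of_surjOn (fun x : TT q₀ n M => ((x.1.1, x.2) :
    (Fin q₀ × (Fin n → ℤ)) × Bool)) ?_
  rintro ⟨p, b⟩ hy
  have hy' : (p, b) ∈ B := hy
  have hpI : p.2 ∈ I := by
    rw [hB, Finset.mem_union, Finset.mem_product, Finset.mem_product, Finset.mem_product,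
      Finset.mem_product] at hy'
    rcases hy' with h | h
    · exact h.1.2
    · exact h.1.2
  have hp : ∀ t, 1 ≤ p.2 t ∧ p.2 t < (M : ℤ) - 1 := by
    intro t
    rw [hI, Fintype.mem_piFinset] at hpI
    exact Finset.mem_Ico.1 (hpI t)
  have hbox : p ∈ box q₀ n M := by
    rw [mem_box]
    intro t
    have := hp t
    omega
  refine ⟨(⟨p, hbox⟩, b), ?_, rfl⟩
  refine Finset.mem_coe.2 (Finset.mem_filter.2 ⟨Finset.mem_univ _, ?_⟩)
  refine goodStep_of Λ n M τ φ hτ i _ hp ?_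
  dsimp only
  rw [hB, Finset.mem_union, Finset.mem_product, Finset.mem_product, Finset.mem_product,
      Finset.mem_product] at hy'
  rcases hy' with h | h
  · have h1 : b = true := Finset.mem_singleton.1 h.2
    have h2 : p.1 ∈ A := h.1.1
    rw [if_pos h1]
    rw [hA, Finset.mem_filter] at h2
    exact h2.2
  · have h1 : b = false := Finset.mem_singleton.1 h.2
    have h2 : p.1 ∈ A.map (φ i).toEmbedding := h.1.1
    rw [if_neg (by rw [h1]; simp)]
    rw [Finset.mem_map] at h2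
    obtain ⟨ω, h3, h4⟩ := h2
    have h5 : (φ i).symm p.1 = ω := by
      rw [← h4]; simp
    rw [h5]
    rw [hA, Finset.mem_filter] at h3
    exact h3.2

theorem card_TT (q₀ n M : ℕ) : Fintype.card (TT q₀ n M) = 2 * (q₀ * M ^ n) := by
  rw [Fintype.card_prod, Fintype.card_coe, box, Finset.card_product, Fintype.card_piFinset_const]
  simp
  ring

open Classical in
theorem count_bad (hτ : ∀ ω, IsPat Λ n (τ ω)) (N : ℕ) (hN : 1 ≤ N)
    (hM : M = 16 * n * N + 2)
    (hφ : ∀ i : Fin 2, ((Finset.univ.filter fun ω => ¬ Cons Λ i (τ ω) (τ (φ i ω))).card : ℝ) ≤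
      1 / (8 * N) * q₀) (a : Fin 2 × Bool) :
    ((Finset.univ.filter fun x : TT q₀ n M => ¬ GoodStep Λ n M τ φ a x).card : ℝ) ≤
      1 / (4 * N) * Fintype.card (TT q₀ n M) := by
  have hNr : (1 : ℝ) ≤ N := by exact_mod_cast hN
  -- the case of a positive letter
  have hpos : ∀ i : Fin 2, ((Finset.univ.filter fun x : TT q₀ n M =>
      ¬ GoodStep Λ n M τ φ (i, true) x).card : ℝ) ≤ 1 / (4 * N) * Fintype.card (TT q₀ n M) := by
    intro i
    have h1 := count_good Λ n M τ φ hτ i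
    have h2 : (Finset.univ.filter fun x : TT q₀ n M => GoodStep Λ n M τ φ (i, true) x).card +
        (Finset.univ.filter fun x : TT q₀ n M => ¬ GoodStep Λ n M τ φ (i, true) x).card =
        Fintype.card (TT q₀ n M) := by
      rw [Finset.card_filter_add_card_filter_not, Finset.card_univ]
    have h3 : (Finset.univ.filter fun ω => Cons Λ i (τ ω) (τ (φ i ω))).card +
        (Finset.univ.filter fun ω => ¬ Cons Λ i (τ ω) (τ (φ i ω))).card = q₀ := by
      rw [Finset.card_filter_add_card_filter_not, Finset.card_univ, Fintype.card_fin]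
    have h4 := hφ i
    have h1' : (2 : ℝ) * (((Finset.univ.filter fun ω => Cons Λ i (τ ω) (τ (φ i ω))).card : ℝ) *
        ((M : ℝ) - 2) ^ n) ≤
        ((Finset.univ.filter fun x : TT q₀ n M => GoodStep Λ n M τ φ (i, true) x).card : ℝ) := by
      have : ((M - 2 : ℕ) : ℝ) = (M : ℝ) - 2 := by
        rw [Nat.cast_sub (by omega)]; simp
      rw [← this]
      exact_mod_cast h1
    have h2' : ((Finset.univ.filter fun x : TT q₀ n M => GoodStep Λ n M τ φ (i, true) x).card : ℝ) +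
        ((Finset.univ.filter fun x : TT q₀ n M => ¬ GoodStep Λ n M τ φ (i, true) x).card : ℝ) =
        Fintype.card (TT q₀ n M) := by exact_mod_cast h2
    have h3' : ((Finset.univ.filter fun ω => Cons Λ i (τ ω) (τ (φ i ω))).card : ℝ) +
        ((Finset.univ.filter fun ω => ¬ Cons Λ i (τ ω) (τ (φ i ω))).card : ℝ) = q₀ := by
      exact_mod_cast h3
    have hT : (Fintype.card (TT q₀ n M) : ℝ) = 2 * (q₀ * (M : ℝ) ^ n) := by
      rw [card_TT]; push_cast; ring
    have hMr : (M : ℝ) = 16 * n * N + 2 := by rw [hM]; push_cast; ring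
    have hM2 : (2 : ℝ) ≤ M := by rw [hMr]; nlinarith [show (0 : ℝ) ≤ (n : ℝ) * N by positivity]
    -- Bernoulli
    have hber : (1 - 1 / (8 * N)) * (M : ℝ) ^ n ≤ ((M : ℝ) - 2) ^ n := by
      have h5 : (-2 : ℝ) ≤ -2 / M := by
        rw [le_div_iff₀ (by linarith)]; linarith
      have h6 := one_add_mul_le_pow h5 n
      have h7 : ((M : ℝ) - 2) ^ n = (M : ℝ) ^ n * (1 + -2 / M) ^ n := by
        rw [← mul_pow]
        congr 1
        field_simp
        ring
      rw [h7, mul_comm]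
      refine mul_le_mul_of_nonneg_left ?_ (by positivity)
      refine le_trans ?_ h6
      have h8 : (n : ℝ) * (2 / M) ≤ 1 / (8 * N) := by
        rw [mul_div_assoc', div_le_div_iff₀ (by linarith) (by positivity)]
        rw [hMr]
        nlinarith
      have h9 : (n : ℝ) * (-2 / M) = - ((n : ℝ) * (2 / M)) := by ring
      rw [h9]
      linarith
    obtain ⟨g, hg⟩ : ∃ g : ℝ, g = ((Finset.univ.filter fun ω => Cons Λ i (τ ω) (τ (φ i ω))).card : ℝ) :=
      ⟨_, rfl⟩
    rw [← hg] at h1' h3'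
    have hg1 : (1 - 1 / (8 * N)) * (q₀ : ℝ) ≤ g := by linarith
    have hu : (0 : ℝ) ≤ 1 - 1 / (8 * N) := by
      rw [sub_nonneg, div_le_one (by positivity)]; linarith
    have h10 : (1 - 1 / (8 * N)) * (q₀ : ℝ) * ((1 - 1 / (8 * N)) * (M : ℝ) ^ n) ≤
        g * ((M : ℝ) - 2) ^ n := by
      refine mul_le_mul hg1 hber (by positivity) ?_
      exact le_trans (by positivity) hg1
    have h11 : (1 - 1 / (4 * N)) * Fintype.card (TT q₀ n M) ≤ 2 * (g * ((M : ℝ) - 2) ^ n) := by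
      have h12 : (1 : ℝ) - 1 / (4 * N) ≤ (1 - 1 / (8 * N)) * (1 - 1 / (8 * N)) := by
        have : (1 : ℝ) / (4 * N) = 2 * (1 / (8 * N)) := by field_simp; ring
        rw [this]
        nlinarith [sq_nonneg ((1 : ℝ) / (8 * N))]
      have h13 : (0 : ℝ) ≤ Fintype.card (TT q₀ n M) := by positivity
      calc (1 - 1 / (4 * N)) * (Fintype.card (TT q₀ n M) : ℝ)
          ≤ (1 - 1 / (8 * N)) * (1 - 1 / (8 * N)) * Fintype.card (TT q₀ n M) :=
            mul_le_mul_of_nonneg_right h12 h13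
        _ = 2 * ((1 - 1 / (8 * N)) * (q₀ : ℝ) * ((1 - 1 / (8 * N)) * (M : ℝ) ^ n)) := by
            rw [hT]; ring
        _ ≤ _ := by linarith
    nlinarith
  obtain ⟨i, b⟩ := a
  cases b
  · refine le_trans ?_ (hpos i)
    have h1 : (Finset.univ.filter fun x : TT q₀ n M => ¬ GoodStep Λ n M τ φ (i, false) x).card ≤
        (Finset.univ.filter fun x : TT q₀ n M => ¬ GoodStep Λ n M τ φ (i, true) x).card := by
      refine Finset.card_le_card_of_injOn (fun x => (sg Λ n M τ φ i)⁻¹ x) ?_ ?_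
      · intro x hx
        have hx' := (Finset.mem_filter.1 (Finset.mem_coe.1 hx)).2
        refine Finset.mem_coe.2 (Finset.mem_filter.2 ⟨Finset.mem_univ _, fun h => hx' ?_⟩)
        have := goodStep_inv Λ n M τ φ i _ h
        simpa using this
      · intro x _ y _ hxy
        exact (sg Λ n M τ φ i)⁻¹.injective hxy
    exact_mod_cast h1
  · exact hpos i

open Classical in
theorem count_path (hτ : ∀ ω, IsPat Λ n (τ ω)) (N : ℕ) (hN : 1 ≤ N)
    (hM : M = 16 * n * N + 2)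
    (hφ : ∀ i : Fin 2, ((Finset.univ.filter fun ω => ¬ Cons Λ i (τ ω) (τ (φ i ω))).card : ℝ) ≤
      1 / (8 * N) * q₀) (L : List (Fin 2 × Bool)) (hL : FreeGroup.IsReduced L)
    (hl : 1 ≤ L.length) (hlN : L.length ≤ N) :
    3 * Fintype.card (TT q₀ n M) ≤ 4 * (Finset.univ.filter fun x : TT q₀ n M =>
      OscOn (fun t => ((ff n M (wd Λ n M τ φ L x) t - ff n M x t : ℤ) : ℝ)) L.length 0
        (Λ - 4 * L.length - 4) n).card := by
  have hNr : (1 : ℝ) ≤ N := by exact_mod_cast hN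
  obtain ⟨B, hB⟩ : ∃ B : Finset (TT q₀ n M), B = (Finset.univ : Finset (Fin L.length)).biUnion
      (fun k => Finset.univ.filter fun x : TT q₀ n M => ¬ GoodStep Λ n M τ φ
        (L[L.length - 1 - (k : ℕ)]'(by omega)) (wd Λ n M τ φ (L.drop (L.length - (k : ℕ))) x)) :=
    ⟨_, rfl⟩
  have h1 : (B.card : ℝ) ≤ 1 / 4 * Fintype.card (TT q₀ n M) := by
    have h2 : (B.card : ℝ) ≤ ∑ k : Fin L.length, ((Finset.univ.filter fun x : TT q₀ n M =>
        ¬ GoodStep Λ n M τ φ (L[L.length - 1 - (k : ℕ)]'(by omega))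
          (wd Λ n M τ φ (L.drop (L.length - (k : ℕ))) x)).card : ℝ) := by
      rw [hB]
      exact_mod_cast Finset.card_biUnion_le
    refine h2.trans ?_
    have h3 : ∀ k : Fin L.length, ((Finset.univ.filter fun x : TT q₀ n M =>
        ¬ GoodStep Λ n M τ φ (L[L.length - 1 - (k : ℕ)]'(by omega))
          (wd Λ n M τ φ (L.drop (L.length - (k : ℕ))) x)).card : ℝ) ≤
        1 / (4 * N) * Fintype.card (TT q₀ n M) := by
      intro k
      refine le_trans ?_ (count_bad Λ n M τ φ hτ N hN hM hφ (L[L.length - 1 - (k : ℕ)]'(by omega)))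
      have : (Finset.univ.filter fun x : TT q₀ n M =>
        ¬ GoodStep Λ n M τ φ (L[L.length - 1 - (k : ℕ)]'(by omega))
          (wd Λ n M τ φ (L.drop (L.length - (k : ℕ))) x)).card ≤ (Finset.univ.filter fun x : TT q₀ n M =>
        ¬ GoodStep Λ n M τ φ (L[L.length - 1 - (k : ℕ)]'(by omega)) x).card := by
        refine Finset.card_le_card_of_injOn
          (fun x => wd Λ n M τ φ (L.drop (L.length - (k : ℕ))) x) ?_ ?_
        · intro x hx
          have hx' := (Finset.mem_filter.1 (Finset.mem_coe.1 hx)).2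
          exact Finset.mem_coe.2 (Finset.mem_filter.2 ⟨Finset.mem_univ _, hx'⟩)
        · intro x _ y _ hxy
          exact (wd Λ n M τ φ (L.drop (L.length - (k : ℕ)))).injective hxy
      exact_mod_cast this
    refine (Finset.sum_le_sum fun k _ => h3 k).trans ?_
    rw [Finset.sum_const, Finset.card_univ, Fintype.card_fin, nsmul_eq_mul, ← mul_assoc]
    refine mul_le_mul_of_nonneg_right ?_ (by positivity)
    have h4 : (L.length : ℝ) ≤ N := by exact_mod_cast hlN
    rw [mul_one_div, div_le_div_iff₀ (by positivity) (by norm_num)]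
    linarith
  have h5 : Bᶜ ⊆ Finset.univ.filter fun x : TT q₀ n M =>
      OscOn (fun t => ((ff n M (wd Λ n M τ φ L x) t - ff n M x t : ℤ) : ℝ)) L.length 0
        (Λ - 4 * L.length - 4) n := by
    intro x hx
    rw [Finset.mem_compl, hB, Finset.mem_biUnion] at hx
    refine Finset.mem_filter.2 ⟨Finset.mem_univ _, ?_⟩
    refine path Λ n M τ φ hτ L hL hl x fun k hk => ?_
    by_contra hcon
    exact hx ⟨⟨k, hk⟩, Finset.mem_univ _, Finset.mem_filter.2 ⟨Finset.mem_univ _, hcon⟩⟩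
  have h6 := Finset.card_le_card h5
  have h7 : B.card + Bᶜ.card = Fintype.card (TT q₀ n M) := Finset.card_add_card_compl B
  have h8 : 4 * B.card ≤ Fintype.card (TT q₀ n M) := by
    have : (4 : ℝ) * B.card ≤ Fintype.card (TT q₀ n M) := by linarith
    exact_mod_cast this
  omega

end sys

/-! ### The final statement -/

theorem osc_le {u : ℕ → ℝ} {N : ℝ} {x Q y : ℕ} (h : OscOn u N x Q y) : x ≤ y := by
  induction h with
  | nil h => exact h
  | cons h1 h2 h3 _ _ _ ih => omega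

theorem osc_anti {u : ℕ → ℝ} {N : ℝ} {x Q y : ℕ} (h : OscOn u N x Q y) :
    ∀ Q', Q' ≤ Q → OscOn u N x Q' y := by
  induction h with
  | nil h =>
    intro Q' hQ'
    obtain rfl : Q' = 0 := by omega
    exact OscOn.nil h
  | cons h1 h2 h3 h4 h5 h6 ih =>
    intro Q' hQ'
    cases Q' with
    | zero =>
      have := osc_le h6
      exact OscOn.nil (by omega)
    | succ Q' => exact OscOn.cons h1 h2 h3 h4 h5 (ih Q' (by omega))

theorem lift_conj {T : Type} {q : ℕ} (e : T ≃ Fin q) (σ : Fin 2 → Equiv.Perm T)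
    (g : FreeGroup (Fin 2)) (x : Fin q) :
    FreeGroup.lift (fun i => e.permCongr (σ i)) g x = e (FreeGroup.lift σ g (e.symm x)) := by
  have h : FreeGroup.lift (fun i => e.permCongr (σ i)) =
      (Equiv.permCongrHom e).toMonoidHom.comp (FreeGroup.lift σ) := by
    ext i
    simp
  rw [h]
  rfl

open Classical in
theorem comb (N : ℕ) (hN : 1 ≤ N) :
    ∃ (q n P Q : ℕ) (σ : Fin 2 → Equiv.Perm (Fin q)) (f : Fin q → ℕ → ℤ),
      0 < q ∧ 0 < P ∧ 2 * P ≤ 3 * Q ∧ (∀ x t, n ≤ t → f x t = 0) ∧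
      (∀ i x, (∀ t, f (σ i x) t = f x t) ∨
        ∃ ι : ℕ → ℕ, StrictMono ι ∧ ι (2 * P) ≤ n ∧
          ((∀ t, f (σ i x) t - f x t = ∑ l ∈ Finset.range P,
              ((if t = ι (2 * l) then 1 else 0) - (if t = ι (2 * l + 1) then 1 else 0))) ∨
           (∀ t, f x t - f (σ i x) t = ∑ l ∈ Finset.range P,
              ((if t = ι (2 * l) then 1 else 0) - (if t = ι (2 * l + 1) then 1 else 0))))) ∧
      (∀ g : FreeGroup (Fin 2), g ≠ 1 → g.norm ≤ N →
        3 * q ≤ 4 * (Finset.univ.filter fun x : Fin q =>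
          OscOn (fun t => ((f (FreeGroup.lift σ g x) t - f x t : ℤ) : ℝ)) g.norm 0 Q n).card) := by
  obtain ⟨Λ, hΛ⟩ : ∃ Λ, Λ = 20 * N + 20 := ⟨_, rfl⟩
  have hNr : (1 : ℝ) ≤ N := by exact_mod_cast hN
  obtain ⟨q₀, n, τ₀, φ, hq₀, hmono, hlt, hcard⟩ := Spread.exists_spread (8 * Λ) (2 * Λ - 1) 2
    (fun i s => ⟨8 * ((s : ℕ) / 2) + 2 * (i : ℕ) + (s : ℕ) % 2, by omega⟩)
    (fun i s => ⟨if (s : ℕ) % 2 = 0 then 8 * ((s : ℕ) / 2) + 2 * (i : ℕ) + 5 else
      8 * ((s : ℕ) / 2) + 2 * (i : ℕ) + 12, by split_ifs <;> omega⟩)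
    (by
      intro i s s' hs
      rw [Fin.lt_def] at hs ⊢
      dsimp only
      omega)
    (by
      intro i s s' hs
      rw [Fin.lt_def] at hs ⊢
      dsimp only
      split_ifs <;> omega)
    (1 / (8 * N)) (by positivity)
  obtain ⟨τ, hτdef⟩ : ∃ τ : Fin q₀ → ℕ → ℕ, ∀ ω s (hs : s < 8 * Λ), τ ω s = τ₀ ω ⟨s, hs⟩ :=
    ⟨fun ω s => if hs : s < 8 * Λ then τ₀ ω ⟨s, hs⟩ else 0, fun ω s hs => dif_pos hs⟩
  have hτ : ∀ ω, IsPat Λ n (τ ω) := by
    intro ω
    refine ⟨fun s t hst ht => ?_, fun s hs => ?_⟩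
    · rw [hτdef ω s (by omega), hτdef ω t ht]
      exact hmono ω (by rw [Fin.lt_def]; exact hst)
    · rw [hτdef ω s hs]
      exact hlt ω _
  have hcons : ∀ (i : Fin 2) (ω : Fin q₀), ¬ Cons Λ i (τ ω) (τ (φ i ω)) →
      τ₀ (φ i ω) ∘ (fun s : Fin (2 * Λ - 1) => (⟨if (s : ℕ) % 2 = 0 then
        8 * ((s : ℕ) / 2) + 2 * (i : ℕ) + 5 else 8 * ((s : ℕ) / 2) + 2 * (i : ℕ) + 12,
        by split_ifs <;> omega⟩ : Fin (8 * Λ))) ≠ τ₀ ω ∘ (fun s : Fin (2 * Λ - 1) =>
        (⟨8 * ((s : ℕ) / 2) + 2 * (i : ℕ) + (s : ℕ) % 2, by omega⟩ : Fin (8 * Λ))) := by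
    intro i ω hc he
    apply hc
    have hi : (i : ℕ) < 2 := i.2
    refine ⟨fun j hj => ?_, fun j hj => ?_⟩
    · have h1 := congrFun he ⟨2 * j, by omega⟩
      simp only [Function.comp_apply] at h1
      rw [hτdef ω (pa i j) (by dsimp only [pa]; omega),
        hτdef (φ i ω) (pb (2 + i) j) (by dsimp only [pb]; omega)]
      refine Eq.trans ?_ (h1.symm.trans ?_)
      · congr 1
        apply Fin.ext
        dsimp only [pa]
        omega
      · congr 1
        apply Fin.ext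
        dsimp only [pb]
        rw [if_pos (by omega)]
        omega
    · have h1 := congrFun he ⟨2 * j + 1, by omega⟩
      simp only [Function.comp_apply] at h1
      rw [hτdef ω (pb i j) (by dsimp only [pb]; omega),
        hτdef (φ i ω) (pa (2 + i) (j + 1)) (by dsimp only [pa]; omega)]
      refine Eq.trans ?_ (h1.symm.trans ?_)
      · congr 1
        apply Fin.ext
        dsimp only [pb]
        omega
      · congr 1
        apply Fin.ext
        dsimp only [pa]
        rw [if_neg (by omega)]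
        omega
  have hφ : ∀ i : Fin 2, ((Finset.univ.filter fun ω => ¬ Cons Λ i (τ ω) (τ (φ i ω))).card : ℝ) ≤
      1 / (8 * N) * q₀ := by
    intro i
    refine le_trans ?_ (hcard i)
    have : (Finset.univ.filter fun ω => ¬ Cons Λ i (τ ω) (τ (φ i ω))) ⊆
        (Finset.univ.filter fun ω => τ₀ (φ i ω) ∘ (fun s : Fin (2 * Λ - 1) => (⟨if (s : ℕ) % 2 = 0 then
        8 * ((s : ℕ) / 2) + 2 * (i : ℕ) + 5 else 8 * ((s : ℕ) / 2) + 2 * (i : ℕ) + 12,
        by split_ifs <;> omega⟩ : Fin (8 * Λ))) ≠ τ₀ ω ∘ (fun s : Fin (2 * Λ - 1) =>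
        (⟨8 * ((s : ℕ) / 2) + 2 * (i : ℕ) + (s : ℕ) % 2, by omega⟩ : Fin (8 * Λ)))) := by
      intro ω hω
      rw [Finset.mem_filter] at hω ⊢
      exact ⟨hω.1, hcons i ω hω.2⟩
    have h2 := Finset.card_le_card this
    exact_mod_cast h2
  obtain ⟨M, hM⟩ : ∃ M, M = 16 * n * N + 2 := ⟨_, rfl⟩
  obtain ⟨e⟩ : Nonempty (TT q₀ n M ≃ Fin (Fintype.card (TT q₀ n M))) := ⟨Fintype.equivFin _⟩
  refine ⟨Fintype.card (TT q₀ n M), n, Λ - 1, Λ - 4 * N - 4,
    fun i => e.permCongr (sg Λ n M τ φ i), fun x => ff n M (e.symm x), ?_, ?_, ?_, ?_, ?_, ?_⟩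
  · rw [card_TT]
    have hM0 : 0 < M := by omega
    positivity
  · omega
  · omega
  · intro x t ht
    exact dif_neg (by omega)
  · intro i x
    have h1 : e.symm (e.permCongr (sg Λ n M τ φ i) x) = sg Λ n M τ φ i (e.symm x) := by
      simp [Equiv.permCongr_apply]
    beta_reduce
    rw [h1]
    exact edge Λ n M τ φ hτ i (e.symm x)
  · intro g hg hgN
    have hlen : g.norm = g.toWord.length := rfl
    have hl : 1 ≤ g.toWord.length := by
      rw [← hlen, Nat.one_le_iff_ne_zero, Ne, FreeGroup.norm_eq_zero]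
      exact hg
    refine (count_path Λ n M τ φ hτ N hN hM hφ g.toWord FreeGroup.isReduced_toWord hl
      (by rw [← hlen]; exact hgN)).trans ?_
    refine Nat.mul_le_mul_left 4 ?_
    refine Finset.card_le_card_of_injOn (fun x => e x) ?_ (fun x _ y _ hxy => e.injective hxy)
    intro x hx
    have hx' := (Finset.mem_filter.1 (Finset.mem_coe.1 hx)).2
    refine Finset.mem_coe.2 (Finset.mem_filter.2 ⟨Finset.mem_univ _, ?_⟩)
    have h2 : FreeGroup.lift (fun i => e.permCongr (sg Λ n M τ φ i)) g (e x) =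
        e (wd Λ n M τ φ g.toWord x) := by
      rw [lift_conj, Equiv.symm_apply_apply]
      conv_lhs => rw [← FreeGroup.mk_toWord (x := g), FreeGroup.lift_mk]
      rfl
    beta_reduce
    rw [h2, Equiv.symm_apply_apply, Equiv.symm_apply_apply, hlen]
    exact osc_anti hx' _ (by omega)

end Pool.Agent.H3MT.Double
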