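import Pool.Agent.H3MT.Defs

/-!
# The engine: averaged spreading seminorms

From a spreading seminorm `S` and a number `p` we get `A > 0` and a width `W` such that the
dilated alternating vectors with at most `p` pairs have seminorm at most `2 A`, while every dilated
vector which oscillates at least `p / 2` times has seminorm at least `N A / 4`.
-/

open Filter Topology

namespace Pool.Agent.H3MT.Engine

open Finsupp

/-! ## General facts on seminorms -/

section gen

variable (S : SpreadNorm)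

lemma n_zero : S.n 0 = 0 := by
  have h := S.smul 0 0
  simpa using h

lemma n_neg (u : ℕ →₀ ℝ) : S.n (-u) = S.n u := by
  have h := S.smul (-1) u
  simpa using h

lemma n_nonneg (u : ℕ →₀ ℝ) : 0 ≤ S.n u := by
  have h := S.add u (-u)
  rw [add_neg_cancel, n_zero, n_neg] at h
  linarith

lemma n_sub (u v : ℕ →₀ ℝ) : S.n (u - v) ≤ S.n u + S.n v := by
  have h := S.add u (-v)
  rw [n_neg] at h
  rwa [sub_eq_add_neg]

lemma n_sum {ι : Type*} (s : Finset ι) (f : ι → (ℕ →₀ ℝ)) :
    S.n (∑ i ∈ s, f i) ≤ ∑ i ∈ s, S.n (f i) := by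
  classical
  induction s using Finset.induction_on with
  | empty => simp [n_zero]
  | insert a s ha ih =>
    rw [Finset.sum_insert ha, Finset.sum_insert ha]
    exact (S.add _ _).trans (by linarith)

lemma n_single (t : ℕ) (c : ℝ) : S.n (single t c) ≤ |c| := by
  have h : single t c = c • single t (1 : ℝ) := by simp
  rw [h, S.smul]
  have := S.single t
  have h2 := abs_nonneg c
  nlinarith

/-- a linear map is controlled by its values on the basis -/
lemma n_lin (L : (ℕ →₀ ℝ) →ₗ[ℝ] (ℕ →₀ ℝ)) (c : ℕ → ℝ)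
    (h : ∀ t, S.n (L (single t 1)) ≤ c t) (u : ℕ →₀ ℝ) :
    S.n (L u) ≤ u.sum (fun t a => |a| * c t) := by
  have hu : u = ∑ t ∈ u.support, u t • single t (1 : ℝ) := by
    conv_lhs => rw [← Finsupp.sum_single u]
    rw [Finsupp.sum]
    exact Finset.sum_congr rfl fun t _ => by simp
  have hL : L u = ∑ t ∈ u.support, u t • L (single t 1) := by
    conv_lhs => rw [hu]
    rw [map_sum]
    exact Finset.sum_congr rfl fun t _ => by rw [map_smul]
  rw [hL, Finsupp.sum]
  refine (n_sum S _ _).trans (Finset.sum_le_sum fun t _ => ?_)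
  rw [S.smul]
  exact mul_le_mul_of_nonneg_left (h t) (abs_nonneg _)

end gen

/-! ## Reindexing of sums -/

lemma sum_mul {M : Type*} [AddCommMonoid M] (V W : ℕ) (f : ℕ → M) :
    ∑ k ∈ Finset.range (V * W), f k = ∑ i ∈ Finset.range V, ∑ j ∈ Finset.range W, f (i * W + j) := by
  induction V with
  | zero => simp
  | succ V ih =>
    rw [Finset.sum_range_succ, ← ih, Nat.add_mul, one_mul, Finset.sum_range_add]

/-- mapDomain as a linear map -/
noncomputable abbrev md (ι : ℕ → ℕ) : (ℕ →₀ ℝ) →ₗ[ℝ] (ℕ →₀ ℝ) := Finsupp.lmapDomain ℝ ℝ ι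

lemma md_single (ι : ℕ → ℕ) (t : ℕ) (c : ℝ) : md ι (single t c) = single (ι t) c := by
  simp [md]

lemma dil_single (W b : ℕ) (c : ℝ) : dil W (single b c) = c • avg W (b * W) := by
  simp [dil]

lemma md_avg (ι : ℕ → ℕ) (W s : ℕ) :
    md ι (avg W s) = ((W : ℝ)⁻¹) • ∑ i ∈ Finset.range W, single (ι (s + i)) (1 : ℝ) := by
  rw [avg, map_smul, map_sum]
  congr 1
  exact Finset.sum_congr rfl fun i _ => md_single _ _ _

lemma dil_avg (W V s : ℕ) :
    dil W (avg V s) = ((V : ℝ)⁻¹) • ∑ i ∈ Finset.range V, avg W ((s + i) * W) := by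
  rw [avg, map_smul, map_sum]
  congr 1
  exact Finset.sum_congr rfl fun i _ => by rw [dil_single, one_smul]

/-- two linear maps agreeing on basis vectors are equal -/
lemma lin_ext {M : Type*} [AddCommGroup M] [Module ℝ M] {L L' : (ℕ →₀ ℝ) →ₗ[ℝ] M}
    (h : ∀ t, L (single t 1) = L' (single t 1)) (u : ℕ →₀ ℝ) : L u = L' u := by
  have : L = L' := by
    refine Finsupp.lhom_ext fun t c => ?_
    have hc : single t c = c • single t (1 : ℝ) := by simp
    rw [hc, map_smul, map_smul, h]
  rw [this]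

lemma dil_dil (W V : ℕ) (u : ℕ →₀ ℝ) : dil W (dil V u) = dil (V * W) u := by
  refine lin_ext (L := (dil W).comp (dil V)) (L' := dil (V * W)) (fun t => ?_) u
  rw [LinearMap.comp_apply, dil_single, dil_single, one_smul, one_smul, dil_avg, avg]
  rw [sum_mul, Nat.cast_mul, mul_inv, mul_smul]
  congr 1
  rw [Finset.smul_sum]
  refine Finset.sum_congr rfl fun i _ => ?_
  rw [avg]
  congr 1
  refine Finset.sum_congr rfl fun j _ => ?_
  congr 1
  ring

lemma dil_mul (V W : ℕ) (u : ℕ →₀ ℝ) :
    dil (V * W) u = ((V : ℝ)⁻¹) • ∑ i ∈ Finset.range V, md (fun t => t * V + i) (dil W u) := by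
  refine (lin_ext (L := dil (V * W))
    (L' := ((V : ℝ)⁻¹) • ∑ i ∈ Finset.range V, (md (fun t => t * V + i)).comp (dil W))
    (fun t => ?_) u).trans ?_
  · rw [LinearMap.smul_apply, LinearMap.sum_apply, dil_single, one_smul, avg]
    rw [Nat.cast_mul, mul_inv, mul_smul]
    congr 1
    have : ∀ i ∈ Finset.range V, ((md (fun t => t * V + i)).comp (dil W)) (single t 1)
        = ((W : ℝ)⁻¹) • ∑ j ∈ Finset.range W, single (t * W * V + j * V + i) (1 : ℝ) := by
      intro i _
      rw [LinearMap.comp_apply, dil_single, one_smul, md_avg]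
      congr 1
      refine Finset.sum_congr rfl fun j _ => ?_
      congr 1
      ring
    rw [Finset.sum_congr rfl this, ← Finset.smul_sum]
    congr 1
    rw [mul_comm V W, sum_mul, Finset.sum_comm]
    refine Finset.sum_congr rfl fun i _ => Finset.sum_congr rfl fun j _ => ?_
    congr 1
    ring
  · simp [LinearMap.sum_apply]

lemma dil_md (W : ℕ) (hW : 0 < W) (ι : ℕ → ℕ) (u : ℕ →₀ ℝ) :
    dil W (md ι u) = md (fun x => ι (x / W) * W + x % W) (dil W u) := by
  refine lin_ext (L := (dil W).comp (md ι))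
    (L' := (md (fun x => ι (x / W) * W + x % W)).comp (dil W)) (fun t => ?_) u
  rw [LinearMap.comp_apply, LinearMap.comp_apply, md_single, dil_single, dil_single, one_smul,
    one_smul, md_avg, avg]
  congr 1
  refine Finset.sum_congr rfl fun i hi => ?_
  have hi' : i < W := Finset.mem_range.1 hi
  have h1 : (t * W + i) / W = t := by
    rw [mul_comm t W, Nat.mul_add_div hW, Nat.div_eq_of_lt hi', add_zero]
  have h2 : (t * W + i) % W = i := by
    rw [mul_comm t W, Nat.mul_add_mod, Nat.mod_eq_of_lt hi']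
  simp only [h1, h2]

lemma strictMono_dil (W : ℕ) (hW : 0 < W) (ι : ℕ → ℕ) (hι : StrictMono ι) :
    StrictMono (fun x => ι (x / W) * W + x % W) := by
  intro x y hxy
  have hx := Nat.div_add_mod x W
  have hy := Nat.div_add_mod y W
  have h1 := Nat.mod_lt x hW
  have h2 := Nat.mod_lt y hW
  rcases (Nat.div_le_div_right (c := W) hxy.le).lt_or_eq with h | h
  · have h3 : ι (x / W) + 1 ≤ ι (y / W) := hι h
    have h4 : (ι (x / W) + 1) * W ≤ ι (y / W) * W := Nat.mul_le_mul_right _ h3
    have h5 : (ι (x / W) + 1) * W = ι (x / W) * W + W := by ring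
    simp only
    omega
  · have h6 : W * (x / W) = W * (y / W) := by rw [h]
    simp only [h]
    omega

/-! ## Tails -/

/-- the tail sum as a linear functional -/
noncomputable def tl (s : ℕ) : (ℕ →₀ ℝ) →ₗ[ℝ] ℝ :=
  Finsupp.lsum ℝ (fun t => if s ≤ t then LinearMap.id else 0)

lemma tl_apply (s : ℕ) (u : ℕ →₀ ℝ) :
    tl s u = ∑ t ∈ u.support.filter (fun t => s ≤ t), u t := by
  have h : tl s u = ∑ t ∈ u.support, (if s ≤ t then LinearMap.id else 0 : ℝ →ₗ[ℝ] ℝ) (u t) := by
    rw [tl, Finsupp.coe_lsum]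
    rfl
  rw [h, Finset.sum_filter]
  refine Finset.sum_congr rfl fun t _ => ?_
  split_ifs <;> simp

lemma tl_single (s t : ℕ) (c : ℝ) : tl s (single t c) = if s ≤ t then c else 0 := by
  rw [tl, Finsupp.lsum_single]
  split_ifs <;> simp

lemma tl_dil (s W : ℕ) (hW : 0 < W) (u : ℕ →₀ ℝ) : tl (s * W) (dil W u) = tl s u := by
  refine lin_ext (L := (tl (s * W)).comp (dil W)) (L' := tl s) (fun t => ?_) u
  rw [LinearMap.comp_apply, dil_single, one_smul, tl_single, avg, map_smul, map_sum]
  have hW' : (W : ℝ) ≠ 0 := by positivity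
  have h : ∀ i ∈ Finset.range W, tl (s * W) (single (t * W + i) (1 : ℝ)) =
      if s ≤ t then (1 : ℝ) else 0 := by
    intro i hi
    rw [tl_single]
    have hi' := Finset.mem_range.1 hi
    have : s * W ≤ t * W + i ↔ s ≤ t := by
      constructor
      · intro h
        by_contra hlt
        have h1 : t + 1 ≤ s := by omega
        have h2 : (t + 1) * W ≤ s * W := Nat.mul_le_mul_right _ h1
        have h3 : (t + 1) * W = t * W + W := by ring
        omega
      · intro h
        have h2 : s * W ≤ t * W := Nat.mul_le_mul_right _ h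
        omega
    simp only [this]
  rw [Finset.sum_congr rfl h, Finset.sum_const, Finset.card_range]
  split_ifs <;> simp [hW']

/-! ## The dilated seminorms -/

lemma n_avg (S : SpreadNorm) (W s : ℕ) : S.n (avg W s) ≤ 1 := by
  rw [avg, S.smul, abs_of_nonneg (by positivity)]
  rcases Nat.eq_zero_or_pos W with h | h
  · subst h; simp
  · have h1 : S.n (∑ i ∈ Finset.range W, single (s + i) (1 : ℝ)) ≤ W := by
      refine (n_sum S _ _).trans ?_
      refine (Finset.sum_le_sum (g := fun _ => (1 : ℝ)) fun i _ => S.single _).trans ?_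
      simp
    have hW : (0 : ℝ) < W := by exact_mod_cast h
    calc (W : ℝ)⁻¹ * S.n (∑ i ∈ Finset.range W, single (s + i) (1 : ℝ)) ≤ (W : ℝ)⁻¹ * W :=
          mul_le_mul_of_nonneg_left h1 (by positivity)
      _ = 1 := inv_mul_cancel₀ hW.ne'

/-- the seminorm `u ↦ n (dil W u)` -/
noncomputable def dilN (S : SpreadNorm) (W : ℕ) (hW : 0 < W) : SpreadNorm where
  n := fun u => S.n (dil W u)
  θ := S.θ
  θpos := S.θpos
  add := fun u v => by rw [map_add]; exact S.add _ _
  smul := fun c u => by rw [map_smul]; exact S.smul _ _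
  single := fun t => by
    rw [dil_single, one_smul]
    exact n_avg S _ _
  spread := fun ι hι u => by
    have h := dil_md W hW ι u
    simp only [md, Finsupp.lmapDomain_apply] at h
    rw [h]
    exact S.spread _ (strictMono_dil W hW ι hι) _
  tail := fun s u => by
    have h := S.tail (s * W) (dil W u)
    rw [← tl_apply, tl_dil s W hW, tl_apply] at h
    exact h

/-! ## The limit seminorm -/

/-- infimum of all dilated seminorms -/
noncomputable def ninf (S : SpreadNorm) (u : ℕ →₀ ℝ) : ℝ := ⨅ W : ℕ, S.n (dil (W + 1) u)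

section inf

variable (S : SpreadNorm)

lemma bdd (u : ℕ →₀ ℝ) : BddBelow (Set.range fun W : ℕ => S.n (dil (W + 1) u)) :=
  ⟨0, by rintro _ ⟨W, rfl⟩; exact n_nonneg S _⟩

lemma ninf_le (W : ℕ) (hW : 0 < W) (u : ℕ →₀ ℝ) : ninf S u ≤ S.n (dil W u) := by
  obtain ⟨W, rfl⟩ : ∃ k, W = k + 1 := ⟨W - 1, by omega⟩
  exact ciInf_le (bdd S u) W

lemma ninf_nonneg (u : ℕ →₀ ℝ) : 0 ≤ ninf S u := le_ciInf fun _ => n_nonneg S _

lemma le_ninf {u : ℕ →₀ ℝ} {c : ℝ} (h : ∀ W, 0 < W → c ≤ S.n (dil W u)) : c ≤ ninf S u :=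
  le_ciInf fun W => h (W + 1) (Nat.succ_pos _)

lemma exists_lt (u : ℕ →₀ ℝ) {c : ℝ} (h : ninf S u < c) : ∃ W, 0 < W ∧ S.n (dil W u) < c := by
  obtain ⟨W, hW⟩ := exists_lt_of_ciInf_lt h
  exact ⟨W + 1, Nat.succ_pos _, hW⟩

lemma dil_mul_le (V W : ℕ) (hV : 0 < V) (u : ℕ →₀ ℝ) : S.n (dil (V * W) u) ≤ S.n (dil W u) := by
  rw [dil_mul, S.smul, abs_of_nonneg (by positivity)]
  have hV' : (0 : ℝ) < V := by exact_mod_cast hV
  have h1 : S.n (∑ i ∈ Finset.range V, md (fun t => t * V + i) (dil W u)) ≤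
      V * S.n (dil W u) := by
    refine (n_sum S _ _).trans ?_
    refine (Finset.sum_le_sum (g := fun _ => S.n (dil W u)) fun i _ => ?_).trans ?_
    · refine (S.spread (fun t => t * V + i) ?_ _).le
      intro x y hxy
      have : (x + 1) * V ≤ y * V := Nat.mul_le_mul_right _ hxy
      have h2 : (x + 1) * V = x * V + V := by ring
      simp only
      omega
    · simp
  calc (V : ℝ)⁻¹ * S.n (∑ i ∈ Finset.range V, md (fun t => t * V + i) (dil W u))
      ≤ (V : ℝ)⁻¹ * (V * S.n (dil W u)) := mul_le_mul_of_nonneg_left h1 (by positivity)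
    _ = S.n (dil W u) := by field_simp

lemma ninf_add (u v : ℕ →₀ ℝ) : ninf S (u + v) ≤ ninf S u + ninf S v := by
  refine le_of_forall_pos_lt_add fun ε hε => ?_
  obtain ⟨W, hW, h1⟩ := exists_lt S u (c := ninf S u + ε / 2) (by linarith)
  obtain ⟨V, hV, h2⟩ := exists_lt S v (c := ninf S v + ε / 2) (by linarith)
  have h3 := ninf_le S (V * W) (Nat.mul_pos hV hW) (u + v)
  have h4 := dil_mul_le S V W hV u
  have h5 := dil_mul_le S W V hW v
  rw [mul_comm W V] at h5
  have h6 := S.add (dil (V * W) u) (dil (V * W) v)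
  rw [map_add] at h3
  linarith

lemma ninf_smul (c : ℝ) (u : ℕ →₀ ℝ) : ninf S (c • u) = |c| * ninf S u := by
  rw [ninf, ninf, Real.mul_iInf_of_nonneg (abs_nonneg c)]
  congr 1
  funext W
  rw [map_smul, S.smul]

lemma ninf_neg (u : ℕ →₀ ℝ) : ninf S (-u) = ninf S u := by
  have h := ninf_smul S (-1) u
  simpa using h

lemma ninf_sub (u v : ℕ →₀ ℝ) : ninf S (u - v) ≤ ninf S u + ninf S v := by
  have h := ninf_add S u (-v)
  rw [ninf_neg] at h
  rwa [sub_eq_add_neg]

lemma ninf_spread (ι : ℕ → ℕ) (hι : StrictMono ι) (u : ℕ →₀ ℝ) :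
    ninf S (u.mapDomain ι) = ninf S u := by
  rw [ninf, ninf]
  congr 1
  funext W
  exact (dilN S (W + 1) (Nat.succ_pos _)).spread ι hι u

end inf

/-! ## The key inequality -/

lemma n_avg_sub (S : SpreadNorm) (V a t : ℕ) :
    S.n (avg V (a + t) - avg V a) ≤ 2 * t / V := by
  have h1 : ∑ i ∈ Finset.range V, single (a + t + i) (1 : ℝ) -
      ∑ i ∈ Finset.range V, single (a + i) (1 : ℝ) =
      ∑ j ∈ Finset.range t, (single (a + V + j) (1 : ℝ) - single (a + j) (1 : ℝ)) := by
    have e1 := Finset.sum_range_add (fun k => single (a + k) (1 : ℝ)) t V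
    have e2 := Finset.sum_range_add (fun k => single (a + k) (1 : ℝ)) V t
    rw [add_comm t V] at e1
    rw [e1] at e2
    rw [Finset.sum_sub_distrib]
    simp only [add_assoc]
    rw [sub_eq_sub_iff_add_eq_add, add_comm, e2, add_comm]
  have h2 : avg V (a + t) - avg V a =
      ((V : ℝ)⁻¹) • ∑ j ∈ Finset.range t, (single (a + V + j) (1 : ℝ) - single (a + j) (1 : ℝ)) := by
    rw [← h1, avg, avg, smul_sub]
  rw [h2, S.smul, abs_of_nonneg (by positivity)]
  have h3 : S.n (∑ j ∈ Finset.range t, (single (a + V + j) (1 : ℝ) - single (a + j) (1 : ℝ))) ≤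
      2 * t := by
    refine (n_sum S _ _).trans ?_
    refine (Finset.sum_le_sum (g := fun _ => (2 : ℝ)) fun i _ => ?_).trans ?_
    · have := n_sub S (single (a + V + i) (1 : ℝ)) (single (a + i) (1 : ℝ))
      have h4 := S.single (a + V + i)
      have h5 := S.single (a + i)
      linarith
    · simp [mul_comm]
  calc (V : ℝ)⁻¹ * S.n (∑ j ∈ Finset.range t, (single (a + V + j) (1 : ℝ) - single (a + j) (1 : ℝ)))
      ≤ (V : ℝ)⁻¹ * (2 * t) := mul_le_mul_of_nonneg_left h3 (by positivity)
    _ = 2 * t / V := by ring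

lemma key_bound (S : SpreadNorm) (π : ℕ → ℕ) (hπ : Monotone π) (V : ℕ) (hV : 0 < V)
    (u : ℕ →₀ ℝ) :
    S.n (dil V (md π u)) ≤ S.n u + u.sum (fun t a => |a| * (2 * t / V)) := by
  set G : ℕ → ((ℕ →₀ ℝ) →ₗ[ℝ] (ℕ →₀ ℝ)) := fun i => md (fun t => π t * V + t + i) with hG
  set L : (ℕ →₀ ℝ) →ₗ[ℝ] (ℕ →₀ ℝ) :=
    (dil V).comp (md π) - ((V : ℝ)⁻¹) • ∑ i ∈ Finset.range V, G i with hL
  have hV' : (0 : ℝ) < V := by exact_mod_cast hV
  have hLs : ∀ t, S.n (L (single t 1)) ≤ 2 * t / V := by
    intro t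
    have h1 : L (single t 1) = avg V (π t * V) - avg V (π t * V + t) := by
      rw [hL, LinearMap.sub_apply, LinearMap.comp_apply, md_single, dil_single, one_smul,
        LinearMap.smul_apply, LinearMap.sum_apply]
      congr 1
      rw [avg]
      congr 1
      refine Finset.sum_congr rfl fun i _ => ?_
      rw [hG]
      exact md_single _ _ _
    have h2 : L (single t 1) = -(avg V (π t * V + t) - avg V (π t * V)) := by
      rw [h1]; abel
    rw [h2, n_neg]
    exact n_avg_sub S V _ t
  have h1 := n_lin S L _ hLs u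
  have h2 : dil V (md π u) = ((V : ℝ)⁻¹) • ∑ i ∈ Finset.range V, G i u + L u := by
    rw [hL, LinearMap.sub_apply, LinearMap.comp_apply, LinearMap.smul_apply, LinearMap.sum_apply]
    abel
  rw [h2]
  refine (S.add _ _).trans (add_le_add ?_ h1)
  rw [S.smul, abs_of_nonneg (by positivity)]
  have h3 : S.n (∑ i ∈ Finset.range V, G i u) ≤ V * S.n u := by
    refine (n_sum S _ _).trans ?_
    refine (Finset.sum_le_sum (g := fun _ => S.n u) fun i _ => ?_).trans ?_
    · refine (S.spread (fun t => π t * V + t + i) ?_ u).le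
      intro x y hxy
      have : π x * V ≤ π y * V := Nat.mul_le_mul_right _ (hπ hxy.le)
      simp only
      omega
    · simp
  calc (V : ℝ)⁻¹ * S.n (∑ i ∈ Finset.range V, G i u) ≤ (V : ℝ)⁻¹ * (V * S.n u) :=
        mul_le_mul_of_nonneg_left h3 (by positivity)
    _ = S.n u := by field_simp

lemma key (S : SpreadNorm) (π : ℕ → ℕ) (hπ : Monotone π) (u : ℕ →₀ ℝ) :
    ninf S (u.mapDomain π) ≤ S.n u := by
  set K : ℝ := u.sum (fun t a => |a| * (2 * t)) with hK
  have hb : ∀ V : ℕ, ninf S (u.mapDomain π) ≤ S.n u + K * (1 / ((V : ℝ) + 1)) := by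
    intro V
    have h1 := key_bound S π hπ (V + 1) (Nat.succ_pos _) u
    have h2 := ninf_le S (V + 1) (Nat.succ_pos _) (u.mapDomain π)
    have h3 : u.sum (fun t a => |a| * (2 * (t : ℝ) / ((V + 1 : ℕ) : ℝ))) =
        K * (1 / ((V : ℝ) + 1)) := by
      rw [hK, Finsupp.sum, Finsupp.sum, Finset.sum_mul]
      refine Finset.sum_congr rfl fun t _ => ?_
      push_cast
      ring
    rw [h3] at h1
    exact h2.trans h1
  have ht : Tendsto (fun V : ℕ => S.n u + K * (1 / ((V : ℝ) + 1))) atTop (𝓝 (S.n u + K * 0)) :=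
    (tendsto_one_div_add_atTop_nhds_zero_nat.const_mul K).const_add _
  rw [mul_zero, add_zero] at ht
  exact ge_of_tendsto' ht hb

lemma key_dil (S : SpreadNorm) (π : ℕ → ℕ) (hπ : Monotone π) (W : ℕ) (hW : 0 < W)
    (u : ℕ →₀ ℝ) : ninf S (u.mapDomain π) ≤ S.n (dil W u) := by
  refine le_trans ?_ (key (dilN S W hW) π hπ u)
  refine le_ninf _ fun V hV => ?_
  change _ ≤ S.n (dil W (dil V _))
  rw [dil_dil]
  exact ninf_le S _ (Nat.mul_pos hV hW) _

/-! ## Alternating vectors -/

lemma alt_succ (q : ℕ) : alt (q + 1) = alt q + (single (2 * q) 1 - single (2 * q + 1) 1) := by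
  rw [alt, alt, Finset.sum_range_succ]

lemma alt_add (a b : ℕ) : alt (a + b) = alt a + md (fun t => t + 2 * a) (alt b) := by
  rw [alt, alt, alt, Finset.sum_range_add, map_sum]
  congr 1
  refine Finset.sum_congr rfl fun l _ => ?_
  rw [map_sub, md_single, md_single]
  congr 2 <;> ring

lemma md_alt (ι : ℕ → ℕ) (q : ℕ) :
    md ι (alt q) = ∑ l ∈ Finset.range q, (single (ι (2 * l)) (1 : ℝ) - single (ι (2 * l + 1)) 1) := by
  rw [alt, map_sum]
  exact Finset.sum_congr rfl fun l _ => by rw [map_sub, md_single, md_single]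

lemma alt_mono_aux (S : SpreadNorm) (q m : ℕ) :
    (m : ℝ) * S.n (alt q) ≤ m * S.n (alt (q + 1)) + 2 := by
  set ι : ℕ → ℕ → ℕ := fun i t => if t < 2 * q then t else t + i with hι
  have hmono : ∀ i, StrictMono (ι i) := by
    intro i x y hxy
    simp only [hι]
    split_ifs <;> omega
  have h1 : ∀ i, md (ι i) (alt (q + 1)) =
      alt q + (single (2 * q + i) 1 - single (2 * q + (i + 1)) 1) := by
    intro i
    rw [alt_succ, map_add, md_alt, map_sub, md_single, md_single]
    congr 1
    · rw [alt]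
      refine Finset.sum_congr rfl fun l hl => ?_
      have hl' := Finset.mem_range.1 hl
      have e1 : ι i (2 * l) = 2 * l := by simp only [hι]; rw [if_pos (by omega)]
      have e2 : ι i (2 * l + 1) = 2 * l + 1 := by simp only [hι]; rw [if_pos (by omega)]
      rw [e1, e2]
    · have e1 : ι i (2 * q) = 2 * q + i := by simp only [hι]; rw [if_neg (by omega)]
      have e2 : ι i (2 * q + 1) = 2 * q + (i + 1) := by
        simp only [hι]; rw [if_neg (by omega)]; omega
      rw [e1, e2]
  have h2 : ∑ i ∈ Finset.range m, md (ι i) (alt (q + 1)) =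
      (m : ℝ) • alt q + (single (2 * q) 1 - single (2 * q + m) 1) := by
    rw [Finset.sum_congr rfl fun i _ => h1 i, Finset.sum_add_distrib,
      Finset.sum_range_sub' (fun i => single (2 * q + i) (1 : ℝ))]
    simp [Nat.cast_smul_eq_nsmul]
  have h3 : (m : ℝ) • alt q = ∑ i ∈ Finset.range m, md (ι i) (alt (q + 1)) -
      (single (2 * q) 1 - single (2 * q + m) 1) := by
    rw [h2]; abel
  have h4 : (m : ℝ) * S.n (alt q) = S.n ((m : ℝ) • alt q) := by
    rw [S.smul, abs_of_nonneg (by positivity)]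
  rw [h4, h3]
  refine (n_sub S _ _).trans (add_le_add ?_ ?_)
  · refine (n_sum S _ _).trans ?_
    refine (Finset.sum_le_sum (g := fun _ => S.n (alt (q + 1))) fun i _ => ?_).trans ?_
    · exact (S.spread (ι i) (hmono i) _).le
    · simp
  · have := n_sub S (single (2 * q) (1 : ℝ)) (single (2 * q + m) (1 : ℝ))
    have h4 := S.single (2 * q)
    have h5 := S.single (2 * q + m)
    linarith

lemma alt_mono_succ (S : SpreadNorm) (q : ℕ) : S.n (alt q) ≤ S.n (alt (q + 1)) := by
  have hb : ∀ m : ℕ, S.n (alt q) ≤ S.n (alt (q + 1)) + 2 * (1 / ((m : ℝ) + 1)) := by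
    intro m
    have h := alt_mono_aux S q (m + 1)
    have hm : (0 : ℝ) < ((m + 1 : ℕ) : ℝ) := by positivity
    have h2 : ((m + 1 : ℕ) : ℝ) * S.n (alt q) ≤
        ((m + 1 : ℕ) : ℝ) * (S.n (alt (q + 1)) + 2 * (1 / ((m : ℝ) + 1))) := by
      refine h.trans (le_of_eq ?_)
      push_cast
      field_simp
    exact le_of_mul_le_mul_left h2 hm
  have ht : Tendsto (fun m : ℕ => S.n (alt (q + 1)) + 2 * (1 / ((m : ℝ) + 1))) atTop
      (𝓝 (S.n (alt (q + 1)) + 2 * 0)) :=
    (tendsto_one_div_add_atTop_nhds_zero_nat.const_mul 2).const_add _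
  rw [mul_zero, add_zero] at ht
  exact ge_of_tendsto' ht hb

lemma alt_mono (S : SpreadNorm) {q q' : ℕ} (h : q ≤ q') : S.n (alt q) ≤ S.n (alt q') :=
  monotone_nat_of_le_succ (fun q => alt_mono_succ S q) h

lemma ninf_alt_mono (S : SpreadNorm) {q q' : ℕ} (h : q ≤ q') :
    ninf S (alt q) ≤ ninf S (alt q') :=
  le_ninf S fun W hW => (ninf_le S W hW _).trans (alt_mono (dilN S W hW) h)

lemma ninf_alt_two (S : SpreadNorm) (Q : ℕ) : ninf S (alt (2 * Q)) ≤ 2 * ninf S (alt Q) := by
  have h1 : alt (2 * Q) = alt Q + (alt Q).mapDomain (fun t => t + 2 * Q) := by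
    have h := alt_add Q Q
    rw [← two_mul] at h
    exact h
  have hm : StrictMono (fun t : ℕ => t + 2 * Q) := fun x y h => Nat.add_lt_add_right h _
  rw [h1]
  refine (ninf_add S _ _).trans ?_
  rw [ninf_spread S _ hm]
  linarith

lemma theta_le_alt (S : SpreadNorm) (p : ℕ) (hp : 0 < p) : S.θ ≤ S.n (alt p) := by
  have h := S.tail (2 * p - 1) (alt p)
  rw [← tl_apply] at h
  have h2 : tl (2 * p - 1) (alt p) = -1 := by
    obtain ⟨p, rfl⟩ : ∃ k, p = k + 1 := ⟨p - 1, by omega⟩
    rw [alt_succ, map_add, map_sub, tl_single, tl_single, if_neg (by omega), if_pos (by omega),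
      alt, map_sum]
    rw [Finset.sum_eq_zero]
    · norm_num
    · intro l hl
      have hl' := Finset.mem_range.1 hl
      rw [map_sub, tl_single, tl_single, if_neg (by omega), if_neg (by omega), sub_zero]
  rw [h2] at h
  simpa using h

/-! ## Oscillation -/

/-- the positions `3l+1, 3l+2` -/
def pos3 (t : ℕ) : ℕ := 3 * (t / 2) + 1 + t % 2

lemma pos3_mono : StrictMono pos3 := by
  intro x y h
  simp only [pos3]
  omega

lemma md_pos3_alt (Q : ℕ) :
    md pos3 (alt (Q + 1)) = (single 1 1 - single 2 1) + md (fun t => t + 3) (md pos3 (alt Q)) := by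
  rw [md_alt, md_alt, map_sum, Finset.sum_range_succ', add_comm]
  congr 1
  refine Finset.sum_congr rfl fun l _ => ?_
  rw [map_sub, md_single, md_single]
  congr 2
  · simp only [pos3]; omega
  · simp only [pos3]; omega

lemma osc (u : ℕ →₀ ℝ) (N : ℝ) {x Q y : ℕ} (h : OscOn u N x Q y) :
    ∃ π π' : ℕ → ℕ, Monotone π ∧ Monotone π' ∧ (∀ t, t < x → π t = 0) ∧ (∀ t, t < x → π' t = 0) ∧
      md π u - md π' u = N • md pos3 (alt Q) := by
  induction h with
  | nil _ =>
    refine ⟨fun _ => 0, fun _ => 0, monotone_const, monotone_const, fun _ _ => rfl,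
      fun _ _ => rfl, ?_⟩
    simp [alt]
  | @cons x a b c Q y hxa hab hbc h1 h2 _ ih =>
    obtain ⟨π₁, π₁', m1, m1', z1, z1', e1⟩ := ih
    refine ⟨fun t => if t < a then 0 else if t < b then 1 else if t < c then 2 else π₁ t + 3,
      fun t => if t < a then 0 else if t < c then 1 else π₁' t + 3, ?_, ?_, ?_, ?_, ?_⟩
    · intro s t hst
      have := m1 hst
      simp only
      split_ifs <;> omega
    · intro s t hst
      have := m1' hst
      simp only
      split_ifs <;> omega
    · intro t ht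
      simp only
      rw [if_pos (by omega)]
    · intro t ht
      simp only
      rw [if_pos (by omega)]
    · rw [md_pos3_alt, smul_add, ← map_smul, ← e1]
      have hs : ∀ π : ℕ → ℕ, md π u = ∑ t ∈ u.support ∪ Finset.Ico b c, single (π t) (u t) := by
        intro π
        rw [md, Finsupp.lmapDomain_apply, Finsupp.mapDomain]
        exact Finsupp.sum_of_support_subset u Finset.subset_union_left _ (fun _ _ => by simp)
      have hmd : ∀ π π' : ℕ → ℕ, md (fun t => t + 3) (md π u - md π' u) =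
          ∑ t ∈ u.support ∪ Finset.Ico b c,
            (single (π t + 3) (u t) - single (π' t + 3) (u t)) := by
        intro π π'
        rw [hs π, hs π', ← Finset.sum_sub_distrib, map_sum]
        refine Finset.sum_congr rfl fun t _ => ?_
        rw [map_sub, md_single, md_single]
      rw [hmd, hs, hs, ← Finset.sum_sub_distrib]
      have h3 : N • (single 1 (1 : ℝ) - single 2 1) = ∑ t ∈ u.support ∪ Finset.Ico b c,
          (if t ∈ Finset.Ico b c then (single 2 (u t) - single 1 (u t)) else 0) := by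
        rw [← Finset.sum_filter, Finset.filter_mem_eq_inter, Finset.inter_eq_right.2
          Finset.subset_union_right]
        have : ∀ t ∈ Finset.Ico b c, (single 2 (u t) - single 1 (u t) : ℕ →₀ ℝ) =
            u t • (single 2 (1 : ℝ) - single 1 1) := by
          intro t _
          rw [smul_sub]
          simp
        rw [Finset.sum_congr rfl this, ← Finset.sum_smul, h2]
        rw [neg_smul, ← smul_neg]
        congr 1
        abel
      rw [h3, ← Finset.sum_add_distrib]
      refine Finset.sum_congr rfl fun t _ => ?_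
      by_cases c1 : t < a
      · rw [if_pos c1, if_pos c1, if_neg (by rw [Finset.mem_Ico]; omega), z1 t (by omega),
          z1' t (by omega)]
        simp
      · rw [if_neg c1, if_neg c1]
        by_cases c2 : t < b
        · rw [if_pos c2, if_pos (by omega : t < c), if_neg (by rw [Finset.mem_Ico]; omega),
            z1 t (by omega), z1' t (by omega)]
          simp
        · rw [if_neg c2]
          by_cases c3 : t < c
          · rw [if_pos c3, if_pos c3, if_pos (by rw [Finset.mem_Ico]; omega), z1 t c3, z1' t c3]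
            simp
          · rw [if_neg c3, if_neg c3, if_neg (by rw [Finset.mem_Ico]; omega)]
            simp

theorem engine (S : SpreadNorm) (p : ℕ) (hp : 0 < p) :
    ∃ (A : ℝ) (W : ℕ), 0 < A ∧ 0 < W ∧
      (∀ (q : ℕ) (ι : ℕ → ℕ), q ≤ p → StrictMono ι →
        S.n (dil W ((alt q).mapDomain ι)) ≤ 2 * A) ∧
      (∀ (u : ℕ →₀ ℝ) (N : ℝ) (Q y : ℕ), 0 ≤ N → p ≤ 2 * Q → OscOn u N 0 Q y →
        N * A / 4 ≤ S.n (dil W u)) := by
  have hA : 0 < ninf S (alt p) :=
    lt_of_lt_of_le S.θpos (le_ninf S fun W hW => theta_le_alt (dilN S W hW) p hp)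
  obtain ⟨W, hW, hW2⟩ := exists_lt S (alt p) (c := 2 * ninf S (alt p)) (by linarith)
  refine ⟨ninf S (alt p), W, hA, hW, ?_, ?_⟩
  · intro q ι hq hι
    have h1 : S.n (dil W ((alt q).mapDomain ι)) = S.n (dil W (alt q)) :=
      (dilN S W hW).spread ι hι (alt q)
    have h2 : S.n (dil W (alt q)) ≤ S.n (dil W (alt p)) := alt_mono (dilN S W hW) hq
    linarith
  · intro u N Q y hN hpQ hosc
    obtain ⟨π, π', m, m', -, -, e⟩ := osc u N hosc
    have h1 : ninf S (N • md pos3 (alt Q)) = N * ninf S (alt Q) := by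
      rw [ninf_smul, abs_of_nonneg hN]
      congr 1
      exact ninf_spread S pos3 pos3_mono (alt Q)
    have h2 := ninf_sub S (md π u) (md π' u)
    rw [e, h1] at h2
    have h3 : ninf S (md π u) ≤ S.n (dil W u) := key_dil S π m W hW u
    have h4 : ninf S (md π' u) ≤ S.n (dil W u) := key_dil S π' m' W hW u
    have h5 := ninf_alt_mono S hpQ
    have h6 := ninf_alt_two S Q
    have h7 : N * ninf S (alt p) ≤ N * (2 * ninf S (alt Q)) :=
      mul_le_mul_of_nonneg_left (h5.trans h6) hN
    linarith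

end Pool.Agent.H3MT.Engine
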