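import Pool.Agent.H3MT.Defs

/-! # H3MT/JSeq: James sequences in nonreflexive Banach spaces -/

open Filter Topology

namespace Pool.Agent.H3MT.JSeq

/-- Helly's lemma. -/
theorem helly {V : Type*} [NormedAddCommGroup V] [NormedSpace ℝ V]
    (T : Finset (StrongDual ℝ V)) (F : StrongDual ℝ (StrongDual ℝ V)) {η : ℝ} (hη : 0 < η) :
    ∃ x : V, (∀ ψ ∈ T, ψ x = F ψ) ∧ ‖x‖ ≤ ‖F‖ + η := by
  classical
  -- the algebraic part
  let Ψ : V →ₗ[ℝ] (T → ℝ) := LinearMap.pi fun l : T => ((l : StrongDual ℝ V) : V →ₗ[ℝ] ℝ)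
  have h0 : (fun l : T => F l) ∈ LinearMap.range Ψ := by
    by_contra hne
    obtain ⟨f, hf1, hf2⟩ := Submodule.exists_le_ker_of_notMem hne
    have hsum : ∀ w : T → ℝ, f w = ∑ l, w l * f (Pi.single l 1) := by
      intro w
      conv_lhs => rw [← Finset.univ_sum_single w]
      rw [map_sum]
      refine Finset.sum_congr rfl fun l _ => ?_
      have : Pi.single l (w l) = w l • (Pi.single l (1 : ℝ) : T → ℝ) := by
        rw [← Pi.single_smul, smul_eq_mul, mul_one]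
      rw [this, map_smul, smul_eq_mul]
    have hz : ∑ l : T, f (Pi.single l 1) • (l : StrongDual ℝ V) = 0 := by
      ext x
      have h1 : f (Ψ x) = 0 := hf2 ⟨x, rfl⟩
      rw [hsum] at h1
      rw [sum_apply, zero_apply, ← h1]
      refine Finset.sum_congr rfl fun l _ => ?_
      rw [smul_apply, smul_eq_mul, mul_comm]
      rfl
    apply hf1
    rw [hsum]
    have h2 : F (∑ l : T, f (Pi.single l 1) • (l : StrongDual ℝ V)) = 0 := by rw [hz, map_zero]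
    rw [map_sum] at h2
    rw [← h2]
    refine Finset.sum_congr rfl fun l _ => ?_
    rw [map_smul, smul_eq_mul, mul_comm]
  obtain ⟨x₀, hx₀⟩ := h0
  have hx₀' : ∀ ψ ∈ T, ψ x₀ = F ψ := fun ψ hψ => congrFun hx₀ ⟨ψ, hψ⟩
  -- the norm in the quotient
  let K : Submodule ℝ V := ⨅ l : T, LinearMap.ker ((l : StrongDual ℝ V) : V →ₗ[ℝ] ℝ)
  obtain ⟨g, hg1, hg2⟩ := exists_dual_vector'' ℝ (K.mkQL x₀)
  have hgn : ‖g.comp K.mkQL‖ ≤ 1 := by
    refine ContinuousLinearMap.opNorm_le_bound _ zero_le_one fun x => ?_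
    calc ‖g (K.mkQL x)‖ ≤ ‖g‖ * ‖K.mkQL x‖ := g.le_opNorm _
      _ ≤ 1 * ‖x‖ := mul_le_mul hg1 (Submodule.Quotient.norm_mk_le K x) (norm_nonneg _) zero_le_one
  have hspan : ((g.comp K.mkQL : StrongDual ℝ V) : V →ₗ[ℝ] ℝ) ∈
      Submodule.span ℝ (Set.range fun l : T => ((l : StrongDual ℝ V) : V →ₗ[ℝ] ℝ)) := by
    apply mem_span_of_iInf_ker_le_ker
    intro x hx
    have : K.mkQL x = 0 := by
      rw [Submodule.mkQL_apply, Submodule.mkQ_apply, Submodule.Quotient.mk_eq_zero]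
      exact hx
    rw [LinearMap.mem_ker]
    show g (K.mkQL x) = 0
    rw [this, map_zero]
  rw [Submodule.mem_span_range_iff_exists_fun] at hspan
  obtain ⟨c, hc⟩ := hspan
  have hcg : g.comp K.mkQL = ∑ l : T, c l • (l : StrongDual ℝ V) := by
    ext x
    have := LinearMap.congr_fun hc x
    rw [LinearMap.sum_apply] at this
    rw [sum_apply]
    exact this.symm
  have hnorm : ‖K.mkQL x₀‖ ≤ ‖F‖ := by
    have h1 : ‖K.mkQL x₀‖ = F (g.comp K.mkQL) := by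
      have h2 : (g.comp K.mkQL) x₀ = ‖K.mkQL x₀‖ := hg2
      rw [← h2, hcg, sum_apply, map_sum]
      refine Finset.sum_congr rfl fun l _ => ?_
      rw [smul_apply, map_smul, hx₀' l l.2]
    rw [h1]
    calc F (g.comp K.mkQL) ≤ ‖F (g.comp K.mkQL)‖ := le_abs_self _
      _ ≤ ‖F‖ * ‖g.comp K.mkQL‖ := F.le_opNorm _
      _ ≤ ‖F‖ * 1 := mul_le_mul_of_nonneg_left hgn F.opNorm_nonneg
      _ = ‖F‖ := mul_one _
  obtain ⟨x, hx1, hx2⟩ := Submodule.Quotient.norm_mk_lt (S := K) (K.mkQL x₀) hη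
  refine ⟨x, fun ψ hψ => ?_, hx2.le.trans (by linarith)⟩
  rw [← hx₀' ψ hψ]
  have hmem : x - x₀ ∈ K := by
    rw [Submodule.mkQL_apply, Submodule.mkQ_apply, Submodule.Quotient.eq] at hx1
    exact hx1
  have h3 := (Submodule.mem_iInf _).1 hmem ⟨ψ, hψ⟩
  rw [LinearMap.mem_ker] at h3
  have h4 : ψ (x - x₀) = 0 := h3
  rw [map_sub, sub_eq_zero] at h4
  exact h4

/-- a functional vanishing on a closed subspace -/
theorem exists_func {W : Type*} [NormedAddCommGroup W] [NormedSpace ℝ W] (R : Submodule ℝ W)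
    (hR : IsClosed (R : Set W)) (F : W) (hF : F ∉ R) :
    ∃ (G : StrongDual ℝ W) (θ : ℝ), 0 < θ ∧ G F = θ ∧ (∀ r ∈ R, G r = 0) ∧ ‖G‖ ≤ 1 / 2 := by
  have : IsClosed (R : Set W) := hR
  have hD : 0 < ‖R.mkQL F‖ := by
    rw [norm_pos_iff, Submodule.mkQL_apply, Submodule.mkQ_apply, Ne,
      Submodule.Quotient.mk_eq_zero]
    exact hF
  obtain ⟨g, hg1, hg2⟩ := exists_dual_vector'' ℝ (R.mkQL F)
  refine ⟨(1 / 2 : ℝ) • g.comp R.mkQL, ‖R.mkQL F‖ / 2, by positivity, ?_, ?_, ?_⟩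
  · show (1 / 2 : ℝ) • g (R.mkQL F) = ‖R.mkQL F‖ / 2
    rw [hg2, smul_eq_mul]
    show 1 / 2 * ‖R.mkQL F‖ = ‖R.mkQL F‖ / 2
    ring
  · intro r hr
    show (1 / 2 : ℝ) • g (R.mkQL r) = 0
    have : R.mkQL r = 0 := by
      rw [Submodule.mkQL_apply, Submodule.mkQ_apply, Submodule.Quotient.mk_eq_zero]
      exact hr
    rw [this, map_zero, smul_zero]
  · refine ContinuousLinearMap.opNorm_le_bound _ (by norm_num) fun x => ?_
    show ‖(1 / 2 : ℝ) • g (R.mkQL x)‖ ≤ 1 / 2 * ‖x‖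
    rw [norm_smul, Real.norm_of_nonneg (by norm_num)]
    have h1 : ‖g (R.mkQL x)‖ ≤ ‖x‖ := by
      calc ‖g (R.mkQL x)‖ ≤ ‖g‖ * ‖R.mkQL x‖ := g.le_opNorm _
        _ ≤ 1 * ‖x‖ := mul_le_mul hg1 (Submodule.Quotient.norm_mk_le R x) (norm_nonneg _) zero_le_one
        _ = ‖x‖ := one_mul _
    linarith

/-- scaling -/
theorem exists_scale {W : Type*} [NormedAddCommGroup W] [NormedSpace ℝ W] (R : Submodule ℝ W)
    (F₀ : W) (hF₀ : F₀ ∉ R) : ∃ F : W, F ∉ R ∧ ‖F‖ < 1 := by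
  have hpos : 0 < ‖F₀‖ + 1 := by positivity
  refine ⟨(1 / (‖F₀‖ + 1)) • F₀, fun h => hF₀ ?_, ?_⟩
  · have := R.smul_mem (‖F₀‖ + 1) h
    rwa [smul_smul, mul_one_div_cancel hpos.ne', one_smul] at this
  · rw [norm_smul, Real.norm_of_nonneg (by positivity), div_mul_eq_mul_div, one_mul,
      div_lt_one hpos]
    linarith

theorem isClosed_range_isometry {V W : Type*} [NormedAddCommGroup V] [NormedSpace ℝ V]
    [CompleteSpace V] [NormedAddCommGroup W] [NormedSpace ℝ W] (f : V →ₗ[ℝ] W)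
    (hf : ∀ x, ‖f x‖ = ‖x‖) :
    IsClosed (LinearMap.range f : Set W) := by
  have hi : Isometry f := AddMonoidHomClass.isometry_of_norm f hf
  have h1 : IsClosed (Set.range f) := hi.isClosedEmbedding.isClosed_range
  exact h1

theorem exists_jseq (Y : Type*) [NormedAddCommGroup Y] [NormedSpace ℝ Y] [CompleteSpace Y]
    (hY : ¬ IsReflexive Y) :
    ∃ (θ : ℝ) (y : ℕ → Y) (φ : ℕ → (Y →L[ℝ] ℝ)), 0 < θ ∧ (∀ i, ‖y i‖ ≤ 1) ∧ (∀ i, ‖φ i‖ ≤ 1) ∧
      (∀ i j, i ≤ j → φ i (y j) = θ) ∧ (∀ i j, j < i → φ i (y j) = 0) := by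
  classical
  unfold IsReflexive at hY
  -- the closed proper range
  let J : Y →L[ℝ] StrongDual ℝ (StrongDual ℝ Y) := NormedSpace.inclusionInDoubleDual ℝ Y
  let J' : Y →ₗ[ℝ] StrongDual ℝ (StrongDual ℝ Y) := J.toLinearMap
  have hRc : IsClosed (LinearMap.range J' : Set (StrongDual ℝ (StrongDual ℝ Y))) := by
    refine isClosed_range_isometry (W := StrongDual ℝ (StrongDual ℝ Y)) J' ?_
    intro y
    have hJn : ‖J y‖ = ‖y‖ := (NormedSpace.inclusionInDoubleDualLi (E := Y) ℝ).norm_map y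
    have e : J' y = J y := rfl
    rw [e]
    convert hJn
  set R : Submodule ℝ (StrongDual ℝ (StrongDual ℝ Y)) := LinearMap.range J' with hRdef
  have hJR : ∀ y, J y ∈ R := fun y => ⟨y, rfl⟩
  obtain ⟨F₀, hF₀⟩ : ∃ F₀, F₀ ∉ R := by
    by_contra hcon
    push Not at hcon
    exact hY fun z => by
      obtain ⟨y, hy⟩ := hcon z
      exact ⟨y, hy⟩
  obtain ⟨F, hFR, hFn⟩ := exists_scale R F₀ hF₀
  obtain ⟨G, θ, hθ, hGF, hGR, hGn⟩ := exists_func R hRc F hFR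
  have hGJ : ∀ y, G (J y) = 0 := fun y => hGR _ (hJR y)
  -- the sequence
  obtain ⟨f, hf1, hf2⟩ := exists_seq_of_forall_finset_exists
    (P := fun p : Y × StrongDual ℝ Y => ‖p.1‖ ≤ 1 ∧ ‖p.2‖ ≤ 1 ∧ F p.2 = θ ∧ p.2 p.1 = θ)
    (r := fun p q : Y × StrongDual ℝ Y => q.2 p.1 = 0 ∧ p.2 q.1 = θ) (by
      intro s hs
      -- the functional
      obtain ⟨φ, hφ1, hφ2⟩ := helly (V := StrongDual ℝ Y)
        (insert F (s.image fun p => J p.1)) G (η := 1 / 2) (by norm_num)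
      have hφF : F φ = θ := by rw [hφ1 F (Finset.mem_insert_self _ _), hGF]
      have hφy : ∀ p ∈ s, φ p.1 = 0 := by
        intro p hp
        have h1 := hφ1 (J p.1) (Finset.mem_insert_of_mem (Finset.mem_image_of_mem _ hp))
        rw [hGJ] at h1
        exact h1
      have hφn : ‖φ‖ ≤ 1 := by linarith
      -- the vector
      obtain ⟨y, hy1, hy2⟩ := helly (V := Y) (insert φ (s.image fun p => p.2)) F
        (η := 1 - ‖F‖) (by linarith)
      refine ⟨(y, φ), ⟨by linarith, hφn, hφF, ?_⟩, fun p hp => ⟨hφy p hp, ?_⟩⟩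
      · show φ y = θ
        rw [hy1 φ (Finset.mem_insert_self _ _), hφF]
      · show p.2 y = θ
        rw [hy1 p.2 (Finset.mem_insert_of_mem (Finset.mem_image_of_mem _ hp)), (hs p hp).2.2.1])
  refine ⟨θ, fun i => (f i).1, fun i => (f i).2, hθ, fun i => (hf1 i).1, fun i => (hf1 i).2.1,
    fun i j hij => ?_, fun i j hij => (hf2 j i hij).1⟩
  rcases hij.lt_or_eq with h | h
  · exact (hf2 i j h).2
  · subst h
    exact (hf1 i).2.2.2

end Pool.Agent.H3MT.JSeq
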