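import Pool.Agent.H3MT.SNormCore
import Pool.Agent.H3MT.JSeq

/-!
# MODULE SNorm: nonreflexive spaces have spreading seminorms
-/

open Filter Topology

namespace Pool.Agent.H3MT.SNorm

open Pool.Agent.H3MT

theorem exists_spreadNorm (Y : Type*) [NormedAddCommGroup Y] [NormedSpace ℝ Y] [CompleteSpace Y]
    (hY : ¬ IsReflexive Y) :
    ∃ S : SpreadNorm, ∀ (κ : Type) [Finite κ] (u : κ → (ℕ →₀ ℝ)) (ε : ℝ), 0 < ε →
      ∃ z : ℕ → Y, ∀ k, |‖(u k).sum (fun t c => c • z t)‖ - S.n (u k)| < ε := by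
  obtain ⟨θ, y, φ, hθ, hy, hφ, h1, h2⟩ := JSeq.exists_jseq Y hY
  exact exists_spreadNorm_of_jseq θ hθ y φ hy hφ h1 h2

end Pool.Agent.H3MT.SNorm
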