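import Pool.Agent.H3MT.Defs
import Pool.Agent.H3MT.SNorm
import Pool.Agent.H3MT.Engine
import Pool.Agent.H3MT.Double

open Finset

namespace Pool.Agent.H3MT.Assemble

/-! ### Lemmas on `OscOn` -/

theorem osc_le {u : ℕ → ℝ} {N : ℝ} {x Q y : ℕ} (h : OscOn u N x Q y) : x ≤ y := by
  induction h with
  | nil h => exact h
  | cons h1 h2 h3 _ _ _ ih => omega

theorem osc_left {u : ℕ → ℝ} {N : ℝ} {x Q y x' : ℕ} (h : OscOn u N x Q y) (hx : x' ≤ x) :
    OscOn u N x' Q y := by
  cases h with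
  | nil h => exact OscOn.nil (hx.trans h)
  | cons h1 h2 h3 h4 h5 h6 => exact OscOn.cons (hx.trans h1) h2 h3 h4 h5 h6

theorem osc_append {u : ℕ → ℝ} {N : ℝ} {x Q y Q' z : ℕ} (h : OscOn u N x Q y)
    (h' : OscOn u N y Q' z) : OscOn u N x (Q + Q') z := by
  induction h with
  | nil h => rw [zero_add]; exact osc_left h' h
  | cons h1 h2 h3 h4 h5 _ ih =>
    rw [Nat.add_right_comm]
    exact OscOn.cons h1 h2 h3 h4 h5 (ih h')

theorem osc_shift {u w : ℕ → ℝ} {N : ℝ} {x Q y : ℕ} (K n : ℕ) (hw : ∀ t, t < n → u (K + t) = w t)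
    (h : OscOn w N x Q y) (hy : y ≤ n) : OscOn u N (K + x) Q (K + y) := by
  have key : ∀ a b, b ≤ n → ∑ t ∈ Ico (K + a) (K + b), u t = ∑ t ∈ Ico a b, w t := by
    intro a b hb
    rw [add_comm K a, add_comm K b, ← Finset.sum_Ico_add']
    refine Finset.sum_congr rfl fun t ht => ?_
    rw [Finset.mem_Ico] at ht
    rw [add_comm t K]
    exact hw t (by omega)
  induction h with
  | nil h => exact OscOn.nil (by omega)
  | @cons x a b c Q y h1 h2 h3 h4 h5 h6 ih =>
    have := osc_le h6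
    exact OscOn.cons (a := K + a) (b := K + b) (c := K + c) (by omega) (by omega) (by omega)
      (by rw [key _ _ (by omega), h4]) (by rw [key _ _ (by omega), h5]) (ih hy)

theorem osc_nil_right {u : ℕ → ℝ} {N : ℝ} {x Q y z : ℕ} (h : OscOn u N x Q y)
    (hz : y ≤ z) : OscOn u N x Q z := by
  have := osc_append h (OscOn.nil (u := u) (N := N) hz)
  simpa using this

/-! ### alternating vectors -/

theorem mapDomain_alt (ι : ℕ → ℕ) (q : ℕ) : (alt q).mapDomain ι =
    ∑ l ∈ range q, (Finsupp.single (ι (2 * l)) (1 : ℝ) - Finsupp.single (ι (2 * l + 1)) (1 : ℝ)) := by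
  have h : (Finsupp.lmapDomain ℝ ℝ ι) (alt q) = (alt q).mapDomain ι := rfl
  rw [← h, alt, map_sum]
  refine Finset.sum_congr rfl fun l _ => ?_
  rw [map_sub, Finsupp.lmapDomain_apply, Finsupp.lmapDomain_apply, Finsupp.mapDomain_single,
    Finsupp.mapDomain_single]

/-- concatenation of two strictly increasing maps -/
theorem cat (ι ι' : ℕ → ℕ) (hι : StrictMono ι) (hι' : StrictMono ι') (k P B n : ℕ)
    (h1 : ι (2 * k) ≤ B) (h2 : ι' (2 * P) ≤ n) :
    ∃ κ : ℕ → ℕ, StrictMono κ ∧ κ (2 * (k + P)) ≤ B + n ∧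
      (alt (k + P)).mapDomain κ = (alt k).mapDomain ι +
        ∑ l ∈ range P, (Finsupp.single (B + ι' (2 * l)) (1 : ℝ) -
          Finsupp.single (B + ι' (2 * l + 1)) (1 : ℝ)) := by
  refine ⟨fun s => if s < 2 * k then ι s else B + ι' (s - 2 * k), ?_, ?_, ?_⟩
  · intro s s' hs
    dsimp only
    split_ifs with c1 c2 c2
    · exact hι hs
    · have := hι c1
      omega
    · omega
    · have := hι' (show s - 2 * k < s' - 2 * k by omega)
      omega
  · dsimp only
    rw [if_neg (by omega), show 2 * (k + P) - 2 * k = 2 * P by omega]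
    omega
  · rw [mapDomain_alt, mapDomain_alt, Finset.sum_range_add]
    congr 1
    · refine Finset.sum_congr rfl fun l hl => ?_
      rw [Finset.mem_range] at hl
      rw [if_pos (by omega), if_pos (by omega)]
    · refine Finset.sum_congr rfl fun l _ => ?_
      rw [if_neg (by omega), if_neg (by omega), show 2 * (k + l) - 2 * k = 2 * l by omega,
        show 2 * (k + l) + 1 - 2 * k = 2 * l + 1 by omega]

/-! ### windows -/

/-- windows `w 0, w 1, ..., w (J-1)` of length `n` written one after the other -/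
noncomputable def win (n J : ℕ) (w : ℕ → ℕ → ℝ) : ℕ →₀ ℝ :=
  ∑ j ∈ range J, ∑ t ∈ range n, Finsupp.single (j * n + t) (w j t)

theorem win_sub (n J : ℕ) (w w' : ℕ → ℕ → ℝ) :
    win n J w - win n J w' = win n J (fun j t => w j t - w' j t) := by
  simp only [win, Finsupp.single_sub, Finset.sum_sub_distrib]

theorem win_apply (n J : ℕ) (w : ℕ → ℕ → ℝ) (K t : ℕ) (hK : K < J) (ht : t < n) :
    win n J w (K * n + t) = w K t := by
  have hinj : ∀ j s, s < n → j * n + s = K * n + t → j = K ∧ s = t := by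
    intro j s hs h
    have h1 : (j * n + s) / n = j := by
      rw [mul_comm, Nat.mul_add_div (by omega), Nat.div_eq_of_lt hs, add_zero]
    have h2 : (K * n + t) / n = K := by
      rw [mul_comm, Nat.mul_add_div (by omega), Nat.div_eq_of_lt ht, add_zero]
    have h3 : j = K := by rw [← h1, h, h2]
    subst h3
    exact ⟨rfl, by omega⟩
  rw [win, Finsupp.finsetSum_apply]
  rw [Finset.sum_eq_single K]
  · rw [Finsupp.finsetSum_apply, Finset.sum_eq_single t]
    · simp
    · intro s hs hne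
      rw [Finset.mem_range] at hs
      rw [Finsupp.single_apply, if_neg]
      intro h
      exact hne (hinj K s hs h).2
    · intro h
      exact absurd (Finset.mem_range.2 ht) h
  · intro j _ hne
    rw [Finsupp.finsetSum_apply]
    refine Finset.sum_eq_zero fun s hs => ?_
    rw [Finset.mem_range] at hs
    rw [Finsupp.single_apply, if_neg]
    intro h
    exact hne (hinj j s hs h).1
  · intro h
    exact absurd (Finset.mem_range.2 hK) h

theorem window_alt (n B P : ℕ) (ι : ℕ → ℕ) (hι : StrictMono ι) (hn : ι (2 * P) ≤ n) (v : ℕ → ℝ)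
    (hv : ∀ t, v t = ∑ l ∈ range P,
      ((if t = ι (2 * l) then 1 else 0) - (if t = ι (2 * l + 1) then 1 else 0))) :
    ∑ t ∈ range n, Finsupp.single (B + t) (v t) =
      ∑ l ∈ range P, (Finsupp.single (B + ι (2 * l)) (1 : ℝ) -
          Finsupp.single (B + ι (2 * l + 1)) (1 : ℝ)) := by
  have h1 : ∀ a, a < n → ∑ t ∈ range n, Finsupp.single (B + t) (if t = a then (1 : ℝ) else 0) =
      Finsupp.single (B + a) (1 : ℝ) := by
    intro a ha
    rw [Finset.sum_eq_single a]
    · simp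
    · intro t _ hne
      rw [if_neg hne, Finsupp.single_zero]
    · intro h
      exact absurd (Finset.mem_range.2 ha) h
  have h2 : ∀ s, s < 2 * P → ι s < n := fun s hs => lt_of_lt_of_le (hι hs) hn
  simp_rw [hv]
  calc ∑ t ∈ range n, Finsupp.single (B + t) (∑ l ∈ range P,
      (((if t = ι (2 * l) then 1 else 0) - (if t = ι (2 * l + 1) then 1 else 0) : ℝ)))
      = ∑ t ∈ range n, ∑ l ∈ range P, (Finsupp.single (B + t) (if t = ι (2 * l) then (1 : ℝ) else 0) -
          Finsupp.single (B + t) (if t = ι (2 * l + 1) then (1 : ℝ) else 0)) := by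
        refine Finset.sum_congr rfl fun t _ => ?_
        rw [Finsupp.single_finsetSum]
        refine Finset.sum_congr rfl fun l _ => ?_
        rw [Finsupp.single_sub]
    _ = _ := by
        rw [Finset.sum_comm]
        refine Finset.sum_congr rfl fun l hl => ?_
        rw [Finset.mem_range] at hl
        rw [Finset.sum_sub_distrib, h1 _ (h2 _ (by omega)), h1 _ (h2 _ (by omega))]

theorem win_alt (n P : ℕ) (w : ℕ → ℕ → ℝ) : ∀ J : ℕ,
    (∀ j, j < J → (∀ t, w j t = 0) ∨
        ∃ ι : ℕ → ℕ, StrictMono ι ∧ ι (2 * P) ≤ n ∧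
          ((∀ t, w j t = ∑ l ∈ range P,
              ((if t = ι (2 * l) then 1 else 0) - (if t = ι (2 * l + 1) then 1 else 0))) ∨
           (∀ t, - w j t = ∑ l ∈ range P,
              ((if t = ι (2 * l) then 1 else 0) - (if t = ι (2 * l + 1) then 1 else 0))))) →
    ∃ (k k' : ℕ) (ι ι' : ℕ → ℕ), StrictMono ι ∧ StrictMono ι' ∧ k ≤ J * P ∧ k' ≤ J * P ∧
      ι (2 * k) ≤ J * n ∧ ι' (2 * k') ≤ J * n ∧
      win n J w = (alt k).mapDomain ι - (alt k').mapDomain ι' := by
  intro J
  induction J with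
  | zero =>
    intro _
    refine ⟨0, 0, id, id, strictMono_id, strictMono_id, by simp, by simp, by simp, by simp, ?_⟩
    simp [win]
  | succ J ih =>
    intro h
    obtain ⟨k, k', ι, ι', h1, h2, h3, h4, h5, h6, h7⟩ := ih (fun j hj => h j (by omega))
    have hwin : win n (J + 1) w = win n J w + ∑ t ∈ range n, Finsupp.single (J * n + t) (w J t) := by
      rw [win, Finset.sum_range_succ]; rfl
    have e1 : (J + 1) * P = J * P + P := by ring
    have e2 : (J + 1) * n = J * n + n := by ring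
    rcases h J (by omega) with h0 | ⟨κ, hκ, hκn, hp | hm⟩
    · refine ⟨k, k', ι, ι', h1, h2, by omega, by omega, by omega, by omega, ?_⟩
      rw [hwin, h7]
      simp [h0]
    · obtain ⟨ρ, hρ, hρn, hρe⟩ := cat ι κ h1 hκ k P (J * n) n h5 hκn
      refine ⟨k + P, k', ρ, ι', hρ, h2, by omega, by omega, by omega, by omega, ?_⟩
      rw [hwin, h7, hρe, window_alt n (J * n) P κ hκ hκn (w J) hp]
      abel
    · obtain ⟨ρ, hρ, hρn, hρe⟩ := cat ι' κ h2 hκ k' P (J * n) n h6 hκn
      refine ⟨k, k' + P, ι, ρ, h1, hρ, by omega, by omega, by omega, by omega, ?_⟩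
      have hneg : ∑ t ∈ range n, Finsupp.single (J * n + t) (w J t) =
          - ∑ t ∈ range n, Finsupp.single (J * n + t) (- w J t) := by
        rw [← Finset.sum_neg_distrib]
        refine Finset.sum_congr rfl fun t _ => ?_
        rw [Finsupp.single_neg, neg_neg]
      rw [hwin, h7, hρe, hneg, window_alt n (J * n) P κ hκ hκn (fun t => - w J t) hm]
      abel

theorem win_osc (n q : ℕ) (w : ℕ → ℕ → ℝ) (N : ℝ) (Q : ℕ) (G : ℕ → Prop) [DecidablePred G]
    (hG : ∀ j, j < q → G j → OscOn (w j) N 0 Q n) : ∀ J, J ≤ q →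
    OscOn (win n q w) N 0 (((range J).filter G).card * Q) (J * n) := by
  intro J
  induction J with
  | zero => intro _; simpa using OscOn.nil (u := win n q w) (N := N) (le_refl 0)
  | succ J ih =>
    intro hJ
    have h0 := ih (by omega)
    have e2 : (J + 1) * n = J * n + n := by ring
    rw [Finset.range_add_one, Finset.filter_insert]
    by_cases hg : G J
    · rw [if_pos hg, Finset.card_insert_of_notMem (by simp), add_mul, one_mul, e2]
      refine osc_append h0 ?_
      have := osc_shift (u := win n q w) (J * n) n (fun t ht => win_apply n q w J t (by omega) ht)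
        (hG J (by omega) hg) le_rfl
      simpa using this
    · rw [if_neg hg, e2]
      exact osc_nil_right h0 (by omega)

/-! ### the main theorem -/

theorem n_sub_le (S : SpreadNorm) (u v : ℕ →₀ ℝ) : S.n (u - v) ≤ S.n u + S.n v := by
  have h1 := S.add u ((-1 : ℝ) • v)
  have h2 := S.smul (-1) v
  rw [abs_neg, abs_one, one_mul] at h2
  rw [h2] at h1
  have h3 : u - v = u + (-1 : ℝ) • v := by rw [neg_one_smul, sub_eq_add_neg]
  rw [h3]
  exact h1

theorem assemble (N : ℕ) (hN : 1 ≤ N) :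
    ∃ (q : ℕ) (σ : Fin 2 → Equiv.Perm (Fin q)), 0 < q ∧
      (∀ g : FreeGroup (Fin 2), g.norm ≤ N → FreeGroup.lift σ g = 1 → g = 1) ∧
      ∀ (X : Type) [NormedAddCommGroup X] [NormedSpace ℝ X], ¬ Superreflexive X →
        ∃ F : Equiv.Perm (Fin q) → X,
          (∀ i h, ‖F (σ i * h) - F h‖ ≤ 17) ∧
          ∀ (g : FreeGroup (Fin 2)) h, g.norm ≤ N →
            (g.norm : ℝ) ≤ ‖F (FreeGroup.lift σ g * h) - F h‖ := by
  classical
  obtain ⟨q, n, P, Q, σ, f, hq, hP, hPQ, hf0, hedge, hword⟩ := Double.comb N hN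
  refine ⟨q, σ, hq, ?_, ?_⟩
  · intro g hgN hg1
    by_contra hg
    have h1 := hword g hg hgN
    have h2 : 0 < (Finset.univ.filter fun x : Fin q =>
          OscOn (fun t => ((f (FreeGroup.lift σ g x) t - f x t : ℤ) : ℝ)) g.norm 0 Q n).card := by
      omega
    obtain ⟨x, hx⟩ := Finset.card_pos.1 h2
    have h3 := (Finset.mem_filter.1 hx).2
    rw [hg1] at h3
    have h4 : g.norm ≠ 0 := by
      rw [Ne, FreeGroup.norm_eq_zero]
      exact hg
    have h5 : Q ≠ 0 := by omega
    cases h3 with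
    | nil _ => exact h5 rfl
    | cons _ _ _ h6 _ _ =>
      simp only [Equiv.Perm.one_apply, sub_self, Int.cast_zero, Finset.sum_const_zero] at h6
      exact h4 (by exact_mod_cast h6.symm)
  intro X _ _ hX
  unfold Superreflexive at hX
  push Not at hX
  obtain ⟨Y, iN, iS, iC, hfr, hnr⟩ := hX
  obtain ⟨S, hS⟩ := SNorm.exists_spreadNorm Y hnr
  obtain ⟨A, W, hA, hW, hup, hlow⟩ := Engine.engine S (q * P) (Nat.mul_pos hq hP)
  -- the vectors
  obtain ⟨ww, hww⟩ : ∃ ww : Equiv.Perm (Fin q) → ℕ → ℕ → ℝ, ∀ h j t (hj : j < q),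
      ww h j t = (f (h ⟨j, hj⟩) t : ℝ) :=
    ⟨fun h j t => if hj : j < q then (f (h ⟨j, hj⟩) t : ℝ) else 0, fun h j t hj => dif_pos hj⟩
  obtain ⟨U, hU⟩ : ∃ U : Equiv.Perm (Fin q) → (ℕ →₀ ℝ), ∀ h, U h = win n q (ww h) :=
    ⟨_, fun _ => rfl⟩
  obtain ⟨z, hz⟩ := hS (Equiv.Perm (Fin q) × Equiv.Perm (Fin q))
    (fun ab => dil W (U ab.1 - U ab.2)) (A / 1000) (by positivity)
  obtain ⟨F0, hF0⟩ : ∃ F0 : Equiv.Perm (Fin q) → Y, ∀ h,
      F0 h = Finsupp.linearCombination ℝ z (dil W (U h)) := ⟨_, fun _ => rfl⟩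
  have hD : ∀ a b, |‖F0 a - F0 b‖ - S.n (dil W (U a - U b))| < A / 1000 := by
    intro a b
    have h1 := hz (a, b)
    dsimp only at h1
    rw [← Finsupp.linearCombination_apply] at h1
    have h2 : Finsupp.linearCombination ℝ z (dil W (U a - U b)) = F0 a - F0 b := by
      rw [map_sub, map_sub, hF0, hF0]
    rw [h2] at h1
    exact h1
  have hup' : ∀ i h, S.n (dil W (U (σ i * h) - U h)) ≤ 4 * A := by
    intro i h
    have hcond : ∀ j, j < q → (∀ t, ww (σ i * h) j t - ww h j t = 0) ∨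
        ∃ ι : ℕ → ℕ, StrictMono ι ∧ ι (2 * P) ≤ n ∧
          ((∀ t, ww (σ i * h) j t - ww h j t = ∑ l ∈ range P,
              ((if t = ι (2 * l) then 1 else 0) - (if t = ι (2 * l + 1) then 1 else 0))) ∨
           (∀ t, - (ww (σ i * h) j t - ww h j t) = ∑ l ∈ range P,
              ((if t = ι (2 * l) then 1 else 0) - (if t = ι (2 * l + 1) then 1 else 0)))) := by
      intro j hj
      have e1 : ∀ t, ww (σ i * h) j t - ww h j t =
          ((f (σ i (h ⟨j, hj⟩)) t - f (h ⟨j, hj⟩) t : ℤ) : ℝ) := by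
        intro t
        rw [hww _ _ _ hj, hww _ _ _ hj, Equiv.Perm.mul_apply, Int.cast_sub]
      rcases hedge i (h ⟨j, hj⟩) with h0 | ⟨ι, hι, hιn, hp | hm⟩
      · left
        intro t
        rw [e1, h0 t]
        simp
      · right
        refine ⟨ι, hι, hιn, Or.inl fun t => ?_⟩
        rw [e1, hp t]
        push_cast
        rfl
      · right
        refine ⟨ι, hι, hιn, Or.inr fun t => ?_⟩
        rw [e1, ← Int.cast_neg, neg_sub, hm t]
        push_cast
        rfl
    obtain ⟨k, k', ι, ι', h1, h2, h3, h4, h5, h6, h7⟩ := win_alt n P _ q hcond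
    rw [hU, hU, win_sub, h7, map_sub]
    have := n_sub_le S (dil W ((alt k).mapDomain ι)) (dil W ((alt k').mapDomain ι'))
    have h8 := hup k ι h3 h1
    have h9 := hup k' ι' h4 h2
    linarith
  have hlow' : ∀ (g : FreeGroup (Fin 2)) h, g ≠ 1 → g.norm ≤ N →
      (g.norm : ℝ) * A / 4 ≤ S.n (dil W (U (FreeGroup.lift σ g * h) - U h)) := by
    intro g h hg hgN
    have hcard := hword g hg hgN
    obtain ⟨Good, hGood⟩ : ∃ Good : Fin q → Prop, ∀ x, Good x ↔
        OscOn (fun t => ((f (FreeGroup.lift σ g x) t - f x t : ℤ) : ℝ)) g.norm 0 Q n :=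
      ⟨_, fun _ => Iff.rfl⟩
    have hosc := win_osc n q (fun j t => ww (FreeGroup.lift σ g * h) j t - ww h j t) g.norm Q
      (fun j => ∃ hj : j < q, Good (h ⟨j, hj⟩)) (by
        rintro j hj ⟨_, hg⟩
        rw [hGood] at hg
        have : (fun t => ww (FreeGroup.lift σ g * h) j t - ww h j t) =
            (fun t => ((f (FreeGroup.lift σ g (h ⟨j, hj⟩)) t - f (h ⟨j, hj⟩) t : ℤ) : ℝ)) := by
          funext t
          rw [hww _ _ _ hj, hww _ _ _ hj, Equiv.Perm.mul_apply, Int.cast_sub]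
        rw [this]
        exact hg) q le_rfl
    have hle : (Finset.univ.filter fun x : Fin q =>
          OscOn (fun t => ((f (FreeGroup.lift σ g x) t - f x t : ℤ) : ℝ)) g.norm 0 Q n).card ≤
        ((range q).filter fun j => ∃ hj : j < q, Good (h ⟨j, hj⟩)).card := by
      refine Finset.card_le_card_of_injOn (fun x => ((h.symm x : Fin q) : ℕ)) ?_ ?_
      · intro x hx
        have hx' := (Finset.mem_filter.1 (Finset.mem_coe.1 hx)).2
        refine Finset.mem_coe.2 (Finset.mem_filter.2 ⟨Finset.mem_range.2 (h.symm x).2, (h.symm x).2, ?_⟩)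
        rw [hGood]
        simpa using hx'
      · intro x _ y _ hxy
        exact h.symm.injective (Fin.val_injective hxy)
    refine hlow _ g.norm _ (q * n) (by positivity) ?_ (by rw [hU, hU, win_sub]; exact hosc)
    have h3 : 3 * q ≤ 4 * ((range q).filter fun j => ∃ hj : j < q, Good (h ⟨j, hj⟩)).card :=
      hcard.trans (Nat.mul_le_mul_left 4 hle)
    generalize ((range q).filter fun j => ∃ hj : j < q, Good (h ⟨j, hj⟩)).card = c at h3
    have h4 : 4 * (q * P) ≤ 4 * (2 * (c * Q)) := by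
      calc 4 * (q * P) = 2 * q * (2 * P) := by ring
        _ ≤ 2 * q * (3 * Q) := Nat.mul_le_mul_left _ hPQ
        _ = 2 * Q * (3 * q) := by ring
        _ ≤ 2 * Q * (4 * c) := Nat.mul_le_mul_left _ h3
        _ = 4 * (2 * (c * Q)) := by ring
    omega
  -- transfer to `X`
  obtain ⟨T, hT⟩ := hfr (Submodule.span ℝ (Set.range F0))
    (FiniteDimensional.span_of_finite ℝ (Set.finite_range F0)) (1 / 1000) (by norm_num)
  have hmem : ∀ h, F0 h ∈ Submodule.span ℝ (Set.range F0) := fun h =>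
    Submodule.subset_span ⟨h, rfl⟩
  refine ⟨fun h => (4.1 / A) • T ⟨F0 h, hmem h⟩, ?_, ?_⟩
  · intro i h
    have h1 : (4.1 / A) • T ⟨F0 (σ i * h), hmem _⟩ - (4.1 / A) • T ⟨F0 h, hmem h⟩ =
        (4.1 / A) • T (⟨F0 (σ i * h), hmem _⟩ - ⟨F0 h, hmem h⟩) := by
      rw [map_sub, smul_sub]
    have h2 := (hT (⟨F0 (σ i * h), hmem _⟩ - ⟨F0 h, hmem h⟩)).2
    have h3 : ‖(⟨F0 (σ i * h), hmem _⟩ - ⟨F0 h, hmem h⟩ : Submodule.span ℝ (Set.range F0))‖ =
        ‖F0 (σ i * h) - F0 h‖ := rfl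
    rw [h3] at h2
    have h4 := hD (σ i * h) h
    have h5 := hup' i h
    rw [abs_lt] at h4
    dsimp only
    rw [h1, norm_smul, Real.norm_of_nonneg (by positivity)]
    have h6 : ‖T (⟨F0 (σ i * h), hmem _⟩ - ⟨F0 h, hmem h⟩)‖ ≤ (1 + 1 / 1000) * (4 * A + A / 1000) := by
      refine h2.trans (mul_le_mul_of_nonneg_left (by linarith) (by norm_num))
    calc 4.1 / A * ‖T (⟨F0 (σ i * h), hmem _⟩ - ⟨F0 h, hmem h⟩)‖
        ≤ 4.1 / A * ((1 + 1 / 1000) * (4 * A + A / 1000)) :=
          mul_le_mul_of_nonneg_left h6 (by positivity)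
      _ = 4.1 * ((1 + 1 / 1000) * (4 + 1 / 1000)) := by field_simp
      _ ≤ 17 := by norm_num
  · intro g h hgN
    by_cases hg : g = 1
    · subst hg
      simp
    have h1 : (4.1 / A) • T ⟨F0 (FreeGroup.lift σ g * h), hmem _⟩ - (4.1 / A) • T ⟨F0 h, hmem h⟩ =
        (4.1 / A) • T (⟨F0 (FreeGroup.lift σ g * h), hmem _⟩ - ⟨F0 h, hmem h⟩) := by
      rw [map_sub, smul_sub]
    have h2 := (hT (⟨F0 (FreeGroup.lift σ g * h), hmem _⟩ - ⟨F0 h, hmem h⟩)).1
    have h3 : ‖(⟨F0 (FreeGroup.lift σ g * h), hmem _⟩ - ⟨F0 h, hmem h⟩ :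
        Submodule.span ℝ (Set.range F0))‖ = ‖F0 (FreeGroup.lift σ g * h) - F0 h‖ := rfl
    rw [h3] at h2
    have h4 := hD (FreeGroup.lift σ g * h) h
    have h5 := hlow' g h hg hgN
    rw [abs_lt] at h4
    dsimp only
    rw [h1, norm_smul, Real.norm_of_nonneg (by positivity)]
    have hgn : (1 : ℝ) ≤ g.norm := by
      have : g.norm ≠ 0 := by
        rw [Ne, FreeGroup.norm_eq_zero]
        exact hg
      exact_mod_cast Nat.one_le_iff_ne_zero.2 this
    have h6 : (1 - 1 / 1000) * ((g.norm : ℝ) * A / 4 - (g.norm : ℝ) * A / 1000) ≤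
        ‖T (⟨F0 (FreeGroup.lift σ g * h), hmem _⟩ - ⟨F0 h, hmem h⟩)‖ := by
      refine le_trans (mul_le_mul_of_nonneg_left ?_ (by norm_num)) h2
      have : A / 1000 ≤ (g.norm : ℝ) * A / 1000 := by
        have := mul_le_mul_of_nonneg_right hgn hA.le
        linarith
      linarith
    calc (g.norm : ℝ) ≤ g.norm * (4.1 * ((1 - 1 / 1000) * (1 / 4 - 1 / 1000))) := by
          have : (1 : ℝ) ≤ 4.1 * ((1 - 1 / 1000) * (1 / 4 - 1 / 1000)) := by norm_num
          nlinarith
      _ = 4.1 / A * ((1 - 1 / 1000) * ((g.norm : ℝ) * A / 4 - (g.norm : ℝ) * A / 1000)) := by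
          field_simp
      _ ≤ _ := mul_le_mul_of_nonneg_left h6 (by positivity)

end Pool.Agent.H3MT.Assemble
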