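import Pool.Agent.H3MT.Defs

/-! # MODULE Cayley: Cayley graphs of 2-generated finite groups, as graphs on `Fin` -/

open Filter Topology

namespace Pool.Agent.H3MT.Cayley

variable {H : Type} [Group H] (s : Fin 2 → H)

/-- the value of a letter -/
def ev (a : Fin 2 × Bool) : H := FreeGroup.lift s (FreeGroup.mk [a])

/-- the inverse letter -/
def inv (a : Fin 2 × Bool) : Fin 2 × Bool := (a.1, !a.2)

theorem ev_eq (a : Fin 2 × Bool) : ev s a = cond a.2 (s a.1) (s a.1)⁻¹ := by
  simp [ev, FreeGroup.lift_mk]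

theorem ev_inv (a : Fin 2 × Bool) : ev s (inv a) = (ev s a)⁻¹ := by
  rcases a with ⟨i, b⟩
  cases b <;> simp [ev_eq, inv]

theorem lift_cons (a : Fin 2 × Bool) (L : List (Fin 2 × Bool)) :
    FreeGroup.lift s (FreeGroup.mk (a :: L)) = ev s a * FreeGroup.lift s (FreeGroup.mk L) := by
  simp [ev, FreeGroup.lift_mk]

variable {V : Type} (e : V ≃ H)

/-- The Cayley graph, transported to `V`. -/
def graph : SimpleGraph V where
  Adj u v := u ≠ v ∧ ∃ a : Fin 2 × Bool, e u = ev s a * e v
  symm := ⟨by
    rintro u v ⟨h, a, ha⟩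
    refine ⟨h.symm, inv a, ?_⟩
    rw [ev_inv, ha, inv_mul_cancel_left]⟩
  loopless := ⟨fun u h => h.1 rfl⟩

theorem adj_iff {u v : V} : (graph s e).Adj u v ↔ u ≠ v ∧ ∃ a, e u = ev s a * e v := Iff.rfl

/-- every walk gives a word -/
theorem exists_word {u v : V} (p : (graph s e).Walk u v) :
    ∃ L : List (Fin 2 × Bool), L.length = p.length ∧
      e u = FreeGroup.lift s (FreeGroup.mk L) * e v := by
  induction p with
  | nil => exact ⟨[], rfl, by simp [← FreeGroup.one_eq_mk]⟩
  | cons h p ih =>
    obtain ⟨L, hL, hL2⟩ := ih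
    obtain ⟨hne, a, ha⟩ := id h
    exact ⟨a :: L, by simp [hL], by rw [lift_cons, ha, hL2, mul_assoc]⟩

/-- every trail gives a reduced word -/
theorem exists_reduced {u v : V} (p : (graph s e).Walk u v) (hp : p.IsTrail) :
    ∃ L : List (Fin 2 × Bool), FreeGroup.IsReduced L ∧ L.length = p.length ∧
      e u = FreeGroup.lift s (FreeGroup.mk L) * e v ∧
      ∀ a ∈ L.head?, e u = ev s a * e p.snd := by
  induction p with
  | nil => exact ⟨[], FreeGroup.IsReduced.nil, rfl, by simp [← FreeGroup.one_eq_mk], by simp⟩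
  | @cons u w v h p ih =>
    rw [SimpleGraph.Walk.isTrail_cons] at hp
    obtain ⟨L, hr, hL, hL2, hh⟩ := ih hp.1
    obtain ⟨hne, b, hb⟩ := id h
    refine ⟨b :: L, ?_, by simp [hL], by rw [lift_cons, hb, hL2, mul_assoc], by simpa using hb⟩
    rcases L with _ | ⟨a, L⟩
    · exact FreeGroup.IsReduced.singleton
    · rw [FreeGroup.isReduced_cons_cons]
      refine ⟨fun h1 => ?_, hr⟩
      by_contra h2
      have h3 : b = inv a := by
        rcases a with ⟨i, x⟩
        rcases b with ⟨j, y⟩
        simp only at h1 h2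
        subst h1
        have : y = !x := by cases x <;> cases y <;> simp_all
        rw [this]
        rfl
      have h4 : e w = ev s a * e p.snd := hh a (by simp)
      have h5 : u = p.snd := by
        apply e.injective
        rw [hb, h3, ev_inv, h4, inv_mul_cancel_left]
      apply hp.2
      have hnn : ¬ p.Nil := by
        intro hn
        rw [← SimpleGraph.Walk.length_eq_zero_iff] at hn
        simp [hn] at hL
      have h6 := SimpleGraph.Walk.mk_start_snd_mem_edges hnn
      rwa [← h5, Sym2.eq_swap] at h6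

variable (hN : ∀ a b : Fin 2 × Bool, ev s a = ev s b → a = b)
  (h1 : ∀ a : Fin 2 × Bool, ev s a ≠ 1)

include h1 in
theorem adj_of {u v : V} {a : Fin 2 × Bool} (h : e u = ev s a * e v) : (graph s e).Adj u v := by
  refine ⟨?_, a, h⟩
  rintro rfl
  exact h1 a (by simpa using h)

include h1 in
/-- every word gives a walk -/
theorem exists_walk (L : List (Fin 2 × Bool)) : ∀ (u v : V),
    e u = FreeGroup.lift s (FreeGroup.mk L) * e v →
    ∃ p : (graph s e).Walk u v, p.length = L.length := by
  induction L with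
  | nil =>
    intro u v h
    have : u = v := by
      apply e.injective
      simpa [← FreeGroup.one_eq_mk] using h
    subst this
    exact ⟨SimpleGraph.Walk.nil, rfl⟩
  | cons a L ih =>
    intro u v h
    obtain ⟨p, hp⟩ := ih (e.symm (FreeGroup.lift s (FreeGroup.mk L) * e v)) v (by simp)
    have hadj : (graph s e).Adj u (e.symm (FreeGroup.lift s (FreeGroup.mk L) * e v)) := by
      refine adj_of s e h1 (a := a) ?_
      rw [h, lift_cons, Equiv.apply_symm_apply, mul_assoc]
    refine ⟨SimpleGraph.Walk.cons hadj p, ?_⟩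
    rw [SimpleGraph.Walk.length_cons, List.length_cons, hp]

theorem cayley (H : Type) [Group H] [Finite H] (s : Fin 2 → H)
    (hgen : Subgroup.closure (Set.range s) = ⊤) (N : ℕ) (hN : 4 ≤ N)
    (hs : ∀ g : FreeGroup (Fin 2), g.norm ≤ N → FreeGroup.lift s g = 1 → g = 1) :
    ∃ (M : ℕ) (G : SimpleGraph (Fin M)) (e : Fin M ≃ H), G.Connected ∧
      (∀ v, (G.neighborSet v).ncard = 4) ∧ ((N : ℕ∞) < G.egirth) ∧
      (∀ u v, G.Adj u v → ∃ i, e v = s i * e u ∨ e u = s i * e v) ∧
      (∀ u v, ∃ g : FreeGroup (Fin 2), g.norm = G.dist u v ∧ e v = FreeGroup.lift s g * e u) := by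
  have h1 : ∀ a : Fin 2 × Bool, ev s a ≠ 1 := by
    intro a ha
    have h2 := hs (FreeGroup.mk [a]) (by simp [FreeGroup.norm]; omega) ha
    have h3 : (FreeGroup.mk [a]).toWord = [] := by rw [h2, FreeGroup.toWord_one]
    simp at h3
  have hinj : ∀ a b : Fin 2 × Bool, ev s a = ev s b → a = b := by
    intro a b hab
    have h2 := hs (FreeGroup.mk [a] * (FreeGroup.mk [b])⁻¹) ?_ ?_
    · have h3 : FreeGroup.mk [a] = FreeGroup.mk [b] := by
        rwa [mul_inv_eq_one] at h2
      have h4 : (FreeGroup.mk [a]).toWord = (FreeGroup.mk [b]).toWord := by rw [h3]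
      simpa using h4
    · refine (FreeGroup.norm_mul_le _ _).trans ?_
      rw [FreeGroup.norm_inv_eq]
      have : ∀ c : Fin 2 × Bool, (FreeGroup.mk [c]).norm = 1 := by
        intro c
        simp [FreeGroup.norm]
      rw [this, this]
      omega
    · rw [map_mul, map_inv, mul_inv_eq_one]
      exact hab
  obtain ⟨M, ⟨e'⟩⟩ := Finite.exists_equiv_fin H
  set e := e'.symm with he
  set G := graph s e with hG
  have hconn : G.Connected := by
    have : Nonempty (Fin M) := ⟨e' 1⟩
    refine ⟨fun u v => ?_⟩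
    have h2 : e u * (e v)⁻¹ ∈ (FreeGroup.lift s).range := by
      rw [FreeGroup.range_lift_eq_closure, hgen]
      trivial
    obtain ⟨g, hg⟩ := h2
    obtain ⟨p, -⟩ := exists_walk s e h1 g.toWord u v (by
      rw [FreeGroup.mk_toWord, hg, inv_mul_cancel_right])
    exact ⟨p⟩
  refine ⟨M, G, e, hconn, fun v => ?_, ?_, ?_, ?_⟩
  · have h2 : G.neighborSet v = Set.range fun a : Fin 2 × Bool => e.symm (ev s a * e v) := by
      ext u
      rw [SimpleGraph.mem_neighborSet, Set.mem_range]
      constructor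
      · intro h
        obtain ⟨-, a, ha⟩ := h.symm
        exact ⟨a, by rw [← ha, Equiv.symm_apply_apply]⟩
      · rintro ⟨a, rfl⟩
        exact (adj_of s e h1 (a := a) (by simp)).symm
    rw [h2, Set.ncard_range_of_injective]
    · simp
    · intro a b hab
      have h3 := e.symm.injective hab
      exact hinj a b (mul_right_cancel h3)
  · have h2 : ((N + 1 : ℕ) : ℕ∞) ≤ G.egirth := by
      rw [SimpleGraph.le_egirth]
      intro u p hp
      by_contra hlt
      have hlt' : p.length ≤ N := by
        have : (p.length : ℕ∞) < ((N + 1 : ℕ) : ℕ∞) := not_le.1 hlt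
        have := ENat.natCast_lt_natCast.1 this
        omega
      obtain ⟨L, hr, hL, hL2, -⟩ := exists_reduced s e p hp.isCircuit.isTrail
      have h3 := hs (FreeGroup.mk L) ?_ ?_
      · have h4 : (FreeGroup.mk L).toWord = [] := by rw [h3, FreeGroup.toWord_one]
        rw [FreeGroup.toWord_mk, hr.reduce_eq] at h4
        have h5 := hp.three_le_length
        rw [h4] at hL
        simp only [List.length_nil] at hL
        omega
      · rw [FreeGroup.norm, FreeGroup.toWord_mk, hr.reduce_eq, hL]
        exact hlt'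
      · simpa using hL2
    refine lt_of_lt_of_le ?_ h2
    exact_mod_cast Nat.lt_succ_self N
  · rintro u v ⟨-, ⟨i, b⟩, ha⟩
    rw [ev_eq] at ha
    cases b
    · refine ⟨i, Or.inl ?_⟩
      simp only [cond_false] at ha
      rw [ha, mul_inv_cancel_left]
    · exact ⟨i, Or.inr (by simpa using ha)⟩
  · intro u v
    obtain ⟨p, hp⟩ := (hconn.preconnected v u).exists_walk_length_eq_dist
    obtain ⟨L, hL, hL2⟩ := exists_word s e p
    refine ⟨FreeGroup.mk L, le_antisymm ?_ ?_, hL2⟩
    · rw [SimpleGraph.dist_comm, ← hp, ← hL]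
      exact FreeGroup.norm_mk_le
    · obtain ⟨q, hq⟩ := exists_walk s e h1 (FreeGroup.mk L).toWord v u (by
        rw [FreeGroup.mk_toWord, hL2])
      rw [SimpleGraph.dist_comm]
      refine (SimpleGraph.dist_le q).trans ?_
      rw [hq, FreeGroup.norm]

end Pool.Agent.H3MT.Cayley
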