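import Mathlib

/-!
# Superreflexivity and Markov type
-/

namespace Pool.Agent.H3MT

universe u

/-! ## Banach space notions -/

/-- `Y` is reflexive: the canonical map into the double dual is onto. -/
def IsReflexive (Y : Type*) [NormedAddCommGroup Y] [NormedSpace ℝ Y] : Prop :=
  Function.Surjective (NormedSpace.inclusionInDoubleDual ℝ Y)

/-- `Y` is finitely representable in `X`. -/
def FinitelyRepresentable (Y : Type*) [NormedAddCommGroup Y] [NormedSpace ℝ Y]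
    (X : Type*) [NormedAddCommGroup X] [NormedSpace ℝ X] : Prop :=
  ∀ E : Submodule ℝ Y, FiniteDimensional ℝ E → ∀ ε : ℝ, 0 < ε →
    ∃ T : E →ₗ[ℝ] X, ∀ e : E, (1 - ε) * ‖e‖ ≤ ‖T e‖ ∧ ‖T e‖ ≤ (1 + ε) * ‖e‖

/-- `X` is superreflexive: every Banach space finitely representable in `X` is reflexive. -/
def Superreflexive (X : Type u) [NormedAddCommGroup X] [NormedSpace ℝ X] : Prop :=
  ∀ (Y : Type u) [NormedAddCommGroup Y] [NormedSpace ℝ Y] [CompleteSpace Y],
    FinitelyRepresentable Y X → IsReflexive Y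

/-- `X` has Markov type `p` (K. Ball): there is `K` such that for every stationary reversible Markov
chain `(Z_t)` on a finite set, every map `f` into `X` and every time `t`,
`E ‖f(Z_t) - f(Z_0)‖^p ≤ K^p t E ‖f(Z_1) - f(Z_0)‖^p`. -/
def MarkovType (p : ℝ) (X : Type*) [NormedAddCommGroup X] : Prop :=
  ∃ K : ℝ, 0 ≤ K ∧ ∀ (n : ℕ) (w : Fin n → ℝ) (P : Matrix (Fin n) (Fin n) ℝ),
    (∀ i, 0 ≤ w i) → ∑ i, w i = 1 → (∀ i j, 0 ≤ P i j) → (∀ i, ∑ j, P i j = 1) →
    (∀ i j, w i * P i j = w j * P j i) →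
    ∀ (f : Fin n → X) (t : ℕ),
      ∑ i, ∑ j, w i * (P ^ t) i j * ‖f i - f j‖ ^ p ≤
        K ^ p * t * ∑ i, ∑ j, w i * P i j * ‖f i - f j‖ ^ p

end Pool.Agent.H3MT
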