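import Mathlib
import Pool.Agent.H3MT.Space

/-!
# Definitions for MP_02726b_an (local test spaces, Markov type and superreflexivity)
-/

open Filter Topology

namespace Pool.Agent.H3MT

/-! ## Iterated ultrafilter limits -/

/-- limit of a bounded real sequence along the hyperfilter of `ℕ` -/
noncomputable def ulim (g : ℕ → ℝ) : ℝ := limUnder (hyperfilter ℕ : Filter ℕ) g

/-- iterated limit `lim_{p 0} lim_{p 1} ... lim_{p (m-1)} g p` -/
noncomputable def ilim : (m : ℕ) → ((Fin m → ℕ) → ℝ) → ℝ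
  | 0, g => g (fun j => j.elim0)
  | m + 1, g => ulim (fun i => ilim m (fun p => g (Fin.cons i p)))

/-! ## Spreading seminorms on finitely supported sequences -/

/-- A spreading seminorm dominated by the `ℓ₁` norm and dominating (a multiple of) all tail sums. -/
structure SpreadNorm where
  n : (ℕ →₀ ℝ) → ℝ
  θ : ℝ
  θpos : 0 < θ
  add : ∀ u v, n (u + v) ≤ n u + n v
  smul : ∀ (c : ℝ) u, n (c • u) = |c| * n u
  single : ∀ t, n (Finsupp.single t 1) ≤ 1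
  spread : ∀ ι : ℕ → ℕ, StrictMono ι → ∀ u, n (u.mapDomain ι) = n u
  tail : ∀ (s : ℕ) u, θ * |∑ t ∈ u.support.filter (fun t => s ≤ t), u t| ≤ n u

/-- `alt q = e_0 - e_1 + e_2 - ... - e_{2q-1}` -/
noncomputable def alt (q : ℕ) : ℕ →₀ ℝ :=
  ∑ l ∈ Finset.range q, (Finsupp.single (2 * l) (1 : ℝ) - Finsupp.single (2 * l + 1) (1 : ℝ))

/-- average of the basis vectors `e_s, ..., e_{s+W-1}` -/
noncomputable def avg (W s : ℕ) : ℕ →₀ ℝ :=
  ((W : ℝ)⁻¹) • ∑ i ∈ Finset.range W, Finsupp.single (s + i) (1 : ℝ)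

/-- replace every `e_b` by the average of `e_{bW}, ..., e_{bW+W-1}` -/
noncomputable def dil (W : ℕ) : (ℕ →₀ ℝ) →ₗ[ℝ] (ℕ →₀ ℝ) :=
  Finsupp.lsum ℝ (fun b => LinearMap.toSpanSingleton ℝ (ℕ →₀ ℝ) (avg W (b * W)))

/-- `OscOn u N x Q y`: inside `[x, y)` there are `Q` consecutive pairs of intervals
`[a,b), [b,c)` over which `u` sums to `N` and to `-N`. -/
inductive OscOn (u : ℕ → ℝ) (N : ℝ) : ℕ → ℕ → ℕ → Prop
  | nil {x y : ℕ} : x ≤ y → OscOn u N x 0 y
  | cons {x a b c Q y : ℕ} : x ≤ a → a < b → b < c →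
      ∑ t ∈ Finset.Ico a b, u t = N → ∑ t ∈ Finset.Ico b c, u t = -N →
      OscOn u N c Q y → OscOn u N x (Q + 1) y

/-! ## Patterns -/

/-- position of the `j`-th departure in direction `c` (`c < 4`, `j < Λ`) among `8 Λ` times -/
def pa (c j : ℕ) : ℕ := 8 * j + 2 * c

/-- position of the `j`-th return from direction `c` -/
def pb (c j : ℕ) : ℕ := 8 * j + 2 * c + 1

/-- The edge from a vertex with times `τ` to its image under the `i`-th generator with times `τ'` is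
consistent. -/
def Cons (Λ i : ℕ) (τ τ' : ℕ → ℕ) : Prop :=
  (∀ j, j < Λ → τ (pa i j) = τ' (pb (2 + i) j)) ∧
  (∀ j, j + 1 < Λ → τ (pb i j) = τ' (pa (2 + i) (j + 1)))

/-- the 1-form: `d_i(τ) = ∑_{j < Λ - 1} (e_{τ(a_j)} - e_{τ(b_j)})` -/
def dform (Λ i : ℕ) (τ : ℕ → ℕ) (t : ℕ) : ℤ :=
  ∑ j ∈ Finset.range (Λ - 1),
    ((if t = τ (pa i j) then 1 else 0) - (if t = τ (pb i j) then 1 else 0))

/-- `IsPat Λ n τ`: `τ` is strictly increasing on `[0, 8Λ)` with values `< n` -/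
def IsPat (Λ n : ℕ) (τ : ℕ → ℕ) : Prop :=
  (∀ s t, s < t → t < 8 * Λ → τ s < τ t) ∧ ∀ s, s < 8 * Λ → τ s < n

/-- one step of a path: `(i, true)` goes from `τ` to `τ' = s_i τ`, `(i, false)` goes from `τ = s_i τ'`
to `τ'`. -/
def StepOK (Λ : ℕ) (g : Fin 2 × Bool) (τ τ' : ℕ → ℕ) : Prop :=
  if g.2 then Cons Λ g.1 τ τ' else Cons Λ g.1 τ' τ

/-- the displacement along one step -/
def stepD (Λ : ℕ) (g : Fin 2 × Bool) (τ τ' : ℕ → ℕ) (t : ℕ) : ℤ :=
  if g.2 then dform Λ g.1 τ t else - dform Λ g.1 τ' t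

end Pool.Agent.H3MT
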