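import Pool.Agent.H3MT.Defs

/-!
# Module Markov of H3MT: maps of groups with large relations exclude Markov type `p > 1`
-/

open Filter Topology

namespace Pool.Agent.H3MT.Markov

/-- averaging over the four letters, acting on functions on the free group -/
noncomputable def T (Ψ : FreeGroup (Fin 2) → ℝ) (g : FreeGroup (Fin 2)) : ℝ :=
  (1 / 4) * ∑ a : Fin 2 × Bool, Ψ (FreeGroup.mk [a] * g)

theorem norm_mk_mul (a : Fin 2 × Bool) (g : FreeGroup (Fin 2)) :
    (FreeGroup.mk [a] * g).norm = (FreeGroup.reduce (a :: g.toWord)).length := by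
  unfold FreeGroup.norm
  congr 1
  conv_lhs => rw [← FreeGroup.mk_toWord (x := g)]
  rw [FreeGroup.mul_mk, FreeGroup.toWord_mk]
  rfl

theorem norm_mk_mul_le (a : Fin 2 × Bool) (g : FreeGroup (Fin 2)) :
    (FreeGroup.mk [a] * g).norm ≤ g.norm + 1 := by
  refine (FreeGroup.norm_mul_le _ _).trans ?_
  have : (FreeGroup.mk [a]).norm ≤ 1 := by
    have := FreeGroup.norm_mk_le (L₁ := [a])
    simpa using this
  omega

theorem sum_norm (g : FreeGroup (Fin 2)) :
    (4 : ℝ) * g.norm + 2 ≤ ∑ a : Fin 2 × Bool, ((FreeGroup.mk [a] * g).norm : ℝ) := by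
  have key : 4 * g.norm + 2 ≤ ∑ a : Fin 2 × Bool, (FreeGroup.mk [a] * g).norm := by
    simp only [norm_mk_mul]
    have hred : FreeGroup.reduce g.toWord = g.toWord := FreeGroup.reduce_toWord g
    unfold FreeGroup.norm
    rcases hw : g.toWord with _ | ⟨hd, tl⟩
    · simp
    · rw [hw] at hred
      simp only [FreeGroup.reduce.cons, hred]
      rcases hd with ⟨i, b⟩
      fin_cases i <;> cases b <;>
        simp [Fintype.sum_prod_type] <;> omega
  exact_mod_cast key

theorem T_mono {Ψ Φ : FreeGroup (Fin 2) → ℝ} (r t : ℕ)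
    (h : ∀ g : FreeGroup (Fin 2), g.norm ≤ r + t → Φ g ≤ Ψ g) :
    ∀ g : FreeGroup (Fin 2), g.norm ≤ r → T^[t] Φ g ≤ T^[t] Ψ g := by
  induction t generalizing Ψ Φ with
  | zero => intro g hg; exact h g (by omega)
  | succ t ih =>
    rw [Function.iterate_succ_apply, Function.iterate_succ_apply]
    refine ih ?_
    intro g hg
    unfold T
    refine mul_le_mul_of_nonneg_left ?_ (by norm_num)
    refine Finset.sum_le_sum fun a _ => h _ ?_
    have := norm_mk_mul_le a g
    omega

theorem T_add_const (Ψ : FreeGroup (Fin 2) → ℝ) (c b : ℝ) :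
    T (fun g => c * Ψ g + b) = fun g => c * T Ψ g + b := by
  funext g
  unfold T
  rw [Finset.sum_add_distrib, ← Finset.mul_sum]
  simp [Fintype.sum_prod_type]
  ring

theorem T_iter_add_const (t : ℕ) (Ψ : FreeGroup (Fin 2) → ℝ) (c b : ℝ) :
    T^[t] (fun g => c * Ψ g + b) = fun g => c * T^[t] Ψ g + b := by
  induction t generalizing Ψ with
  | zero => rfl
  | succ t ih =>
    rw [Function.iterate_succ_apply, Function.iterate_succ_apply, T_add_const, ih]

theorem T_iter_norm (t : ℕ) (g : FreeGroup (Fin 2)) :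
    (g.norm : ℝ) + t / 2 ≤ T^[t] (fun g => (g.norm : ℝ)) g := by
  induction t with
  | zero => simp
  | succ t ih =>
    rw [Function.iterate_succ_apply]
    have h1 : T^[t] (fun g => 1 * (g.norm : ℝ) + 1 / 2) g ≤
        T^[t] (T (fun g => (g.norm : ℝ))) g := by
      refine T_mono g.norm t (fun g' _ => ?_) g le_rfl
      have := sum_norm g'
      unfold T
      linarith
    rw [T_iter_add_const] at h1
    push_cast
    linarith

theorem bern {x c p : ℝ} (hx : 0 ≤ x) (hc : 0 < c) (hp : 1 ≤ p) :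
    (p * c ^ p / c) * x + (c ^ p - p * c ^ p) ≤ x ^ p := by
  have h := one_add_mul_self_le_rpow_one_add (s := x / c - 1) (p := p)
    (by have : 0 ≤ x / c := by positivity
        linarith) hp
  have h2 : (1 + (x / c - 1)) = x / c := by ring
  rw [h2, Real.div_rpow hx hc.le] at h
  have hcp : 0 < c ^ p := Real.rpow_pos_of_pos hc p
  have h3 := mul_le_mul_of_nonneg_left h hcp.le
  have h4 : c ^ p * (x ^ p / c ^ p) = x ^ p := by
    field_simp
  rw [h4] at h3
  calc (p * c ^ p / c) * x + (c ^ p - p * c ^ p) = c ^ p * (1 + p * (x / c - 1)) := by ring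
    _ ≤ x ^ p := h3

/-- lower bound of the moment -/
theorem moment (t : ℕ) (ht : 1 ≤ t) (p : ℝ) (hp : 1 < p) (Ψ : FreeGroup (Fin 2) → ℝ)
    (h0 : ∀ g : FreeGroup (Fin 2), g.norm ≤ t → (g.norm : ℝ) ≤ Ψ g) :
    ((t : ℝ) / 2) ^ p ≤ T^[t] (fun g => Ψ g ^ p) 1 := by
  have htp : (0 : ℝ) < (t : ℝ) / 2 := by
    have : (1 : ℝ) ≤ t := by exact_mod_cast ht
    linarith
  set c : ℝ := (t : ℝ) / 2 with hc
  have h1 : T^[t] (fun g => (p * c ^ p / c) * (g.norm : ℝ) + (c ^ p - p * c ^ p)) 1 ≤
      T^[t] (fun g => Ψ g ^ p) 1 := by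
    refine T_mono 0 t (fun g hg => ?_) 1 (by simp)
    refine (bern (Nat.cast_nonneg _) htp hp.le).trans ?_
    exact Real.rpow_le_rpow (Nat.cast_nonneg _) (h0 g (by omega)) (by linarith)
  rw [T_iter_add_const] at h1
  refine le_trans ?_ h1
  have h2 := T_iter_norm t 1
  have h3 : c ≤ T^[t] (fun g => (g.norm : ℝ)) 1 := by
    simpa [hc] using h2
  have hcp : 0 < c ^ p := Real.rpow_pos_of_pos htp p
  have h4 : 0 ≤ p * c ^ p / c := by positivity
  have h5 := mul_le_mul_of_nonneg_left h3 h4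
  have h6 : p * c ^ p / c * c = p * c ^ p := by field_simp
  rw [h6] at h5
  linarith

section chain

variable {H : Type} [Group H] (s : Fin 2 → H) {n : ℕ} (e : H ≃ Fin n)

/-- the value of a letter -/
def val (s : Fin 2 → H) (a : Fin 2 × Bool) : H := if a.2 then s a.1 else (s a.1)⁻¹

theorem lift_mk (a : Fin 2 × Bool) : FreeGroup.lift s (FreeGroup.mk [a]) = val s a := by
  rcases a with ⟨i, b⟩
  cases b <;> simp [val]

theorem val_inv (a : Fin 2 × Bool) : val s (a.1, !a.2) = (val s a)⁻¹ := by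
  rcases a with ⟨i, b⟩
  cases b <;> simp [val]

open Classical in
/-- the transition matrix of the simple random walk -/
noncomputable def P : Matrix (Fin n) (Fin n) ℝ :=
  fun i j => (1 / 4) * ∑ a : Fin 2 × Bool, if e (val s a * e.symm i) = j then 1 else 0

theorem sum_P (i : Fin n) (ψ : Fin n → ℝ) :
    ∑ j, P s e i j * ψ j = (1 / 4) * ∑ a : Fin 2 × Bool, ψ (e (val s a * e.symm i)) := by
  classical
  unfold P
  simp only [mul_assoc, ← Finset.mul_sum, Finset.sum_mul]
  rw [Finset.sum_comm]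
  congr 1
  refine Finset.sum_congr rfl fun a _ => ?_
  simp

theorem P_symm (i j : Fin n) : P s e i j = P s e j i := by
  classical
  unfold P
  congr 1
  let inv : (Fin 2 × Bool) ≃ (Fin 2 × Bool) :=
    ⟨fun a => (a.1, !a.2), fun a => (a.1, !a.2), fun a => by simp, fun a => by simp⟩
  refine Fintype.sum_equiv inv _ _ fun a => ?_
  have : (e (val s a * e.symm i) = j) ↔ (e (val s (inv a) * e.symm j) = i) := by
    show (e (val s a * e.symm i) = j) ↔ (e (val s (a.1, !a.2) * e.symm j) = i)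
    rw [val_inv]
    constructor
    · rintro rfl
      simp
    · rintro rfl
      simp
  simp only [this]

theorem P_nonneg (i j : Fin n) : 0 ≤ P s e i j := by
  classical
  unfold P
  positivity

theorem P_sum (i : Fin n) : ∑ j, P s e i j = 1 := by
  have := sum_P s e i (fun _ => 1)
  simp only [mul_one] at this
  rw [this]
  simp

theorem P_pow (t : ℕ) (ψ : Fin n → ℝ) (h : H) (g : FreeGroup (Fin 2)) :
    ∑ j, (P s e ^ t) (e (FreeGroup.lift s g * h)) j * ψ j =
      T^[t] (fun g => ψ (e (FreeGroup.lift s g * h))) g := by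
  induction t generalizing g with
  | zero =>
    simp [Matrix.one_apply]
  | succ t ih =>
    rw [Function.iterate_succ_apply']
    rw [pow_succ']
    simp only [Matrix.mul_apply, Finset.sum_mul]
    rw [Finset.sum_comm]
    simp only [mul_assoc, ← Finset.mul_sum]
    rw [sum_P s e _ (fun k => ∑ j, (P s e ^ t) k j * ψ j)]
    show _ = (1 / 4) * ∑ a : Fin 2 × Bool,
      T^[t] (fun g => ψ (e (FreeGroup.lift s g * h))) (FreeGroup.mk [a] * g)
    congr 1
    refine Finset.sum_congr rfl fun a _ => ?_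
    rw [← ih]
    refine Finset.sum_congr rfl fun j _ => ?_
    rw [map_mul (FreeGroup.lift s), lift_mk, e.symm_apply_apply, mul_assoc]

end chain

theorem not_markovType (X : Type) [NormedAddCommGroup X] (C : ℝ)
    (hX : ∀ N : ℕ, ∃ (H : Type) (_ : Group H) (_ : Finite H) (s : Fin 2 → H) (F : H → X),
      (∀ i h, ‖F (s i * h) - F h‖ ≤ C) ∧
      ∀ (g : FreeGroup (Fin 2)) h, g.norm ≤ N → (g.norm : ℝ) ≤ ‖F (FreeGroup.lift s g * h) - F h‖)
    (p : ℝ) (hp : 1 < p) : ¬ MarkovType p X := by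
  rintro ⟨K, hK, hM⟩
  have hC : 0 ≤ C := by
    obtain ⟨H, _, _, s, F, h1, _⟩ := hX 0
    exact (norm_nonneg _).trans (h1 0 1)
  have main : ∀ t : ℕ, 1 ≤ t → ((t : ℝ) / 2) ^ p ≤ K ^ p * t * C ^ p := by
    intro t ht
    obtain ⟨H, _, _, s, F, h1, h2⟩ := hX t
    have e : H ≃ Fin (Nat.card H) := Finite.equivFin H
    have hn : 0 < Nat.card H := Nat.card_pos
    have hn' : (0 : ℝ) < (Nat.card H : ℝ) := by exact_mod_cast hn
    have key := hM (Nat.card H) (fun _ => (Nat.card H : ℝ)⁻¹) (P s e)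
      (fun _ => by positivity) (by simp [hn.ne']) (P_nonneg s e) (P_sum s e)
      (fun i j => by rw [P_symm]) (fun i => F (e.symm i)) t
    have hl : ((t : ℝ) / 2) ^ p ≤ ∑ i, ∑ j, (Nat.card H : ℝ)⁻¹ * (P s e ^ t) i j *
        ‖F (e.symm i) - F (e.symm j)‖ ^ p := by
      have hi : ∀ i, (Nat.card H : ℝ)⁻¹ * ((t : ℝ) / 2) ^ p ≤
          ∑ j, (Nat.card H : ℝ)⁻¹ * (P s e ^ t) i j * ‖F (e.symm i) - F (e.symm j)‖ ^ p := by
        intro i
        simp only [mul_assoc, ← Finset.mul_sum]
        refine mul_le_mul_of_nonneg_left ?_ (by positivity)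
        have hpw := P_pow s e t (fun j => ‖F (e.symm i) - F (e.symm j)‖ ^ p) (e.symm i) 1
        simp only [map_one, one_mul, Equiv.apply_symm_apply, Equiv.symm_apply_apply] at hpw
        rw [hpw]
        refine moment t ht p hp (fun g => ‖F (e.symm i) - F (FreeGroup.lift s g * e.symm i)‖) ?_
        intro g hg
        rw [norm_sub_rev]
        exact h2 g _ hg
      calc ((t : ℝ) / 2) ^ p = ∑ _i : Fin (Nat.card H), (Nat.card H : ℝ)⁻¹ * ((t : ℝ) / 2) ^ p := by
            simp [hn.ne']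
        _ ≤ _ := Finset.sum_le_sum fun i _ => hi i
    have hr : ∑ i, ∑ j, (Nat.card H : ℝ)⁻¹ * P s e i j * ‖F (e.symm i) - F (e.symm j)‖ ^ p ≤
        C ^ p := by
      have hi : ∀ i, ∑ j, (Nat.card H : ℝ)⁻¹ * P s e i j * ‖F (e.symm i) - F (e.symm j)‖ ^ p ≤
          (Nat.card H : ℝ)⁻¹ * C ^ p := by
        intro i
        simp only [mul_assoc, ← Finset.mul_sum]
        refine mul_le_mul_of_nonneg_left ?_ (by positivity)
        rw [sum_P s e i (fun j => ‖F (e.symm i) - F (e.symm j)‖ ^ p)]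
        have hb : ∀ a : Fin 2 × Bool,
            ‖F (e.symm i) - F (e.symm (e (val s a * e.symm i)))‖ ^ p ≤ C ^ p := by
          rintro ⟨k, b⟩
          refine Real.rpow_le_rpow (norm_nonneg _) ?_ (by linarith)
          rw [e.symm_apply_apply]
          cases b
          · have := h1 k ((s k)⁻¹ * e.symm i)
            simpa [val] using this
          · rw [norm_sub_rev]
            simpa [val] using h1 k (e.symm i)
        calc (1 / 4 : ℝ) * ∑ a : Fin 2 × Bool, ‖F (e.symm i) - F (e.symm (e (val s a * e.symm i)))‖ ^ p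
            ≤ (1 / 4) * ∑ _a : Fin 2 × Bool, C ^ p :=
              mul_le_mul_of_nonneg_left (Finset.sum_le_sum fun a _ => hb a) (by norm_num)
          _ = C ^ p := by
              simp
      calc _ ≤ ∑ _i : Fin (Nat.card H), (Nat.card H : ℝ)⁻¹ * C ^ p := Finset.sum_le_sum fun i _ => hi i
        _ = C ^ p := by simp [hn.ne']
    have hKt : 0 ≤ K ^ p * (t : ℝ) := by positivity
    exact (hl.trans key).trans (mul_le_mul_of_nonneg_left hr hKt)
  -- growth
  have hlim : Tendsto (fun t : ℕ => (t : ℝ) ^ (p - 1)) atTop atTop :=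
    (tendsto_rpow_atTop (by linarith)).comp tendsto_natCast_atTop_atTop
  obtain ⟨t, ht, ht1⟩ := ((hlim.eventually_gt_atTop (2 ^ p * (K ^ p * C ^ p))).and
    (eventually_ge_atTop 1)).exists
  have h := main t ht1
  have htpos : (0 : ℝ) < t := by exact_mod_cast ht1
  rw [Real.div_rpow htpos.le (by norm_num)] at h
  have h2p : (0 : ℝ) < 2 ^ p := Real.rpow_pos_of_pos (by norm_num) p
  rw [div_le_iff₀ h2p] at h
  have h3 : (t : ℝ) ^ p = (t : ℝ) ^ (p - 1) * t := by
    rw [← Real.rpow_add_one htpos.ne']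
    congr 1
    ring
  rw [h3] at h
  have h4 : (t : ℝ) ^ (p - 1) * t ≤ (2 ^ p * (K ^ p * C ^ p)) * t := by
    calc _ ≤ _ := h
      _ = _ := by ring
  have h5 := le_of_mul_le_mul_right h4 htpos
  exact absurd ht (not_lt.mpr h5)

end Pool.Agent.H3MT.Markov
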