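import Pool.Agent.H3MT.Assemble
import Pool.Agent.H3MT.Cayley
import Pool.Agent.H3MT.Markov

/-!
# MP_02726b_an: final assembly (groups with large relations and good maps into every
non-superreflexive space)
-/

namespace Pool.Agent.H3MT.Final

/-- If every edge is stretched by at most `C`, the map is `C`-Lipschitz. -/
theorem lip_of_adj {m : ℕ} (G : SimpleGraph (Fin m)) (hG : G.Connected) {X : Type}
    [NormedAddCommGroup X] (f : Fin m → X) (C : ℝ) (h : ∀ u v, G.Adj u v → ‖f u - f v‖ ≤ C)
    (u v : Fin m) : ‖f u - f v‖ ≤ C * (G.dist u v : ℝ) := by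
  obtain ⟨p, hp⟩ := hG.exists_walk_length_eq_dist u v
  rw [← hp]
  clear hp
  induction p with
  | nil => simp
  | @cons u w v hadj p ih =>
    rw [SimpleGraph.Walk.length_cons]
    have h1 : ‖f u - f v‖ ≤ ‖f u - f w‖ + ‖f w - f v‖ := norm_sub_le_norm_sub_add_norm_sub _ _ _
    have h2 := h u w hadj
    push_cast
    linarith

/-- The finite groups: large relations and good maps into every non-superreflexive space. -/
theorem groups (N : ℕ) : ∃ (H : Type) (_ : Group H) (_ : Finite H) (s : Fin 2 → H),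
    (Subgroup.closure (Set.range s) = ⊤) ∧
    (∀ g : FreeGroup (Fin 2), g.norm ≤ N → FreeGroup.lift s g = 1 → g = 1) ∧
    ∀ (X : Type) [NormedAddCommGroup X] [NormedSpace ℝ X], ¬ Superreflexive X →
      ∃ F : H → X, (∀ i h, ‖F (s i * h) - F h‖ ≤ 17) ∧
        ∀ (g : FreeGroup (Fin 2)) h, g.norm ≤ N →
          (g.norm : ℝ) ≤ ‖F (FreeGroup.lift s g * h) - F h‖ := by
  obtain ⟨q, σ, hq, hσ1, hσ⟩ := Assemble.assemble (N + 1) (by omega)
  obtain ⟨s, hs⟩ : ∃ s : Fin 2 → Subgroup.closure (Set.range σ),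
      ∀ i, (s i : Equiv.Perm (Fin q)) = σ i :=
    ⟨fun i => ⟨σ i, Subgroup.subset_closure ⟨i, rfl⟩⟩, fun i => rfl⟩
  have hlift : ∀ g, ((FreeGroup.lift s g : Subgroup.closure (Set.range σ)) :
      Equiv.Perm (Fin q)) = FreeGroup.lift σ g := by
    intro g
    have : (Subgroup.subtype (Subgroup.closure (Set.range σ))).comp (FreeGroup.lift s) =
        FreeGroup.lift σ := by
      ext i
      simp [hs]
    rw [← this]
    rfl
  refine ⟨Subgroup.closure (Set.range σ), inferInstance, inferInstance, s, ?_, ?_, ?_⟩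
  · have h1 : Set.range s = Subtype.val ⁻¹' Set.range σ := by
      ext x
      constructor
      · rintro ⟨i, rfl⟩
        exact ⟨i, (hs i).symm⟩
      · rintro ⟨i, hi⟩
        exact ⟨i, Subtype.ext ((hs i).trans hi)⟩
    rw [h1]
    exact Subgroup.closure_closure_coe_preimage
  · intro g hg h1
    refine hσ1 g (by omega) ?_
    rw [← hlift, h1, Subgroup.coe_one]
  · intro X _ _ hX
    obtain ⟨F, hF1, hF2⟩ := hσ X hX
    refine ⟨fun h => F h, ?_, ?_⟩
    · intro i h
      beta_reduce
      rw [Subgroup.coe_mul, hs]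
      exact hF1 i h
    · intro g h hg
      beta_reduce
      rw [Subgroup.coe_mul, hlift]
      exact hF2 g h (by omega)

end Pool.Agent.H3MT.Final
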