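import Pool.Agent.H3MT.Defs

/-!
# MODULE ILim: iterated ultrafilter limits
-/

open Filter Topology

namespace Pool.Agent.H3MT.ILim

open Pool.Agent.H3MT

theorem ulim_tendsto {g : ℕ → ℝ} {C : ℝ} (h : ∀ i, |g i| ≤ C) :
    Tendsto g (hyperfilter ℕ : Filter ℕ) (𝓝 (ulim g)) := by
  have hc : IsCompact (Set.Icc (-C) C) := isCompact_Icc
  have hmem : (Ultrafilter.map g (hyperfilter ℕ) : Filter ℝ) ≤ 𝓟 (Set.Icc (-C) C) := by
    rw [le_principal_iff]
    change g ⁻¹' (Set.Icc (-C) C) ∈ (hyperfilter ℕ : Filter ℕ)
    have : g ⁻¹' (Set.Icc (-C) C) = Set.univ := by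
      ext i
      simp only [Set.mem_preimage, Set.mem_Icc, Set.mem_univ, iff_true]
      exact abs_le.mp (h i)
    rw [this]
    exact univ_mem
  obtain ⟨x, -, hx⟩ := hc.ultrafilter_le_nhds (Ultrafilter.map g (hyperfilter ℕ)) hmem
  exact tendsto_nhds_limUnder ⟨x, hx⟩

theorem ulim_const (c : ℝ) : ulim (fun _ => c) = c :=
  tendsto_nhds_unique (ulim_tendsto (g := fun _ => c) (C := |c|) (fun _ => le_refl _))
    tendsto_const_nhds

theorem ilim_bound {m : ℕ} (g : (Fin m → ℕ) → ℝ) {C : ℝ} (h : ∀ p, |g p| ≤ C) :
    |ilim m g| ≤ C := by
  induction m with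
  | zero => exact h _
  | succ m ih =>
    have hi : ∀ i, |ilim m (fun p => g (Fin.cons i p))| ≤ C := fun i => ih _ (fun p => h _)
    exact le_of_tendsto (ulim_tendsto hi).abs (Eventually.of_forall hi)

/-- simultaneous approximation of finitely many iterated limits along one increasing tuple -/
theorem ilim_approx {m : ℕ} {κ : Type*} [Finite κ] (g : κ → (Fin m → ℕ) → ℝ) {C : ℝ}
    (h : ∀ k p, |g k p| ≤ C) {ε : ℝ} (hε : 0 < ε) (b : ℕ) :
    ∃ p : Fin m → ℕ, StrictMono p ∧ (∀ j, b ≤ p j) ∧ ∀ k, |g k p - ilim m (g k)| < ε := by
  induction m generalizing ε b with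
  | zero =>
    refine ⟨fun j => j.elim0, fun j => j.elim0, fun j => j.elim0, fun k => ?_⟩
    simp only [ilim, sub_self, abs_zero]
    exact hε
  | succ m ih =>
    have hi : ∀ k i, |ilim m (fun p => g k (Fin.cons i p))| ≤ C :=
      fun k i => ilim_bound _ (fun p => h _ _)
    have h1 : ∀ k, ∀ᶠ i in (hyperfilter ℕ : Filter ℕ),
        |ilim m (fun p => g k (Fin.cons i p)) - ilim (m + 1) (g k)| < ε / 2 := by
      intro k
      have := (ulim_tendsto (hi k))
      rw [Metric.tendsto_nhds] at this
      exact this (ε / 2) (by positivity)
    have h2 : ∀ᶠ i in (hyperfilter ℕ : Filter ℕ), b ≤ i := by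
      have h3 : ∀ᶠ i in (cofinite : Filter ℕ), b ≤ i := by
        rw [Nat.cofinite_eq_atTop]
        exact eventually_ge_atTop b
      exact hyperfilter_le_cofinite h3
    obtain ⟨i, hi1, hi2⟩ := ((eventually_all.mpr h1).and h2).exists
    obtain ⟨p, hp, hpb, hpk⟩ := ih (fun k p => g k (Fin.cons i p)) (fun k p => h _ _)
      (half_pos hε) (i + 1)
    refine ⟨Fin.cons i p, ?_, ?_, ?_⟩
    · intro a c hac
      induction a using Fin.cases with
      | zero =>
        induction c using Fin.cases with
        | zero => exact absurd hac (lt_irrefl _)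
        | succ c =>
          rw [Fin.cons_zero, Fin.cons_succ]
          exact hpb c
      | succ a =>
        induction c using Fin.cases with
        | zero => exact absurd hac (Fin.not_lt_zero _)
        | succ c =>
          rw [Fin.cons_succ, Fin.cons_succ]
          exact hp (Fin.succ_lt_succ_iff.mp hac)
    · intro j
      induction j using Fin.cases with
      | zero => rw [Fin.cons_zero]; exact hi2
      | succ j => rw [Fin.cons_succ]; exact le_trans hi2 (le_trans (Nat.le_succ i) (hpb j))
    · intro k
      have e1 := hpk k
      have e2 := hi1 k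
      have : g k (Fin.cons i p) - ilim (m + 1) (g k)
          = (g k (Fin.cons i p) - ilim m (fun p => g k (Fin.cons i p)))
            + (ilim m (fun p => g k (Fin.cons i p)) - ilim (m + 1) (g k)) := by ring
      rw [this]
      calc _ ≤ |g k (Fin.cons i p) - ilim m (fun p => g k (Fin.cons i p))|
            + |ilim m (fun p => g k (Fin.cons i p)) - ilim (m + 1) (g k)| := abs_add_le _ _
        _ < ε / 2 + ε / 2 := add_lt_add e1 e2
        _ = ε := by ring

/-- dummy coordinates can be dropped -/
theorem ilim_comp {m L : ℕ} (α : Fin m → Fin L) (hα : StrictMono α) (g : (Fin m → ℕ) → ℝ) {C : ℝ}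
    (h : ∀ p, |g p| ≤ C) : ilim L (fun p => g (p ∘ α)) = ilim m g := by
  induction L generalizing m with
  | zero =>
    cases m with
    | zero =>
      simp only [ilim]
      congr 1
    | succ m => exact (α 0).elim0
  | succ L ih =>
    cases m with
    | zero =>
      have e : ∀ i, ilim L (fun p => g ((Fin.cons i p : Fin (L + 1) → ℕ) ∘ α)) = ilim 0 g := by
        intro i
        have := ih (m := 0) (fun j => j.elim0) (fun j => j.elim0) g h
        rw [← this]
        congr 1
        funext p
        congr 1
        funext j
        exact j.elim0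
      change ulim (fun i => ilim L (fun p => g ((Fin.cons i p : Fin (L + 1) → ℕ) ∘ α))) = _
      simp only [e]
      exact ulim_const _
    | succ m =>
      by_cases h0 : α 0 = 0
      · have hne : ∀ j : Fin m, α j.succ ≠ 0 := by
          intro j hj
          have := hα (Fin.succ_pos j)
          rw [hj] at this
          exact absurd this (Fin.not_lt_zero _)
        let α' : Fin m → Fin L := fun j => (α j.succ).pred (hne j)
        have hα' : StrictMono α' := by
          intro a c hac
          exact Fin.pred_lt_pred_iff.mpr (hα (Fin.succ_lt_succ_iff.mpr hac))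
        have e : ∀ i, ilim L (fun p => g ((Fin.cons i p : Fin (L + 1) → ℕ) ∘ α))
            = ilim m (fun p => g (Fin.cons i p)) := by
          intro i
          rw [← ih α' hα' (fun p => g (Fin.cons i p)) (fun p => h _)]
          congr 1
          funext p
          congr 1
          funext j
          induction j using Fin.cases with
          | zero => simp only [Function.comp, h0, Fin.cons_zero]
          | succ j =>
            simp only [Function.comp, Fin.cons_succ]
            have : α j.succ = (α' j).succ := (Fin.succ_pred _ _).symm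
            rw [this, Fin.cons_succ]
        change ulim (fun i => ilim L (fun p => g ((Fin.cons i p : Fin (L + 1) → ℕ) ∘ α))) = _
        simp only [e]
        rfl
      · have hne : ∀ j : Fin (m + 1), α j ≠ 0 := by
          intro j hj
          apply h0
          have : α 0 ≤ α j := hα.monotone (Fin.zero_le j)
          rw [hj] at this
          exact Fin.le_zero_iff.mp this
        let α' : Fin (m + 1) → Fin L := fun j => (α j).pred (hne j)
        have hα' : StrictMono α' := by
          intro a c hac
          exact Fin.pred_lt_pred_iff.mpr (hα hac)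
        have e : ∀ i, ilim L (fun p => g ((Fin.cons i p : Fin (L + 1) → ℕ) ∘ α))
            = ilim (m + 1) g := by
          intro i
          rw [← ih α' hα' g h]
          congr 1
          funext p
          congr 1
          funext j
          simp only [Function.comp]
          have : α j = (α' j).succ := (Fin.succ_pred _ _).symm
          rw [this, Fin.cons_succ]
        change ulim (fun i => ilim L (fun p => g ((Fin.cons i p : Fin (L + 1) → ℕ) ∘ α))) = _
        simp only [e]
        exact ulim_const _

end Pool.Agent.H3MT.ILim
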