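import Pool.Agent.H3MT.Defs
import Pool.Agent.H3MT.ILim

/-!
# MODULE SNorm, core: the spreading seminorm of a James sequence
-/

open Filter Topology

namespace Pool.Agent.H3MT.SNorm

open Pool.Agent.H3MT Pool.Agent.H3MT.ILim

variable {Y : Type*} [NormedAddCommGroup Y] [NormedSpace ℝ Y]

/-- norm of the finite sum with coefficients `u j`, `j < L`, at the tuple `p` -/
noncomputable def gfun (y : ℕ → Y) (L : ℕ) (u : ℕ →₀ ℝ) (p : Fin L → ℕ) : ℝ :=
  ‖∑ j : Fin L, u j • y (p j)‖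

/-- all coordinates of `u` with index at least `bd u` vanish -/
noncomputable def bd (u : ℕ →₀ ℝ) : ℕ := u.support.sup (fun i => i + 1)

/-- the seminorm -/
noncomputable def nn (y : ℕ → Y) (u : ℕ →₀ ℝ) : ℝ := ilim (bd u) (gfun y (bd u) u)

theorem bd_spec (u : ℕ →₀ ℝ) (j : ℕ) (hj : bd u ≤ j) : u j = 0 := by
  by_contra h
  have h1 : j ∈ u.support := Finsupp.mem_support_iff.mpr h
  have h2 : j + 1 ≤ bd u := Finset.le_sup (f := fun i => i + 1) h1
  omega

theorem gfun_bound {y : ℕ → Y} (hy : ∀ i, ‖y i‖ ≤ 1) (L : ℕ) (u : ℕ →₀ ℝ) (p : Fin L → ℕ) :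
    |gfun y L u p| ≤ ∑ j : Fin L, |u j| := by
  unfold gfun
  rw [abs_norm]
  refine (norm_sum_le _ _).trans (Finset.sum_le_sum fun j _ => ?_)
  rw [norm_smul, Real.norm_eq_abs]
  calc |u j| * ‖y (p j)‖ ≤ |u j| * 1 := mul_le_mul_of_nonneg_left (hy _) (abs_nonneg _)
    _ = |u j| := mul_one _

theorem ilim_gfun_map {y : ℕ → Y} (hy : ∀ i, ‖y i‖ ≤ 1) {m L : ℕ} (α : Fin m → Fin L)
    (hα : StrictMono α) (u v : ℕ →₀ ℝ) (h1 : ∀ j : Fin m, v (α j) = u j)
    (h2 : ∀ i : Fin L, i ∉ Set.range α → v i = 0) :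
    ilim L (gfun y L v) = ilim m (gfun y m u) := by
  rw [← ilim_comp α hα (gfun y m u) (gfun_bound hy m u)]
  congr 1
  funext p
  unfold gfun
  congr 1
  symm
  refine Fintype.sum_of_injective α hα.injective _ _ ?_ ?_
  · intro i hi
    rw [h2 i hi, zero_smul]
  · intro j
    rw [h1 j]
    rfl

theorem nn_eq {y : ℕ → Y} (hy : ∀ i, ‖y i‖ ≤ 1) (u : ℕ →₀ ℝ) (L : ℕ) (hL : bd u ≤ L) :
    nn y u = ilim L (gfun y L u) := by
  symm
  refine ilim_gfun_map hy (Fin.castLE hL) (Fin.strictMono_castLE hL) u u (fun j => rfl) ?_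
  intro i hi
  apply bd_spec
  by_contra h
  push Not at h
  exact hi ⟨⟨i, h⟩, rfl⟩

theorem nn_spread {y : ℕ → Y} (hy : ∀ i, ‖y i‖ ≤ 1) (ι : ℕ → ℕ) (hι : StrictMono ι)
    (u : ℕ →₀ ℝ) : nn y (u.mapDomain ι) = nn y u := by
  rw [nn_eq hy (u.mapDomain ι) (max (bd (u.mapDomain ι)) (ι (bd u))) (le_max_left _ _)]
  refine ilim_gfun_map hy
    (fun j : Fin (bd u) => ⟨ι j, lt_of_lt_of_le (hι j.2) (le_max_right _ _)⟩) ?_ u _ ?_ ?_
  · intro a b hab
    exact hι hab
  · intro j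
    exact Finsupp.mapDomain_apply hι.injective u j
  · intro i hi
    by_cases h : (i : ℕ) ∈ Set.range ι
    · obtain ⟨j, hj⟩ := h
      rw [← hj, Finsupp.mapDomain_apply hι.injective u j]
      apply bd_spec
      by_contra h'
      push Not at h'
      exact hi ⟨⟨j, h'⟩, Fin.ext hj⟩
    · exact Finsupp.mapDomain_of_notMem_range u _ h

theorem sum_eq_fin {y : ℕ → Y} (u : ℕ →₀ ℝ) (L : ℕ) (hL : bd u ≤ L) (q : ℕ → ℕ) :
    u.sum (fun t c => c • y (q t)) = ∑ j : Fin L, u j • y (q j) := by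
  rw [Fin.sum_univ_eq_sum_range (fun j => u j • y (q j)) L]
  rw [Finsupp.sum]
  apply Finset.sum_subset
  · intro t ht
    rw [Finset.mem_range]
    by_contra h
    push Not at h
    exact Finsupp.mem_support_iff.mp ht (bd_spec u t (hL.trans h))
  · intro t _ ht
    rw [Finsupp.notMem_support_iff.mp ht, zero_smul]

theorem realize {y : ℕ → Y} (hy : ∀ i, ‖y i‖ ≤ 1) {κ : Type*} [Finite κ] (u : κ → (ℕ →₀ ℝ))
    {ε : ℝ} (hε : 0 < ε) :
    ∃ q : ℕ → ℕ, StrictMono q ∧
      ∀ k, |‖(u k).sum (fun t c => c • y (q t))‖ - nn y (u k)| < ε := by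
  have := Fintype.ofFinite κ
  set L : ℕ := Finset.univ.sup (fun k => bd (u k)) with hLdef
  have hL : ∀ k, bd (u k) ≤ L := fun k => Finset.le_sup (f := fun k => bd (u k)) (Finset.mem_univ k)
  have hC : ∀ k p, |gfun y L (u k) p| ≤ ∑ k, ∑ j : Fin L, |u k j| := by
    intro k p
    refine (gfun_bound hy L (u k) p).trans ?_
    exact Finset.single_le_sum (f := fun k => ∑ j : Fin L, |u k j|)
      (fun k _ => Finset.sum_nonneg fun j _ => abs_nonneg _) (Finset.mem_univ k)
  obtain ⟨p, hp, -, hpk⟩ := ilim_approx (fun k => gfun y L (u k)) hC hε 0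
  refine ⟨fun t => if h : t < L then p ⟨t, h⟩ else (∑ j, p j) + t + 1, ?_, ?_⟩
  · intro s t hst
    by_cases ht : t < L
    · have hs : s < L := hst.trans ht
      simp only [ht, hs, dif_pos]
      exact hp (by exact_mod_cast hst)
    · by_cases hs : s < L
      · simp only [ht, hs, dif_pos, dif_neg, not_false_eq_true]
        have : p ⟨s, hs⟩ ≤ ∑ j, p j :=
          Finset.single_le_sum (f := fun j => p j) (fun j _ => Nat.zero_le _) (Finset.mem_univ _)
        omega
      · simp only [ht, hs, dif_neg, not_false_eq_true]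
        omega
  · intro k
    rw [sum_eq_fin (u k) L (hL k), nn_eq hy (u k) L (hL k)]
    have := hpk k
    unfold gfun at this ⊢
    simp only [Fin.is_lt, dif_pos]
    exact this

/-- the data of a James sequence give a spreading seminorm -/
noncomputable def mk (θ : ℝ) (hθ : 0 < θ) (y : ℕ → Y) (φ : ℕ → (Y →L[ℝ] ℝ))
    (hy : ∀ i, ‖y i‖ ≤ 1) (hφ : ∀ i, ‖φ i‖ ≤ 1) (h1 : ∀ i j, i ≤ j → φ i (y j) = θ)
    (h2 : ∀ i j, j < i → φ i (y j) = 0) : SpreadNorm where
  n := nn y
  θ := θ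
  θpos := hθ
  add := by
    intro u v
    refine le_of_forall_pos_lt_add fun ε hε => ?_
    obtain ⟨q, -, hq⟩ := realize hy (κ := Fin 3) (![u, v, u + v]) (ε := ε / 3) (by positivity)
    have e0 := abs_lt.mp (hq 0)
    have e1 := abs_lt.mp (hq 1)
    have e2 := abs_lt.mp (hq 2)
    simp only [Matrix.cons_val_zero, Matrix.cons_val_one, Matrix.cons_val] at e0 e1 e2
    have e3 : (u + v).sum (fun t c => c • y (q t))
        = u.sum (fun t c => c • y (q t)) + v.sum (fun t c => c • y (q t)) :=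
      Finsupp.sum_add_index' (fun _ => zero_smul _ _) (fun _ _ _ => add_smul _ _ _)
    rw [e3] at e2
    have e4 := norm_add_le (u.sum (fun t c => c • y (q t))) (v.sum (fun t c => c • y (q t)))
    linarith [e0.1, e0.2, e1.1, e1.2, e2.1, e2.2]
  smul := by
    intro c u
    refine eq_of_forall_dist_le fun ε hε => ?_
    obtain ⟨q, -, hq⟩ := realize hy (κ := Fin 2) (![u, c • u]) (ε := ε / (1 + |c|))
      (by positivity)
    have e0 := hq 0
    have e1 := hq 1
    simp only [Matrix.cons_val_zero, Matrix.cons_val_one] at e0 e1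
    have e3 : (c • u).sum (fun t c => c • y (q t)) = c • u.sum (fun t c => c • y (q t)) := by
      have e4 : (c • u).sum (fun t c => c • y (q t)) = u.sum (fun t a => (c • a) • y (q t)) :=
        Finsupp.sum_smul_index' (fun _ => zero_smul _ _)
      rw [e4, Finsupp.smul_sum]
      simp only [smul_eq_mul, mul_smul]
    rw [e3, norm_smul, Real.norm_eq_abs] at e1
    set a := ‖u.sum (fun t c => c • y (q t))‖
    rw [Real.dist_eq]
    have h3 : nn y (c • u) - |c| * nn y u
        = -(|c| * a - nn y (c • u)) + |c| * (a - nn y u) := by ring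
    rw [h3]
    calc |-(|c| * a - nn y (c • u)) + |c| * (a - nn y u)|
        ≤ |-(|c| * a - nn y (c • u))| + |(|c| * (a - nn y u))| := abs_add_le _ _
      _ = |(|c| * a - nn y (c • u))| + |c| * |a - nn y u| := by
          rw [abs_neg, abs_mul, abs_abs]
      _ ≤ ε / (1 + |c|) + |c| * (ε / (1 + |c|)) := by
          have := mul_le_mul_of_nonneg_left e0.le (abs_nonneg c)
          linarith
      _ = ε := by
          have : 0 < 1 + |c| := by positivity
          field_simp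
  single := by
    intro t
    refine le_of_forall_pos_lt_add fun ε hε => ?_
    obtain ⟨q, -, hq⟩ := realize hy (κ := Fin 1) (fun _ => Finsupp.single t 1) hε
    have e0 := hq 0
    have e2 : (Finsupp.single t (1 : ℝ)).sum (fun t c => c • y (q t)) = (1 : ℝ) • y (q t) :=
      Finsupp.sum_single_index (zero_smul _ _)
    rw [e2, one_smul] at e0
    have e1 := abs_lt.mp e0
    linarith [hy (q t), e1.1, e1.2]
  spread := fun ι hι u => nn_spread hy ι hι u
  tail := by
    intro s u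
    refine le_of_forall_pos_lt_add fun ε hε => ?_
    obtain ⟨q, hq1, hq⟩ := realize hy (κ := Fin 1) (fun _ => u) hε
    have e0 := abs_lt.mp (hq 0)
    have e1 : φ (q s) (u.sum (fun t c => c • y (q t)))
        = θ * ∑ t ∈ u.support.filter (fun t => s ≤ t), u t := by
      rw [Finsupp.sum, map_sum, Finset.mul_sum, Finset.sum_filter]
      refine Finset.sum_congr rfl fun t _ => ?_
      rw [map_smul, smul_eq_mul]
      split_ifs with h
      · rw [h1 _ _ (hq1.monotone h), mul_comm]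
      · rw [h2 _ _ (hq1 (not_le.mp h)), mul_zero]
    have e2 : |φ (q s) (u.sum (fun t c => c • y (q t)))|
        ≤ ‖u.sum (fun t c => c • y (q t))‖ := by
      have := (φ (q s)).le_of_opNorm_le (hφ (q s)) (u.sum (fun t c => c • y (q t)))
      rw [one_mul, Real.norm_eq_abs] at this
      exact this
    rw [e1, abs_mul, abs_of_pos hθ] at e2
    linarith [e0.1, e0.2]

theorem exists_spreadNorm_of_jseq (θ : ℝ) (hθ : 0 < θ) (y : ℕ → Y) (φ : ℕ → (Y →L[ℝ] ℝ))
    (hy : ∀ i, ‖y i‖ ≤ 1) (hφ : ∀ i, ‖φ i‖ ≤ 1) (h1 : ∀ i j, i ≤ j → φ i (y j) = θ)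
    (h2 : ∀ i j, j < i → φ i (y j) = 0) :
    ∃ S : SpreadNorm, ∀ (κ : Type) [Finite κ] (u : κ → (ℕ →₀ ℝ)) (ε : ℝ), 0 < ε →
      ∃ z : ℕ → Y, ∀ k, |‖(u k).sum (fun t c => c • z t)‖ - S.n (u k)| < ε := by
  refine ⟨mk θ hθ y φ hy hφ h1 h2, fun κ _ u ε hε => ?_⟩
  obtain ⟨q, -, hq⟩ := realize hy u hε
  exact ⟨fun t => y (q t), hq⟩

end Pool.Agent.H3MT.SNorm
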